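import Pool.Agent.H382R2.Defs

open Complex Filter Topology Set MeasureTheory

namespace SG

/-! ### `μ(n)^2 = ∑_{d^2 ∣ n} μ(d)` -/

theorem moebius_sq_eq (n : ℕ) (hn : n ≠ 0) :
    ((ArithmeticFunction.moebius n : ℤ) : ℝ) ^ 2 =
      ∑ d ∈ Finset.Icc 1 n, if d ^ 2 ∣ n then ((ArithmeticFunction.moebius d : ℤ) : ℝ) else 0 := by
  obtain ⟨a, b, hab, ha⟩ := Nat.sq_mul_squarefree n
  have hb0 : b ≠ 0 := by rintro rfl; apply hn; rw [← hab]; simp
  have ha0 : a ≠ 0 := by rintro rfl; apply hn; rw [← hab]; simp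
  have key : ∀ d : ℕ, d ^ 2 ∣ n ↔ d ∣ b := by
    intro d
    constructor
    · intro h
      have hd0 : d ≠ 0 := by
        rintro rfl
        rw [zero_pow two_ne_zero, zero_dvd_iff] at h
        exact hn h
      rw [← Nat.factorization_le_iff_dvd (pow_ne_zero _ hd0) hn] at h
      rw [← Nat.factorization_le_iff_dvd hd0 hb0]
      intro p
      have h1 := h p
      rw [← hab, Nat.factorization_mul (pow_ne_zero _ hb0) ha0, Nat.factorization_pow,
        Nat.factorization_pow] at h1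
      have h2 := ha.natFactorization_le_one p
      simp only [Finsupp.coe_smul, Finsupp.coe_add, Pi.add_apply, Pi.smul_apply, smul_eq_mul] at h1
      omega
    · intro h
      rw [← hab]
      exact Dvd.dvd.mul_right (pow_dvd_pow_of_dvd h 2) a
  have h1 : (∑ d ∈ Finset.Icc 1 n, if d ^ 2 ∣ n then ((ArithmeticFunction.moebius d : ℤ) : ℝ) else 0)
      = ∑ d ∈ b.divisors, ((ArithmeticFunction.moebius d : ℤ) : ℝ) := by
    rw [← Finset.sum_filter]
    apply Finset.sum_congr _ (fun _ _ => rfl)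
    ext d
    simp only [Finset.mem_filter, Finset.mem_Icc, Nat.mem_divisors, key]
    constructor
    · rintro ⟨-, h⟩; exact ⟨h, hb0⟩
    · rintro ⟨h, -⟩
      refine ⟨⟨Nat.pos_of_dvd_of_pos h (Nat.pos_of_ne_zero hb0), ?_⟩, h⟩
      have h3 : d ≤ b := Nat.le_of_dvd (Nat.pos_of_ne_zero hb0) h
      have h4 : b ∣ n := by rw [← hab]; exact Dvd.dvd.mul_right (dvd_pow_self b two_ne_zero) a
      exact h3.trans (Nat.le_of_dvd (Nat.pos_of_ne_zero hn) h4)
  rw [h1]
  have h2 : (∑ d ∈ b.divisors, (ArithmeticFunction.moebius d : ℤ)) = if b = 1 then 1 else 0 := by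
    have := congrArg (fun f => f b) ArithmeticFunction.moebius_mul_coe_zeta
    simp only [ArithmeticFunction.coe_mul_zeta_apply, ArithmeticFunction.one_apply] at this
    exact this
  have h2' : (∑ d ∈ b.divisors, ((ArithmeticFunction.moebius d : ℤ) : ℝ)) = if b = 1 then 1 else 0 := by
    have := congrArg (fun z : ℤ => (z : ℝ)) h2
    push_cast at this
    exact this
  rw [h2']
  have h3 : ((ArithmeticFunction.moebius n : ℤ) : ℝ) ^ 2 = if Squarefree n then 1 else 0 := by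
    have := congrArg (fun z : ℤ => (z : ℝ)) (ArithmeticFunction.moebius_sq (n := n))
    push_cast at this
    exact this
  rw [h3]
  have h4 : Squarefree n ↔ b = 1 := by
    constructor
    · intro h
      have := h b (by rw [← hab, ← sq]; exact dvd_mul_right _ _)
      exact Nat.isUnit_iff.mp this
    · rintro rfl
      rw [← hab]; simpa using ha
  simp only [h4]

/-- the constant `6 / π^2` -/
noncomputable def C0 : ℝ := ∑' d : ℕ, ((ArithmeticFunction.moebius d : ℤ) : ℝ) / (d : ℝ) ^ 2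

theorem abs_moebius_real_le (d : ℕ) : |((ArithmeticFunction.moebius d : ℤ) : ℝ)| ≤ 1 := by
  have := ArithmeticFunction.abs_moebius_le_one (n := d)
  exact_mod_cast this

theorem summable_moebius_sq : Summable fun d : ℕ => ((ArithmeticFunction.moebius d : ℤ) : ℝ) / (d : ℝ) ^ 2 := by
  apply Summable.of_norm_bounded (g := fun d : ℕ => 1 / (d : ℝ) ^ 2)
    (Real.summable_one_div_nat_pow.mpr one_lt_two)
  intro d
  rw [norm_div, norm_pow, Real.norm_natCast, Real.norm_eq_abs]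
  gcongr
  exact abs_moebius_real_le d

theorem C0_pos : 0 < C0 := by
  have h1 := hasSum_zeta_two
  have h2 := summable_moebius_sq
  have h3 : HasSum (fun d : ℕ => (((ArithmeticFunction.moebius d : ℤ) : ℝ) + 1) / (d : ℝ) ^ 2)
      (C0 + Real.pi ^ 2 / 6) := by
    have := h2.hasSum.add h1
    simp only [add_div]
    exact this
  have h4 : (2 : ℝ) ≤ C0 + Real.pi ^ 2 / 6 := by
    have := h3.summable.le_tsum 1 (fun j _ => by
      apply div_nonneg _ (by positivity)
      have := abs_moebius_real_le j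
      rw [abs_le] at this
      linarith [this.1])
    rw [h3.tsum_eq] at this
    simp at this
    norm_num at this
    exact this
  have h5 : Real.pi ^ 2 < 12 := by
    have := Real.pi_lt_d2
    have := Real.pi_pos
    nlinarith
  linarith

noncomputable def H0 (n : ℕ) : ℝ := ∑ m ∈ Finset.Icc 1 n, (1 : ℝ) / m

theorem H0_eq (n : ℕ) : H0 n = ((harmonic n : ℚ) : ℝ) := by
  rw [H0, harmonic_eq_sum_Icc]
  push_cast
  simp

theorem log_le_H0 (y : ℝ) (hy : 0 ≤ y) : Real.log y ≤ H0 ⌊y⌋₊ := by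
  rw [H0_eq]; exact log_le_harmonic_floor y hy

theorem H0_le (y : ℝ) (hy : 1 ≤ y) : H0 ⌊y⌋₊ ≤ 1 + Real.log y := by
  rw [H0_eq]; exact harmonic_floor_le_one_add_log y hy

theorem sum_eq (N : ℕ) : ∑ n ∈ Finset.Icc 1 N, ((ArithmeticFunction.moebius n : ℤ) : ℝ) ^ 2 / n =
    ∑ d ∈ Finset.Icc 1 N, ((ArithmeticFunction.moebius d : ℤ) : ℝ) / (d : ℝ) ^ 2 * H0 (N / d ^ 2) := by
  have h1 : ∀ n ∈ Finset.Icc 1 N, ((ArithmeticFunction.moebius n : ℤ) : ℝ) ^ 2 / n =
      ∑ d ∈ Finset.Icc 1 N, if d ^ 2 ∣ n then ((ArithmeticFunction.moebius d : ℤ) : ℝ) / n else 0 := by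
    intro n hn
    rw [Finset.mem_Icc] at hn
    rw [moebius_sq_eq n (by omega), Finset.sum_div]
    have : (∑ i ∈ Finset.Icc 1 n, (if i ^ 2 ∣ n then ((ArithmeticFunction.moebius i : ℤ) : ℝ) else 0) / (n:ℝ))
      = ∑ d ∈ Finset.Icc 1 n, if d ^ 2 ∣ n then ((ArithmeticFunction.moebius d : ℤ) : ℝ) / n else 0 := by
      apply Finset.sum_congr rfl
      intro d _
      split_ifs <;> simp
    rw [this]
    apply Finset.sum_subset (Finset.Icc_subset_Icc_right hn.2)
    intro d hd hd'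
    rw [if_neg]
    intro h
    apply hd'
    rw [Finset.mem_Icc] at hd ⊢
    refine ⟨hd.1, ?_⟩
    have : d ∣ n := dvd_trans (dvd_pow_self d two_ne_zero) h
    exact Nat.le_of_dvd (by omega) this
  rw [Finset.sum_congr rfl h1, Finset.sum_comm]
  apply Finset.sum_congr rfl
  intro d hd
  rw [Finset.mem_Icc] at hd
  rw [← Finset.sum_filter]
  have hd2 : 0 < d ^ 2 := by have := hd.1; positivity
  have h2 : (Finset.Icc 1 N).filter (fun n => d ^ 2 ∣ n) =
      (Finset.Icc 1 (N / d ^ 2)).image (fun m => d ^ 2 * m) := by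
    ext n
    simp only [Finset.mem_filter, Finset.mem_Icc, Finset.mem_image]
    constructor
    · rintro ⟨⟨h1, h2⟩, m, rfl⟩
      refine ⟨m, ⟨?_, ?_⟩, rfl⟩
      · rcases Nat.eq_zero_or_pos m with h | h
        · subst h; simp at h1
        · exact h
      · rw [Nat.le_div_iff_mul_le hd2]; linarith [mul_comm m (d ^ 2)]
    · rintro ⟨m, ⟨h1, h2⟩, rfl⟩
      refine ⟨⟨Nat.mul_pos hd2 h1, ?_⟩, dvd_mul_right _ _⟩
      rw [Nat.le_div_iff_mul_le hd2] at h2
      linarith [mul_comm m (d ^ 2)]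
  rw [h2, Finset.sum_image (by
    intro x _ y _ hxy
    exact Nat.eq_of_mul_eq_mul_left hd2 hxy), H0, Finset.mul_sum]
  apply Finset.sum_congr rfl
  intro m _
  push_cast
  rw [div_mul_div_comm, mul_one]

theorem H0_diff (y : ℝ) (hy : 1 ≤ y) (d : ℕ) (hd : 1 ≤ d) :
    |H0 (⌊y⌋₊ / d ^ 2) - Real.log y| ≤ 2 * Real.log d + 1 := by
  have hd' : (1 : ℝ) ≤ d := by exact_mod_cast hd
  have hlog : 0 ≤ Real.log d := Real.log_nonneg hd'
  have hly : 0 ≤ Real.log y := Real.log_nonneg hy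
  have hfl : ⌊y⌋₊ / d ^ 2 = ⌊y / (d : ℝ) ^ 2⌋₊ := by
    have := Nat.floor_div_natCast y (d ^ 2)
    rw [← this]; push_cast; rfl
  rw [hfl]
  by_cases h : (d : ℝ) ^ 2 ≤ y
  · have h1 : 1 ≤ y / (d : ℝ) ^ 2 := by rw [one_le_div (by positivity)]; exact h
    have h2 := log_le_H0 (y / (d : ℝ) ^ 2) (by positivity)
    have h3 := H0_le _ h1
    have h4 : Real.log (y / (d : ℝ) ^ 2) = Real.log y - 2 * Real.log d := by
      rw [Real.log_div (by positivity) (by positivity), Real.log_pow]; norm_num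
    rw [h4] at h2 h3
    rw [abs_le]; constructor <;> linarith
  · have h0 : ⌊y / (d : ℝ) ^ 2⌋₊ = 0 := by
      rw [Nat.floor_eq_zero, div_lt_one (by positivity)]
      exact not_le.mp h
    rw [h0]
    have : H0 0 = 0 := by simp [H0]
    rw [this, zero_sub, abs_neg, abs_of_nonneg hly]
    have h5 : Real.log y ≤ Real.log ((d : ℝ) ^ 2) := Real.log_le_log (by positivity) (not_le.mp h).le
    rw [Real.log_pow] at h5
    push_cast at h5
    linarith

theorem summable_log_sq : Summable fun d : ℕ => (2 * Real.log d + 1) / (d : ℝ) ^ 2 := by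
  have h1 : Summable fun d : ℕ => 5 * (1 / (d : ℝ) ^ (3 / 2 : ℝ)) :=
    (Real.summable_one_div_nat_rpow.mpr (by norm_num)).mul_left 5
  apply Summable.of_norm_bounded (g := fun d : ℕ => 5 * (1 / (d : ℝ) ^ (3 / 2 : ℝ))) h1
  intro d
  rcases Nat.eq_zero_or_pos d with h | h
  · subst h; simp
  have hd' : (1 : ℝ) ≤ d := by exact_mod_cast h
  have hlog : 0 ≤ Real.log d := Real.log_nonneg hd'
  rw [Real.norm_eq_abs, abs_of_nonneg (by positivity)]
  have h2 : Real.log d ≤ (d : ℝ) ^ (1 / 2 : ℝ) / (1 / 2) := Real.log_le_rpow_div (by positivity) (by norm_num)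
  have h3 : (1 : ℝ) ≤ (d : ℝ) ^ (1 / 2 : ℝ) := Real.one_le_rpow hd' (by norm_num)
  have h4 : (d : ℝ) ^ 2 = (d : ℝ) ^ (3 / 2 : ℝ) * (d : ℝ) ^ (1 / 2 : ℝ) := by
    rw [← Real.rpow_add (by positivity), ← Real.rpow_natCast]; norm_num
  rw [h4, div_le_iff₀ (by positivity)]
  have h5 : 5 * (1 / (d : ℝ) ^ (3 / 2 : ℝ)) * ((d : ℝ) ^ (3 / 2 : ℝ) * (d : ℝ) ^ (1 / 2 : ℝ)) =
      5 * (d : ℝ) ^ (1 / 2 : ℝ) := by
    have : (d : ℝ) ^ (3 / 2 : ℝ) ≠ 0 := by positivity
    field_simp
  rw [h5]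
  linarith

theorem sqfree_sum_explicit (y : ℝ) (hy : 1 ≤ y) :
    |∑ n ∈ Finset.Icc 1 ⌊y⌋₊, ((ArithmeticFunction.moebius n : ℤ) : ℝ) ^ 2 / n - C0 * Real.log y|
      ≤ ∑' d : ℕ, (2 * Real.log d + 1) / (d : ℝ) ^ 2 := by
  rw [sum_eq]
  have h1 : HasSum (fun d : ℕ => ((ArithmeticFunction.moebius d : ℤ) : ℝ) / (d : ℝ) ^ 2 * H0 (⌊y⌋₊ / d ^ 2))
      (∑ d ∈ Finset.Icc 1 ⌊y⌋₊, ((ArithmeticFunction.moebius d : ℤ) : ℝ) / (d : ℝ) ^ 2 * H0 (⌊y⌋₊ / d ^ 2)) := by
    apply hasSum_sum_of_ne_finset_zero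
    intro d hd
    rcases Nat.eq_zero_or_pos d with h | h
    · subst h; simp
    have : ⌊y⌋₊ / d ^ 2 = 0 := by
      rw [Nat.div_eq_zero_iff]
      right
      rw [Finset.mem_Icc] at hd
      have : ⌊y⌋₊ < d := by
        by_contra hh
        exact hd ⟨h, not_lt.mp hh⟩
      calc ⌊y⌋₊ < d := this
        _ ≤ d ^ 2 := Nat.le_self_pow two_ne_zero d
    rw [this]
    simp [H0]
  have h2 : HasSum (fun d : ℕ => ((ArithmeticFunction.moebius d : ℤ) : ℝ) / (d : ℝ) ^ 2 * Real.log y)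
      (C0 * Real.log y) := summable_moebius_sq.hasSum.mul_right _
  have h3 := h1.sub h2
  rw [← h3.tsum_eq]
  have hb : ∀ d : ℕ, ‖((ArithmeticFunction.moebius d : ℤ) : ℝ) / (d : ℝ) ^ 2 * H0 (⌊y⌋₊ / d ^ 2) -
      ((ArithmeticFunction.moebius d : ℤ) : ℝ) / (d : ℝ) ^ 2 * Real.log y‖ ≤
      (2 * Real.log d + 1) / (d : ℝ) ^ 2 := by
    intro d
    rcases Nat.eq_zero_or_pos d with h | h
    · subst h; simp
    rw [← mul_sub, norm_mul, norm_div, norm_pow, Real.norm_natCast, Real.norm_eq_abs, Real.norm_eq_abs]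
    have := H0_diff y hy d h
    have h5 := abs_moebius_real_le d
    calc |((ArithmeticFunction.moebius d : ℤ) : ℝ)| / (d : ℝ) ^ 2 * |H0 (⌊y⌋₊ / d ^ 2) - Real.log y|
        ≤ 1 / (d : ℝ) ^ 2 * (2 * Real.log d + 1) := by gcongr
      _ = _ := by ring
  have := tsum_of_norm_bounded summable_log_sq.hasSum hb
  rwa [Real.norm_eq_abs] at this

theorem sqfree_sum : ∃ C0 C : ℝ, 0 < C0 ∧ 0 < C ∧ ∀ y : ℝ, 1 ≤ y →
    |∑ n ∈ Finset.Icc 1 ⌊y⌋₊, ((ArithmeticFunction.moebius n : ℤ) : ℝ) ^ 2 / n - C0 * Real.log y| ≤ C := by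
  refine ⟨C0, |∑' d : ℕ, (2 * Real.log d + 1) / (d : ℝ) ^ 2| + 1, C0_pos, by positivity, fun y hy => ?_⟩
  have := sqfree_sum_explicit y hy
  have h2 := le_abs_self (∑' d : ℕ, (2 * Real.log d + 1) / (d : ℝ) ^ 2)
  linarith

/-! ### the oscillating sum -/

theorem nn_bounds (κ T : ℝ) (hκ1 : κ < 1) (hT : 1 ≤ T) :
    1 ≤ (nn κ T) ∧ T ^ (1 - κ) / 2 ≤ (nn κ T : ℝ) ∧ (nn κ T : ℝ) ≤ T ^ (1 - κ) := by
  have h1 : 1 ≤ T ^ (1 - κ) := Real.one_le_rpow hT (by linarith)
  have h2 : 1 ≤ nn κ T := by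
    rw [nn]; exact (Nat.one_le_floor_iff _).mpr h1
  refine ⟨h2, ?_, Nat.floor_le (by linarith)⟩
  have h3 : T ^ (1 - κ) < (nn κ T : ℝ) + 1 := Nat.lt_floor_add_one _
  have h4 : (1 : ℝ) ≤ (nn κ T : ℝ) := by exact_mod_cast h2
  linarith

/-- Abel summation against `sin (a + δ log t)` -/
theorem osc_abel (Cs C1 : ℝ) (hC : ∀ y : ℝ, 1 ≤ y →
    |∑ n ∈ Finset.Icc 1 ⌊y⌋₊, ((ArithmeticFunction.moebius n : ℤ) : ℝ) ^ 2 / n - Cs * Real.log y| ≤ C1)
    (a δ : ℝ) (hδ : 0 < δ) (N : ℕ) (hN : 1 ≤ N) :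
    |∑ n ∈ Finset.Icc 1 N, ((ArithmeticFunction.moebius n : ℤ) : ℝ) ^ 2 / n * Real.sin (a + δ * Real.log n)
      - Cs * (Real.cos a - Real.cos (a + δ * Real.log N)) / δ| ≤ C1 * (1 + δ * Real.log N) := by
  have hN' : (1 : ℝ) ≤ N := by exact_mod_cast hN
  have hlN : 0 ≤ Real.log N := Real.log_nonneg hN'
  have hC1 : 0 ≤ C1 := (abs_nonneg _).trans (hC 1 le_rfl)
  set c : ℕ → ℝ := fun n => ((ArithmeticFunction.moebius n : ℤ) : ℝ) ^ 2 / n with hc
  have hc0 : c 0 = 0 := by simp [hc]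
  set f : ℝ → ℝ := fun t => Real.sin (a + δ * Real.log t) with hf
  have hIcc : ∀ m : ℕ, ∑ k ∈ Finset.Icc 0 m, c k = ∑ k ∈ Finset.Icc 1 m, c k := by
    intro m
    symm
    apply Finset.sum_subset (Finset.Icc_subset_Icc_left (by omega))
    intro x hx hx'
    simp only [Finset.mem_Icc] at hx hx'
    have : x = 0 := by omega
    subst this; exact hc0
  have hderiv : ∀ t : ℝ, 0 < t → HasDerivAt f (Real.cos (a + δ * Real.log t) * (δ * t⁻¹)) t := by
    intro t ht
    have h1 : HasDerivAt (fun t => a + δ * Real.log t) (δ * t⁻¹) t :=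
      ((Real.hasDerivAt_log ht.ne').const_mul δ).const_add a
    exact h1.sin
  have hcont : ContinuousOn (fun t : ℝ => Real.cos (a + δ * Real.log t) * (δ * t⁻¹)) (Set.Icc 1 (N : ℝ)) := by
    have h1 : ContinuousOn Real.log (Set.Icc 1 (N : ℝ)) := by
      apply Real.continuousOn_log.mono
      intro x hx; simp only [Set.mem_compl_iff, Set.mem_singleton_iff]; linarith [hx.1]
    have h2 : ContinuousOn (fun t : ℝ => t⁻¹) (Set.Icc 1 (N : ℝ)) := by
      apply continuousOn_inv₀.mono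
      intro x hx; simp only [Set.mem_compl_iff, Set.mem_singleton_iff]; linarith [hx.1]
    exact (Real.continuous_cos.comp_continuousOn (continuousOn_const.add (continuousOn_const.mul h1))).mul
      (continuousOn_const.mul h2)
  have hderiv_eq : ∀ t ∈ Set.Icc 1 (N : ℝ), deriv f t = Real.cos (a + δ * Real.log t) * (δ * t⁻¹) :=
    fun t ht => (hderiv t (by linarith [ht.1])).deriv
  have hint : IntegrableOn (deriv f) (Set.Icc 1 (N : ℝ)) := by
    apply (hcont.integrableOn_Icc).congr_fun (fun t ht => (hderiv_eq t ht).symm) measurableSet_Icc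
  have habel := sum_mul_eq_sub_integral_mul₀' c hc0 N (f := f)
    (fun t ht => (hderiv t (by linarith [ht.1])).differentiableAt) hint
  rw [hIcc] at habel
  have hlhs : ∑ k ∈ Finset.Icc 0 N, f k * c k =
      ∑ n ∈ Finset.Icc 1 N, ((ArithmeticFunction.moebius n : ℤ) : ℝ) ^ 2 / n * Real.sin (a + δ * Real.log n) := by
    symm
    rw [← Finset.sum_subset (s₁ := Finset.Icc 1 N) (s₂ := Finset.Icc 0 N) (Finset.Icc_subset_Icc_left (by omega))]
    · apply Finset.sum_congr rfl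
      intro n _
      rw [hf, hc]; ring
    · intro x hx hx'
      simp only [Finset.mem_Icc] at hx hx'
      have : x = 0 := by omega
      subst this; rw [hc0, mul_zero]
  rw [hlhs] at habel
  rw [habel]
  -- the smooth part
  have hG : ∀ t ∈ Set.uIcc 1 (N : ℝ), HasDerivAt
      (fun t => f t * Real.log t + Real.cos (a + δ * Real.log t) / δ) (deriv f t * Real.log t) t := by
    intro t ht
    rw [Set.uIcc_of_le hN'] at ht
    have ht0 : 0 < t := by linarith [ht.1]
    rw [hderiv_eq t ht]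
    have h1 : HasDerivAt (fun t => a + δ * Real.log t) (δ * t⁻¹) t :=
      ((Real.hasDerivAt_log ht0.ne').const_mul δ).const_add a
    have h2 := ((hderiv t ht0).mul (Real.hasDerivAt_log ht0.ne')).add (h1.cos.div_const δ)
    convert! h2 using 1
    rw [hf]
    field_simp
    ring
  have hGint : IntervalIntegrable (fun t => deriv f t * Real.log t) volume 1 (N : ℝ) := by
    rw [intervalIntegrable_iff_integrableOn_Icc_of_le hN']
    have h1 : ContinuousOn Real.log (Set.Icc 1 (N : ℝ)) := by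
      apply Real.continuousOn_log.mono
      intro x hx; simp only [Set.mem_compl_iff, Set.mem_singleton_iff]; linarith [hx.1]
    apply ((hcont.mul h1).integrableOn_Icc).congr_fun _ measurableSet_Icc
    intro t ht
    simp only [Pi.mul_apply]
    rw [hderiv_eq t ht]
  have hsm : ∫ t in (1 : ℝ)..N, deriv f t * Real.log t =
      f N * Real.log N + (Real.cos (a + δ * Real.log N) - Real.cos a) / δ := by
    rw [intervalIntegral.integral_eq_sub_of_hasDerivAt hG hGint]
    simp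
    ring
  rw [← intervalIntegral.integral_of_le hN']
  have hSint : IntervalIntegrable (fun t => deriv f t * ∑ k ∈ Finset.Icc 0 ⌊t⌋₊, c k) volume 1 (N : ℝ) := by
    rw [intervalIntegrable_iff_integrableOn_Icc_of_le hN']
    exact integrableOn_mul_sum_Icc c zero_le_one hint
  have hdiff : (∫ t in (1 : ℝ)..N, deriv f t * ∑ k ∈ Finset.Icc 0 ⌊t⌋₊, c k) -
      Cs * (∫ t in (1 : ℝ)..N, deriv f t * Real.log t) =
      ∫ t in (1 : ℝ)..N, deriv f t * (∑ k ∈ Finset.Icc 1 ⌊t⌋₊, c k - Cs * Real.log t) := by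
    rw [← intervalIntegral.integral_const_mul, ← intervalIntegral.integral_sub hSint (hGint.const_mul _)]
    apply intervalIntegral.integral_congr
    intro t _
    simp only [hIcc]
    ring
  have hbound : ‖∫ t in (1 : ℝ)..N, deriv f t * (∑ k ∈ Finset.Icc 1 ⌊t⌋₊, c k - Cs * Real.log t)‖ ≤
      ∫ t in (1 : ℝ)..N, C1 * δ * t⁻¹ := by
    apply intervalIntegral.norm_integral_le_of_norm_le hN'
    · filter_upwards with t ht
      have ht1 : 1 ≤ t := ht.1.le
      have ht0 : 0 < t := by linarith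
      rw [norm_mul, hderiv_eq t ⟨ht1, ht.2⟩, Real.norm_eq_abs, Real.norm_eq_abs, abs_mul,
        abs_of_nonneg (by positivity : 0 ≤ δ * t⁻¹)]
      have h1 := hC t ht1
      have h2 := Real.abs_cos_le_one (a + δ * Real.log t)
      calc |Real.cos (a + δ * Real.log t)| * (δ * t⁻¹) * |∑ k ∈ Finset.Icc 1 ⌊t⌋₊, c k - Cs * Real.log t|
          ≤ 1 * (δ * t⁻¹) * C1 := by gcongr
        _ = C1 * δ * t⁻¹ := by ring
    · apply IntervalIntegrable.const_mul
      rw [intervalIntegrable_iff_integrableOn_Icc_of_le hN']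
      apply ContinuousOn.integrableOn_Icc
      apply continuousOn_inv₀.mono
      intro x hx; simp only [Set.mem_compl_iff, Set.mem_singleton_iff]; linarith [hx.1]
  have hlogint : ∫ t in (1 : ℝ)..N, C1 * δ * t⁻¹ = C1 * δ * Real.log N := by
    rw [intervalIntegral.integral_const_mul, integral_inv_of_pos one_pos (by linarith)]
    simp
  rw [hlogint, ← hdiff, hsm, Real.norm_eq_abs] at hbound
  have hE := hC N hN'
  rw [Nat.floor_natCast] at hE
  have hE2 : |f N * (∑ n ∈ Finset.Icc 1 N, c n - Cs * Real.log N)| ≤ C1 := by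
    rw [abs_mul]
    calc |f N| * |∑ n ∈ Finset.Icc 1 N, c n - Cs * Real.log N| ≤ 1 * C1 := by
          gcongr
          exact Real.abs_sin_le_one _
      _ = C1 := one_mul _
  have hfin : f N * ∑ k ∈ Finset.Icc 1 N, c k - (∫ t in (1 : ℝ)..N, deriv f t * ∑ k ∈ Finset.Icc 0 ⌊t⌋₊, c k) -
      Cs * (Real.cos a - Real.cos (a + δ * Real.log N)) / δ =
      f N * (∑ n ∈ Finset.Icc 1 N, c n - Cs * Real.log N) -
      ((∫ t in (1 : ℝ)..N, deriv f t * ∑ k ∈ Finset.Icc 0 ⌊t⌋₊, c k) -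
        Cs * (f N * Real.log N + (Real.cos (a + δ * Real.log N) - Real.cos a) / δ)) := by
    ring
  rw [hfin]
  calc _ ≤ |f N * (∑ n ∈ Finset.Icc 1 N, c n - Cs * Real.log N)| +
      |((∫ t in (1 : ℝ)..N, deriv f t * ∑ k ∈ Finset.Icc 0 ⌊t⌋₊, c k) -
        Cs * (f N * Real.log N + (Real.cos (a + δ * Real.log N) - Real.cos a) / δ))| := abs_sub _ _
    _ ≤ C1 + C1 * δ * Real.log N := add_le_add hE2 hbound
    _ = _ := by ring

theorem cos_three_gt (c : ℝ) (hc : 1 / 2 < c) (hc1 : c < 1) :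
    Real.cos (Real.pi * c) < Real.cos (3 * (Real.pi * c)) := by
  have hpi := Real.pi_pos
  have h1 : Real.cos (3 * (Real.pi * c)) - Real.cos (Real.pi * c) =
      -2 * Real.sin (2 * (Real.pi * c)) * Real.sin (Real.pi * c) := by
    rw [Real.cos_sub_cos]
    ring_nf
  have h2 : 0 < Real.sin (Real.pi * c) := Real.sin_pos_of_pos_of_lt_pi (by positivity) (by nlinarith)
  have h3 : Real.sin (2 * (Real.pi * c)) < 0 := by
    have h4 : 0 < Real.sin (2 * (Real.pi * c) - Real.pi) :=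
      Real.sin_pos_of_pos_of_lt_pi (by nlinarith) (by nlinarith)
    rw [Real.sin_sub_pi] at h4
    linarith
  nlinarith [mul_pos_of_neg_of_neg h3 (by linarith : -Real.sin (Real.pi * c) < 0)]

theorem abs_cos_sub_cos_le (x y : ℝ) : |Real.cos x - Real.cos y| ≤ |x - y| := by
  rw [Real.cos_sub_cos]
  have h1 := Real.abs_sin_le_one ((x + y) / 2)
  have h2 : |Real.sin ((x - y) / 2)| ≤ |(x - y) / 2| := Real.abs_sin_le_abs
  rw [abs_mul, abs_mul]
  calc |(-2 : ℝ)| * |Real.sin ((x + y) / 2)| * |Real.sin ((x - y) / 2)|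
      ≤ 2 * 1 * |(x - y) / 2| := by
        rw [show |(-2 : ℝ)| = 2 by norm_num]
        gcongr
    _ = |x - y| := by rw [abs_div]; norm_num; ring

theorem osc_sum (c : ℝ) (hc : 1 / 2 < c) (hc1 : c < 1) : ∃ κ c1 T0 : ℝ, 0 < κ ∧ κ < 1 / 2 ∧ 0 < c1 ∧ 10 ≤ T0 ∧
    ∀ T : ℝ, T0 ≤ T →
    ∑ n ∈ Finset.Icc 1 (nn κ T), ((ArithmeticFunction.moebius n : ℤ) : ℝ) ^ 2 / n *
      Real.sin (Real.pi * c + dl c T * Real.log n) ≤ -c1 * Real.log T := by
  obtain ⟨Cs, C1, hCs, hC1, hC⟩ := sqfree_sum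
  set η : ℝ := Real.cos (3 * (Real.pi * c)) - Real.cos (Real.pi * c) with hη
  have hη0 : 0 < η := by rw [hη]; linarith [cos_three_gt c hc hc1]
  have hη2 : η ≤ 2 := by
    rw [hη]; linarith [Real.cos_le_one (3 * (Real.pi * c)), Real.neg_one_le_cos (Real.pi * c)]
  have hpi := Real.pi_gt_three
  have hpi4 := Real.pi_lt_four
  have hpc : 3 / 2 < Real.pi * c := by nlinarith
  have hpc4 : Real.pi * c < 4 := by nlinarith
  set κ : ℝ := η / (4 * (Real.pi * c)) with hκ
  have hκ0 : 0 < κ := by positivity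
  have hκ1 : κ < 1 / 2 := by
    rw [hκ, div_lt_iff₀ (by positivity)]
    nlinarith
  -- constants
  set B : ℝ := 8 * (Real.pi * c) * Real.log 2 / η + (1 + 2 * (Real.pi * c)) * C1 * (16 * (Real.pi * c)) / (Cs * η) with hB
  have hlog2 : 0 < Real.log 2 := Real.log_pos one_lt_two
  refine ⟨κ, Cs * η / (16 * (Real.pi * c)), Real.exp B + 10, hκ0, hκ1, by positivity, by
    linarith [Real.exp_pos B], fun T hT => ?_⟩
  have hT10 : 10 ≤ T := by linarith [Real.exp_pos B]
  have hT0 : 0 < T := by linarith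
  have hTB : B ≤ Real.log T := by
    rw [Real.le_log_iff_exp_le hT0]; linarith
  have hLT : 0 < Real.log T := Real.log_pos (by linarith)
  have hB1 : 8 * (Real.pi * c) * Real.log 2 / η ≤ Real.log T := by
    refine le_trans ?_ hTB
    rw [hB]
    have : 0 ≤ (1 + 2 * (Real.pi * c)) * C1 * (16 * (Real.pi * c)) / (Cs * η) := by positivity
    linarith
  have hB2 : (1 + 2 * (Real.pi * c)) * C1 * (16 * (Real.pi * c)) / (Cs * η) ≤ Real.log T := by
    refine le_trans ?_ hTB
    rw [hB]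
    have : 0 ≤ 8 * (Real.pi * c) * Real.log 2 / η := by positivity
    linarith
  obtain ⟨hN1, hN2, hN3⟩ := nn_bounds κ T (by linarith) (by linarith)
  set N := nn κ T with hN
  have hN1' : (1 : ℝ) ≤ N := by exact_mod_cast hN1
  have hlogN3 : Real.log N ≤ (1 - κ) * Real.log T := by
    rw [← Real.log_rpow hT0]
    exact Real.log_le_log (by linarith) hN3
  have hlogN2 : (1 - κ) * Real.log T - Real.log 2 ≤ Real.log N := by
    rw [← Real.log_rpow hT0, ← Real.log_div (by positivity) (by norm_num)]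
    exact Real.log_le_log (by positivity) hN2
  have hδ : 0 < dl c T := by rw [dl]; positivity
  have hab := osc_abel Cs C1 hC (Real.pi * c) (dl c T) hδ N hN1
  have hlN0 : 0 ≤ Real.log N := Real.log_nonneg hN1'
  have hδL : dl c T * Real.log T = 2 * (Real.pi * c) := by
    rw [dl]; field_simp
  have hδN : dl c T * Real.log N ≤ 2 * (Real.pi * c) := by
    rw [← hδL]
    apply mul_le_mul_of_nonneg_left _ hδ.le
    nlinarith
  -- phase
  have hph : |Real.pi * c + dl c T * Real.log N - 3 * (Real.pi * c)| ≤ 3 * η / 4 := by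
    have h1 : dl c T * Real.log N ≤ dl c T * ((1 - κ) * Real.log T) :=
      mul_le_mul_of_nonneg_left hlogN3 hδ.le
    have h2 : dl c T * ((1 - κ) * Real.log T - Real.log 2) ≤ dl c T * Real.log N :=
      mul_le_mul_of_nonneg_left hlogN2 hδ.le
    have h3 : dl c T * ((1 - κ) * Real.log T) = 2 * (Real.pi * c) * (1 - κ) := by
      rw [← hδL]; ring
    have h4 : 2 * (Real.pi * c) * κ = η / 2 := by
      rw [hκ]; field_simp; ring
    have h5 : dl c T * Real.log 2 ≤ η / 4 := by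
      have : dl c T = 2 * (Real.pi * c) / Real.log T := by rw [dl]; ring
      rw [this, div_mul_eq_mul_div, div_le_iff₀ hLT]
      rw [div_le_iff₀ hη0] at hB1
      linarith
    rw [abs_le]
    constructor <;> nlinarith
  have hcos := abs_cos_sub_cos_le (Real.pi * c + dl c T * Real.log N) (3 * (Real.pi * c))
  have hcos2 : Real.cos (Real.pi * c) - Real.cos (Real.pi * c + dl c T * Real.log N) ≤ -(η / 4) := by
    have := (abs_le.mp (hcos.trans hph)).1
    rw [hη] at this ⊢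
    linarith
  have hmain : Cs * (Real.cos (Real.pi * c) - Real.cos (Real.pi * c + dl c T * Real.log N)) / dl c T ≤
      -(Cs * η / (8 * (Real.pi * c)) * Real.log T) := by
    have h1 : Cs * (Real.cos (Real.pi * c) - Real.cos (Real.pi * c + dl c T * Real.log N)) ≤ Cs * (-(η / 4)) :=
      mul_le_mul_of_nonneg_left hcos2 hCs.le
    have h2 : -(Cs * η / (8 * (Real.pi * c)) * Real.log T) = Cs * (-(η / 4)) / dl c T := by
      rw [dl]; field_simp; ring
    rw [h2]
    exact div_le_div_of_nonneg_right h1 hδ.le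
  have herr : C1 * (1 + dl c T * Real.log N) ≤ Cs * η / (16 * (Real.pi * c)) * Real.log T := by
    have h1 : C1 * (1 + dl c T * Real.log N) ≤ C1 * (1 + 2 * (Real.pi * c)) := by gcongr
    refine h1.trans ?_
    rw [div_le_iff₀ (by positivity)] at hB2
    rw [div_mul_eq_mul_div, le_div_iff₀ (by positivity)]
    linarith
  have hfinal := (abs_le.mp hab).2
  have e1 : Cs * η / (8 * (Real.pi * c)) * Real.log T = 2 * (Cs * η / (16 * (Real.pi * c)) * Real.log T) := by
    field_simp; ring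
  rw [e1] at hmain
  linarith

end SG
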