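import Pool.Agent.H370R2.Digamma

open Complex Filter Topology Set

namespace SG

namespace Dig

open H370.DG

/-- total of the error series -/
noncomputable def Z2 : ℝ := ∑' n : ℕ, 1 / ((n : ℝ) + 1) ^ 2

lemma Z2_nonneg : 0 ≤ Z2 := tsum_nonneg fun n => by positivity

/-- the case of positive real part -/
lemma dig_pos (s : ℂ) (hs : 0 < s.re) (h1 : 1 ≤ |s.im|) (h2 : s.re ≤ |s.im|) :
    ‖logDeriv Complex.Gamma s - Real.log |s.im|‖ ≤ Real.log 4 + Real.pi + 2 + Z2 := by
  have hpos : 0 < |s.im| := by linarith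
  have hn1 : 1 ≤ ‖s‖ := h1.trans (abs_im_le_norm s)
  have hn2 : 1 ≤ ‖s + 1‖ := by
    refine le_trans ?_ (abs_im_le_norm (s + 1))
    simpa using h1
  have hn3 : |s.im| ≤ ‖s + 2‖ := by
    refine le_trans ?_ (abs_im_le_norm (s + 2))
    simp
  have hn4 : ‖s + 2‖ ≤ 4 * |s.im| := by
    refine (norm_le_abs_re_add_abs_im (s + 2)).trans ?_
    simp only [add_re, re_ofNat, add_im, im_ofNat, add_zero]
    rw [abs_of_nonneg (by linarith)]
    linarith
  have b1 : ‖1 / s‖ ≤ 1 := by
    rw [norm_div, norm_one, div_le_iff₀ (by linarith)]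
    linarith
  have b2 : ‖1 / (s + 1)‖ ≤ 1 := by
    rw [norm_div, norm_one, div_le_iff₀ (by linarith)]
    linarith
  have b3 : ‖log (s + 2) - Real.log |s.im|‖ ≤ Real.log 4 + Real.pi := by
    have e : log (s + 2) - Real.log |s.im| =
        ((Real.log (‖s + 2‖ / |s.im|) : ℝ) : ℂ) + (arg (s + 2) : ℂ) * I := by
      rw [Real.log_div (by linarith) hpos.ne']
      rw [log]
      push_cast
      ring
    rw [e]
    refine (norm_add_le _ _).trans (add_le_add ?_ ?_)
    · rw [Complex.norm_real, Real.norm_eq_abs, abs_of_nonneg]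
      · apply Real.log_le_log (div_pos (by linarith) hpos)
        rw [div_le_iff₀ hpos]
        linarith
      · apply Real.log_nonneg
        rw [le_div_iff₀ hpos]
        linarith
    · rw [norm_mul, norm_I, mul_one, Complex.norm_real, Real.norm_eq_abs]
      exact abs_arg_le_pi _
  have e : logDeriv Complex.Gamma s - Real.log |s.im| =
      (log (s + 2) - Real.log |s.im|) - 1 / s - 1 / (s + 1) + ∑' n, er n s := by
    rw [logDeriv_Gamma' hs]
    ring
  rw [e]
  calc _ ≤ ‖(log (s + 2) - Real.log |s.im|) - 1 / s - 1 / (s + 1)‖ + ‖∑' n, er n s‖ :=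
        norm_add_le _ _
    _ ≤ (‖(log (s + 2) - Real.log |s.im|) - 1 / s‖ + ‖1 / (s + 1)‖) + ‖∑' n, er n s‖ := by
        gcongr
        exact norm_sub_le _ _
    _ ≤ ((‖(log (s + 2) - Real.log |s.im|)‖ + ‖1 / s‖) + ‖1 / (s + 1)‖) + ‖∑' n, er n s‖ := by
        gcongr
        exact norm_sub_le _ _
    _ ≤ ((Real.log 4 + Real.pi + 1) + 1) + Z2 := by
        gcongr
        exact norm_tsum_er hs
    _ = _ := by ring

/-- iterated recurrence -/
lemma dig_rec (s : ℂ) (h1 : 1 ≤ |s.im|) (k : ℕ) :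
    logDeriv Complex.Gamma (s + k) = logDeriv Complex.Gamma s +
      ∑ j ∈ Finset.range k, (s + j)⁻¹ := by
  induction k with
  | zero => simp
  | succ k ih =>
    have hne : ∀ m : ℕ, s + (k : ℂ) ≠ - m := by
      intro m h
      have := congrArg im h
      simp only [add_im, natCast_im, add_zero, neg_im, neg_zero] at this
      rw [this, abs_zero] at h1
      linarith
    have h2 := Complex.digamma_apply_add_one (s + k) hne
    rw [Complex.digamma_def] at h2
    rw [Finset.sum_range_succ, ← add_assoc, ← ih, ← h2]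
    push_cast
    rw [add_assoc]

lemma sum_inv_le (s : ℂ) (h1 : 1 ≤ |s.im|) (k : ℕ) :
    ‖∑ j ∈ Finset.range k, (s + j)⁻¹‖ ≤ k / |s.im| := by
  refine (norm_sum_le _ _).trans ?_
  have : ∀ j ∈ Finset.range k, ‖(s + (j : ℂ))⁻¹‖ ≤ 1 / |s.im| := by
    intro j _
    rw [norm_inv, ← one_div]
    apply one_div_le_one_div_of_le (by linarith)
    refine le_trans ?_ (abs_im_le_norm _)
    simp
  refine (Finset.sum_le_sum this).trans ?_
  rw [Finset.sum_const, Finset.card_range, nsmul_eq_mul]
  exact le_of_eq (by ring)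

end Dig

open Dig

theorem digamma_bound : ∃ C : ℝ, 1 ≤ C ∧ ∀ s : ℂ, 1 ≤ |s.im| → |s.re| ≤ |s.im| →
    ‖logDeriv Complex.Gamma s - Real.log |s.im|‖ ≤ C := by
  have hlog4 : 0 ≤ Real.log 4 := Real.log_nonneg (by norm_num)
  have hZ := Z2_nonneg
  have hpi := Real.pi_pos
  refine ⟨Real.log 4 + Real.pi + 2 + Z2 + 2, by linarith, ?_⟩
  intro s h1 h2
  rcases lt_or_ge 0 s.re with hs | hs
  · refine (dig_pos s hs h1 ((le_abs_self _).trans h2)).trans (by linarith)
  · have habs : |s.re| = -s.re := abs_of_nonpos hs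
    set k : ℕ := ⌊-s.re⌋₊ + 1 with hk
    have hk1 : (k : ℝ) ≤ -s.re + 1 := by
      rw [hk]
      push_cast
      have := Nat.floor_le (show 0 ≤ -s.re by linarith)
      linarith
    have hk2 : -s.re < (k : ℝ) := by
      rw [hk]
      push_cast
      exact Nat.lt_floor_add_one _
    have him : (s + (k : ℂ)).im = s.im := by simp
    have hre : (s + (k : ℂ)).re = s.re + k := by simp
    have h3 := dig_pos (s + k) (by rw [hre]; linarith) (by rw [him]; exact h1)
      (by rw [hre, him]; linarith)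
    rw [him] at h3
    have h4 := dig_rec s h1 k
    have h5 := sum_inv_le s h1 k
    have h6 : (k : ℝ) / |s.im| ≤ 2 := by
      rw [div_le_iff₀ (by linarith)]
      linarith
    have e : logDeriv Complex.Gamma s - Real.log |s.im| =
        (logDeriv Complex.Gamma (s + k) - Real.log |s.im|) -
          ∑ j ∈ Finset.range k, (s + j)⁻¹ := by
      rw [h4]
      ring
    rw [e]
    refine (norm_sub_le _ _).trans ?_
    linarith

end SG
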