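import Pool.Agent.H382R2.Defs
import Pool.Agent.H382R2.Digamma

open Complex Filter Topology Set MeasureTheory

namespace SG

namespace GamAux

/-- Grönwall in the form we need. -/
lemma gron (f f' : ℝ → ℂ) (K : ℝ) (hK : 0 < K)
    (hf : ∀ x ∈ Icc (0 : ℝ) 1, HasDerivAt f (f' x) x)
    (hb : ∀ x ∈ Icc (0 : ℝ) 1, ‖f' x‖ ≤ K * ‖f x‖) :
    ‖f 1‖ ≤ Real.exp K * ‖f 0‖ ∧ ‖f 1 - f 0‖ ≤ (Real.exp K - 1) * ‖f 0‖ := by
  have hc : ContinuousOn f (Icc 0 1) := fun x hx => (hf x hx).continuousAt.continuousWithinAt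
  have h1 : ∀ x ∈ Icc (0 : ℝ) 1, ‖f x‖ ≤ gronwallBound ‖f 0‖ K 0 (x - 0) := by
    apply norm_le_gronwallBound_of_norm_deriv_right_le hc
      (fun x hx => (hf x ⟨hx.1, hx.2.le⟩).hasDerivWithinAt) le_rfl
    intro x hx
    simpa using hb x ⟨hx.1, hx.2.le⟩
  have hc2 : ContinuousOn (fun x => f x - f 0) (Icc 0 1) := hc.sub continuousOn_const
  have h2 : ∀ x ∈ Icc (0 : ℝ) 1, ‖f x - f 0‖ ≤ gronwallBound 0 K (K * ‖f 0‖) (x - 0) := by
    apply norm_le_gronwallBound_of_norm_deriv_right_le (f' := f') hc2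
      (fun x hx => ((hf x ⟨hx.1, hx.2.le⟩).sub_const (f 0)).hasDerivWithinAt) (by simp)
    intro x hx
    refine (hb x ⟨hx.1, hx.2.le⟩).trans ?_
    have : ‖f x‖ ≤ ‖f x - f 0‖ + ‖f 0‖ := by
      calc ‖f x‖ = ‖(f x - f 0) + f 0‖ := by ring_nf
        _ ≤ _ := norm_add_le _ _
    nlinarith
  constructor
  · have := h1 1 ⟨zero_le_one, le_rfl⟩
    rw [gronwallBound_of_K_ne_0 hK.ne'] at this
    simp at this
    linarith
  · have := h2 1 ⟨zero_le_one, le_rfl⟩
    rw [gronwallBound_of_K_ne_0 hK.ne'] at this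
    have e : K * ‖f 0‖ / K = ‖f 0‖ := by field_simp
    simp [e] at this
    linarith

lemma GR_ne {s : ℂ} (hs : s.im ≠ 0) : Gammaℝ s ≠ 0 := by
  intro h
  rw [Gammaℝ_eq_zero_iff] at h
  obtain ⟨n, hn⟩ := h
  apply hs
  rw [hn]
  simp

lemma GR_analytic {s : ℂ} (hs : s.im ≠ 0) : AnalyticAt ℂ Gammaℝ s := by
  have h1 : AnalyticAt ℂ (fun s ↦ (Gammaℝ s)⁻¹) s :=
    differentiable_Gammaℝ_inv.analyticAt s
  have h2 := h1.inv (by simpa using inv_ne_zero (GR_ne hs))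
  have e : (fun s ↦ (Gammaℝ s)⁻¹)⁻¹ = Gammaℝ := by
    funext z
    simp
  rwa [e] at h2

lemma half_ne {s : ℂ} (hs : s.im ≠ 0) (m : ℕ) : s / 2 ≠ -m := by
  intro h
  apply hs
  have h2 : s = -(m : ℂ) * 2 := by
    rw [← h]; ring
  rw [h2]
  simp

lemma GR_deriv {s : ℂ} (hs : s.im ≠ 0) :
    HasDerivAt Gammaℝ (Gammaℝ s * (-(Real.log Real.pi / 2 : ℝ) + logDeriv Complex.Gamma (s / 2) / 2)) s := by
  have hG : HasDerivAt Complex.Gamma (deriv Complex.Gamma (s / 2)) (s / 2) :=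
    (differentiableAt_Gamma _ (half_ne hs)).hasDerivAt
  have hne : Complex.Gamma (s / 2) ≠ 0 := Gamma_ne_zero (half_ne hs)
  have h1 : HasDerivAt (fun z : ℂ => Complex.Gamma (z / 2)) (deriv Complex.Gamma (s / 2) * (1 / 2)) s :=
    HasDerivAt.comp s hG ((hasDerivAt_id s).div_const 2)
  have h2 : HasDerivAt (fun z : ℂ => (Real.pi : ℂ) ^ (-z / 2))
      ((Real.pi : ℂ) ^ (-s / 2) * Complex.log Real.pi * (-1 / 2)) s := by
    have : HasDerivAt (fun z : ℂ => -z / 2) (-1 / 2) s := ((hasDerivAt_id s).neg).div_const 2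
    exact this.const_cpow (Or.inl (by exact_mod_cast Real.pi_ne_zero))
  have h3 := h2.mul h1
  have e : (fun z : ℂ => (Real.pi : ℂ) ^ (-z / 2)) * (fun z : ℂ => Complex.Gamma (z / 2)) = Gammaℝ := by
    funext z
    simp [Gammaℝ_def]
  have e' : (Real.pi : ℂ) ^ (-s / 2) * Complex.log Real.pi * (-1 / 2) * Complex.Gamma (s / 2) +
      (Real.pi : ℂ) ^ (-s / 2) * (deriv Complex.Gamma (s / 2) * (1 / 2)) =
      Gammaℝ s * (-(Real.log Real.pi / 2 : ℝ) + logDeriv Complex.Gamma (s / 2) / 2) := by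
    rw [Gammaℝ_def, logDeriv_apply, ← Complex.ofReal_log Real.pi_pos.le]
    push_cast
    field_simp
  rw [← e', ← e]
  exact h3

/-- the basic constant -/
lemma ld_bound : ∃ C : ℝ, 1 ≤ C ∧ ∀ s : ℂ, 2 ≤ |s.im| → |s.re| ≤ |s.im| →
    ‖(-(Real.log Real.pi / 2 : ℝ) + logDeriv Complex.Gamma (s / 2) / 2 : ℂ) -
      (Real.log |s.im| / 2 : ℝ)‖ ≤ C := by
  obtain ⟨C, hC, h⟩ := digamma_bound
  refine ⟨Real.log Real.pi / 2 + C / 2 + Real.log 2 / 2 + 1, ?_, ?_⟩
  · have h1 : 0 ≤ Real.log Real.pi := Real.log_nonneg (by linarith [Real.pi_gt_three])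
    have h2 : 0 ≤ Real.log 2 := Real.log_nonneg (by norm_num)
    linarith
  intro s h2 h3
  have him : (s / 2).im = s.im / 2 := by simp
  have hre : (s / 2).re = s.re / 2 := by simp
  have h4 := h (s / 2) (by rw [him, abs_div, abs_two]; linarith)
    (by rw [him, hre, abs_div, abs_div, abs_two]; linarith)
  rw [him, abs_div, abs_two, Real.log_div (by linarith) two_ne_zero] at h4
  have e : (-(Real.log Real.pi / 2 : ℝ) + logDeriv Complex.Gamma (s / 2) / 2 : ℂ) -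
      (Real.log |s.im| / 2 : ℝ) = (logDeriv Complex.Gamma (s / 2) -
        ((Real.log |s.im| - Real.log 2 : ℝ) : ℂ)) / 2 - ((Real.log Real.pi / 2 + Real.log 2 / 2 : ℝ) : ℂ) := by
    push_cast; ring
  have h1 : 0 ≤ Real.log Real.pi := Real.log_nonneg (by linarith [Real.pi_gt_three])
  have h2 : 0 ≤ Real.log 2 := Real.log_nonneg (by norm_num)
  have e5 : ‖((Real.log Real.pi / 2 + Real.log 2 / 2 : ℝ) : ℂ)‖ = Real.log Real.pi / 2 + Real.log 2 / 2 := by
    rw [Complex.norm_real, Real.norm_eq_abs]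
    exact abs_of_nonneg (by linarith)
  rw [e]
  refine (norm_sub_le _ _).trans ?_
  rw [e5, norm_div]
  have : ‖(2 : ℂ)‖ = 2 := by simp
  rw [this]
  linarith

/-- Comparison of `Gammaℝ z` and `Gammaℝ (z + d)`: with `|d| ≤ 3`, all heights comparable to `T`. -/
lemma main : ∃ C : ℝ, 1 ≤ C ∧ ∀ (z d : ℂ) (T : ℝ), 2 ≤ T → d ≠ 0 →
    (∀ x ∈ Icc (0 : ℝ) 1, T / 2 ≤ |(z + x * d).im| ∧ |(z + x * d).im| ≤ 4 * T ∧ 2 ≤ |(z + x * d).im| ∧
      |(z + x * d).re| ≤ |(z + x * d).im|) →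
    ‖Gammaℝ (z + d) * cexp (-(d * (Real.log T / 2 : ℝ)))‖ ≤ Real.exp (C * ‖d‖) * ‖Gammaℝ z‖ ∧
    ‖Gammaℝ (z + d) * cexp (-(d * (Real.log T / 2 : ℝ))) - Gammaℝ z‖ ≤
      (Real.exp (C * ‖d‖) - 1) * ‖Gammaℝ z‖ := by
  obtain ⟨C, hC, h⟩ := ld_bound
  refine ⟨C + Real.log 4, by linarith [Real.log_nonneg (show (1 : ℝ) ≤ 4 by norm_num)], ?_⟩
  intro z d T hT hd hx
  set L : ℝ := Real.log T / 2 with hL
  have hl4 : 0 < Real.log 4 := Real.log_pos (by norm_num)
  have hK : 0 < (C + Real.log 4) * ‖d‖ := mul_pos (by linarith) (norm_pos_iff.mpr hd)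
  have key := gron (fun x : ℝ => Gammaℝ (z + x * d) * cexp (-(x * d * L)))
    (fun x : ℝ => Gammaℝ (z + x * d) * cexp (-(x * d * L)) *
      (((-(Real.log Real.pi / 2 : ℝ) + logDeriv Complex.Gamma ((z + x * d) / 2) / 2) - L) * d))
    ((C + Real.log 4) * ‖d‖) hK ?_ ?_
  · simpa using key
  · intro x hx'
    obtain ⟨_, _, h3, _⟩ := hx x hx'
    have him : (z + x * d).im ≠ 0 := by
      intro h0
      rw [h0] at h3
      norm_num at h3
    have hlin : HasDerivAt (fun x : ℝ => z + x * d) d x := by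
      have h0 : HasDerivAt (fun x : ℝ => (x : ℂ)) 1 x := Complex.ofRealCLM.hasDerivAt
      simpa using (h0.mul_const d).const_add z
    have h1 : HasDerivAt (fun x : ℝ => Gammaℝ (z + x * d))
        (Gammaℝ (z + x * d) * (-(Real.log Real.pi / 2 : ℝ) +
          logDeriv Complex.Gamma ((z + x * d) / 2) / 2) * d) x :=
      HasDerivAt.comp x (GR_deriv him) hlin
    have h2 : HasDerivAt (fun x : ℝ => cexp (-(x * d * L))) (cexp (-(x * d * L)) * (-(d * L))) x := by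
      have h0 : HasDerivAt (fun x : ℝ => (x : ℂ)) 1 x := Complex.ofRealCLM.hasDerivAt
      have h0' : HasDerivAt (fun x : ℝ => -((x : ℂ) * d * L)) (-(1 * d * L)) x :=
        ((h0.mul_const d).mul_const (L : ℂ)).fun_neg
      rw [one_mul] at h0'
      exact h0'.cexp
    have h3 := h1.mul h2
    refine h3.congr_deriv ?_
    ring
  · intro x hx'
    obtain ⟨h1, h2, h3, h4⟩ := hx x hx'
    have hb := h (z + x * d) h3 h4
    have hpos : 0 < |(z + x * d).im| := by linarith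
    have hdiff : |Real.log |(z + x * d).im| - Real.log T| ≤ Real.log 4 := by
      rw [abs_le]
      constructor
      · have : Real.log T ≤ Real.log (4 * |(z + x * d).im|) :=
          Real.log_le_log (by linarith) (by linarith)
        rw [Real.log_mul (by norm_num) hpos.ne'] at this
        linarith
      · have : Real.log |(z + x * d).im| ≤ Real.log (4 * T) :=
          Real.log_le_log hpos h2
        rw [Real.log_mul (by norm_num) (by linarith)] at this
        linarith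
    have hb2 : ‖(-(Real.log Real.pi / 2 : ℝ) + logDeriv Complex.Gamma ((z + x * d) / 2) / 2 : ℂ) - L‖
        ≤ C + Real.log 4 := by
      have e : (-(Real.log Real.pi / 2 : ℝ) + logDeriv Complex.Gamma ((z + x * d) / 2) / 2 : ℂ) - L =
        ((-(Real.log Real.pi / 2 : ℝ) + logDeriv Complex.Gamma ((z + x * d) / 2) / 2 : ℂ) -
          (Real.log |(z + x * d).im| / 2 : ℝ)) +
          (((Real.log |(z + x * d).im| - Real.log T) / 2 : ℝ) : ℂ) := by
        rw [hL]; push_cast; ring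
      rw [e]
      refine (norm_add_le _ _).trans ?_
      rw [Complex.norm_real, Real.norm_eq_abs, abs_div, abs_two]
      linarith
    rw [norm_mul, norm_mul (_ - _) d]
    have : ‖(-(Real.log Real.pi / 2 : ℝ) + logDeriv Complex.Gamma ((z + x * d) / 2) / 2 : ℂ) - L‖ * ‖d‖
        ≤ (C + Real.log 4) * ‖d‖ := by gcongr
    rw [mul_comm]
    gcongr

/-- imaginary shifts -/
lemma shift : ∃ C : ℝ, 1 ≤ C ∧ ∀ (s : ℂ) (u T : ℝ), 2 ≤ T → T / 2 + 1 ≤ |s.im| → |s.im| ≤ 4 * T - 1 →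
    3 ≤ |s.im| → |s.re| ≤ |s.im| - 1 → |u| ≤ 1 →
    Gammaℝ (s + I * u) ≠ 0 ∧
    ‖Gammaℝ s / Gammaℝ (s + I * u)‖ ≤ Real.exp (C * |u|) ∧
    ‖Gammaℝ s / Gammaℝ (s + I * u) * cexp (I * u * (Real.log T / 2 : ℝ)) - 1‖ ≤
      Real.exp (C * |u|) - 1 := by
  obtain ⟨C, hC, h⟩ := main
  refine ⟨C, hC, ?_⟩
  intro s u T hT h1 h2 h3 h4 hu
  have hne : Gammaℝ (s + I * u) ≠ 0 := by
    apply GR_ne
    have : (s + I * u).im = s.im + u := by simp
    rw [this]
    intro h0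
    have h5 : s.im = -u := by linarith
    rw [h5, abs_neg] at h3
    linarith
  refine ⟨hne, ?_⟩
  rcases eq_or_ne u 0 with rfl | hu0
  · simp at hne
    simp [hne]
  have hd : -(I * (u : ℂ)) ≠ 0 := by simpa using hu0
  have key := h (s + I * u) (-(I * u)) T hT hd ?_
  · have e1 : ‖-(I * (u : ℂ))‖ = |u| := by simp
    have e2 : s + I * u + -(I * u) = s := by ring
    rw [e1, e2] at key
    obtain ⟨k1, k2⟩ := key
    have hn : 0 < ‖Gammaℝ (s + I * u)‖ := norm_pos_iff.mpr hne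
    constructor
    · rw [norm_div, div_le_iff₀ hn]
      refine le_trans (le_of_eq ?_) k1
      rw [norm_mul]
      have : ‖cexp (-(-(I * ↑u) * ↑(Real.log T / 2)))‖ = 1 := by
        rw [Complex.norm_exp]
        simp
      rw [this, mul_one]
    · have e3 : Gammaℝ s / Gammaℝ (s + I * u) * cexp (I * u * (Real.log T / 2 : ℝ)) - 1 =
        (Gammaℝ s * cexp (-(-(I * ↑u) * ↑(Real.log T / 2))) - Gammaℝ (s + I * ↑u)) /
          Gammaℝ (s + I * u) := by
        field_simp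
      rw [e3, norm_div, div_le_iff₀ hn]
      exact k2
  · intro x hx
    have him : (s + I * ↑u + ↑x * -(I * ↑u)).im = s.im + u * (1 - x) := by
      simp; ring
    have hre : (s + I * ↑u + ↑x * -(I * ↑u)).re = s.re := by simp
    rw [him, hre]
    have hb : |u * (1 - x)| ≤ 1 := by
      rw [abs_mul]
      have : |1 - x| ≤ 1 := by
        rw [abs_le]
        constructor <;> linarith [hx.1, hx.2]
      calc |u| * |1 - x| ≤ 1 * 1 := by gcongr
        _ = 1 := by norm_num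
    have hb1 : |s.im| - 1 ≤ |s.im + u * (1 - x)| := by
      have := abs_sub_abs_le_abs_sub (s.im) (-(u * (1 - x)))
      rw [sub_neg_eq_add, abs_neg] at this
      linarith
    have hb2 : |s.im + u * (1 - x)| ≤ |s.im| + 1 := by
      have := abs_add_le (s.im) (u * (1 - x))
      linarith
    refine ⟨by linarith, by linarith, by linarith, by linarith⟩

lemma GR_conj (s : ℂ) : Gammaℝ ((starRingEnd ℂ) s) = (starRingEnd ℂ) (Gammaℝ s) := by
  have e1 : (starRingEnd ℂ) (s / 2) = (starRingEnd ℂ) s / 2 := by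
    rw [map_div₀]
    congr 1
    exact Complex.conj_ofNat 2
  have e2 : (starRingEnd ℂ) (-s / 2) = -(starRingEnd ℂ) s / 2 := by
    rw [map_div₀, map_neg]
    congr 1
    exact Complex.conj_ofNat 2
  have e3 : (Real.pi : ℂ) ^ (-(starRingEnd ℂ) s / 2) = (starRingEnd ℂ) ((Real.pi : ℂ) ^ (-s / 2)) := by
    rw [← e2, cpow_conj _ _ ?_]
    · simp
    · rw [Complex.arg_ofReal_of_nonneg Real.pi_pos.le]
      exact Real.pi_pos.ne
  rw [Gammaℝ_def, Gammaℝ_def, map_mul, ← Complex.Gamma_conj, e1, e3]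

/-- reflection -/
lemma reflect : ∃ C : ℝ, 1 ≤ C ∧ ∀ s : ℂ, 10 ≤ |s.im| → 1 / 2 ≤ s.re → s.re ≤ 5 / 2 →
    ‖Gammaℝ (1 - s) / Gammaℝ s‖ ≤ C := by
  obtain ⟨C, hC, h⟩ := main
  refine ⟨Real.exp (4 * C), ?_, ?_⟩
  · exact Real.one_le_exp (by linarith)
  intro s h1 h2 h3
  have hne : Gammaℝ s ≠ 0 := by
    apply GR_ne
    intro h0
    rw [h0] at h1
    norm_num at h1
  have hn : 0 < ‖Gammaℝ s‖ := norm_pos_iff.mpr hne
  rw [norm_div, div_le_iff₀ hn]
  set d : ℝ := s.re - 1 / 2 with hd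
  set w : ℂ := ⟨1 / 2, s.im⟩ with hw
  have hsw : s = w + d := by
    apply Complex.ext <;> simp [hw, hd]
  have hsw' : 1 - s = (starRingEnd ℂ) w - d := by
    apply Complex.ext
    · simp [hw, hd]; ring
    · simp [hw]
  have hcw : ‖Gammaℝ ((starRingEnd ℂ) w)‖ = ‖Gammaℝ w‖ := by
    rw [GR_conj]; simp
  set T := |s.im| with hT
  have hlT : 0 ≤ Real.log T := Real.log_nonneg (by linarith)
  rcases eq_or_lt_of_le (show (0 : ℝ) ≤ d by linarith) with h0 | h0
  · have h5 : (1 : ℂ) - s = (starRingEnd ℂ) w := by rw [hsw', ← h0]; simp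
    have h6 : s = w := by rw [hsw, ← h0]; simp
    rw [h5, hcw, ← h6]
    have : 1 ≤ Real.exp (4 * C) := Real.one_le_exp (by linarith)
    nlinarith
  · have hdC : (d : ℂ) ≠ 0 := by exact_mod_cast h0.ne'
    have hd2 : d ≤ 2 := by rw [hd]; linarith
    -- from `s` to `w`
    have k1 := (h s (-(d : ℂ)) T (by linarith) (by simpa using hdC) ?_).1
    · have k2 := (h ((starRingEnd ℂ) w) (-(d : ℂ)) T (by linarith) (by simpa using hdC) ?_).1
      · have e1 : s + -(d : ℂ) = w := by rw [hsw]; ring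
        have e2 : (starRingEnd ℂ) w + -(d : ℂ) = 1 - s := by rw [hsw']; ring
        have e3 : ‖-(d : ℂ)‖ = d := by simp [abs_of_pos h0]
        have e4 : ‖cexp (-(-(d : ℂ) * ↑(Real.log T / 2)))‖ = Real.exp (d * (Real.log T / 2)) := by
          rw [Complex.norm_exp]
          congr 1
          simp
        rw [e1, e3, norm_mul, e4] at k1
        rw [e2, e3, norm_mul, e4, hcw] at k2
        have h7 : 1 ≤ Real.exp (d * (Real.log T / 2)) := Real.one_le_exp (by positivity)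
        have h8 : Real.exp (C * d) ≤ Real.exp (2 * C) := by
          apply Real.exp_le_exp.mpr
          nlinarith
        have k1' : ‖Gammaℝ w‖ ≤ Real.exp (2 * C) * ‖Gammaℝ s‖ := by
          calc ‖Gammaℝ w‖ ≤ ‖Gammaℝ w‖ * Real.exp (d * (Real.log T / 2)) :=
                le_mul_of_one_le_right (norm_nonneg _) h7
            _ ≤ Real.exp (C * d) * ‖Gammaℝ s‖ := k1
            _ ≤ _ := by gcongr
        calc ‖Gammaℝ (1 - s)‖ ≤ ‖Gammaℝ (1 - s)‖ * Real.exp (d * (Real.log T / 2)) :=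
                le_mul_of_one_le_right (norm_nonneg _) h7
          _ ≤ Real.exp (C * d) * ‖Gammaℝ w‖ := k2
          _ ≤ Real.exp (2 * C) * (Real.exp (2 * C) * ‖Gammaℝ s‖) := by gcongr
          _ = Real.exp (4 * C) * ‖Gammaℝ s‖ := by
            rw [← mul_assoc, ← Real.exp_add]
            ring_nf
      · intro x hx
        have him : ((starRingEnd ℂ) w + ↑x * -(d : ℂ)).im = -s.im := by simp [hw]
        have hre : ((starRingEnd ℂ) w + ↑x * -(d : ℂ)).re = 1 / 2 - x * d := by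
          simp [hw]; ring
        rw [him, hre, abs_neg, ← hT]
        refine ⟨by linarith, by linarith, by linarith, ?_⟩
        rw [abs_le]
        constructor <;> nlinarith [hx.1, hx.2]
    · intro x hx
      have him : (s + ↑x * -(d : ℂ)).im = s.im := by simp
      have hre : (s + ↑x * -(d : ℂ)).re = s.re - x * d := by
        simp; ring
      rw [him, hre, ← hT]
      refine ⟨by linarith, by linarith, by linarith, ?_⟩
      rw [abs_le]
      constructor <;> nlinarith [hx.1, hx.2]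

lemma dl_pos {c T : ℝ} (hc : 0 < c) (hT : 10 ≤ T) : 0 < dl c T := by
  unfold dl
  have : 0 < Real.log T := Real.log_pos (by linarith)
  positivity

/-- `dl c T ≤ 1` for `T` large -/
lemma dl_small (c : ℝ) (hc : 0 < c) (hc1 : c < 1) : ∀ T : ℝ, Real.exp 7 ≤ T → dl c T ≤ 1 := by
  intro T hT
  unfold dl
  have h1 : 7 ≤ Real.log T := by
    rw [Real.le_log_iff_exp_le (by linarith [Real.exp_pos 7])]
    exact hT
  rw [div_le_one (by linarith)]
  have := Real.pi_lt_d2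
  nlinarith [Real.pi_pos]

lemma e7 : (10 : ℝ) ≤ Real.exp 7 := by
  have := Real.add_one_le_exp (3.5 : ℝ)
  have h2 : Real.exp 7 = Real.exp 3.5 * Real.exp 3.5 := by
    rw [← Real.exp_add]; norm_num
  rw [h2]
  nlinarith

lemma hh_eq (δ : ℝ) : hh δ = I * ((δ / 2 : ℝ) : ℂ) := rfl

end GamAux

open GamAux

theorem gam_shift : ∃ C : ℝ, 1 ≤ C ∧ ∀ (s : ℂ) (u : ℝ), 10 ≤ |s.im| → |s.re| ≤ |s.im| / 2 → |u| ≤ 1 →
    Gammaℝ (s + I * u) ≠ 0 ∧
    ‖Gammaℝ s / Gammaℝ (s + I * u)‖ ≤ Real.exp (C * |u| * Real.log |s.im|) := by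
  obtain ⟨C, hC, h⟩ := shift
  refine ⟨C, hC, ?_⟩
  intro s u h1 h2 h3
  obtain ⟨k1, k2, _⟩ := h s u |s.im| (by linarith) (by linarith) (by linarith) (by linarith)
    (by linarith) h3
  refine ⟨k1, k2.trans ?_⟩
  apply Real.exp_le_exp.mpr
  have h4 : 1 ≤ Real.log |s.im| := by
    rw [Real.le_log_iff_exp_le (by linarith)]
    linarith [Real.exp_one_lt_d9]
  have h5 : 0 ≤ C * |u| := by positivity
  nlinarith

theorem gam_reflect : ∃ C : ℝ, 1 ≤ C ∧ ∀ s : ℂ, 10 ≤ |s.im| → 1 / 2 ≤ s.re → s.re ≤ 5 / 2 →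
    ‖Gammaℝ (1 - s) / Gammaℝ s‖ ≤ C := reflect

/-- consequence: bound for `rr` -/
theorem rr_bound (c : ℝ) (hc : 0 < c) (hc1 : c < 1) : ∃ C T0 : ℝ, 1 ≤ C ∧ 10 ≤ T0 ∧ ∀ T : ℝ, T0 ≤ T →
    ∀ s : ℂ, T ≤ s.im → s.im ≤ 2 * T → |s.re| ≤ T / 4 → ‖rr (dl c T) s‖ ≤ C := by
  obtain ⟨C, hC, h⟩ := shift
  refine ⟨Real.exp C, Real.exp 7, Real.one_le_exp (by linarith), e7, ?_⟩
  intro T hT s h1 h2 h3
  have hT10 : 10 ≤ T := e7.trans hT
  have hd1 := dl_small c hc hc1 T hT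
  have hd0 := dl_pos hc hT10
  have habs : |s.im| = s.im := abs_of_nonneg (by linarith)
  have hu : |dl c T / 2| ≤ 1 := by
    rw [abs_of_nonneg (by linarith)]; linarith
  have hu2 : |dl c T / 2| ≤ 1 / 2 := by
    rw [abs_of_nonneg (by linarith)]; linarith
  obtain ⟨_, k1, _⟩ := h s (dl c T / 2) T (by linarith) (by rw [habs]; linarith)
    (by rw [habs]; linarith) (by rw [habs]; linarith) (by rw [habs]; linarith) hu
  have him : |(1 - s).im| = s.im := by simp [habs]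
  have hre : |(1 - s).re| ≤ 1 + T / 4 := by
    have := abs_sub (1 : ℝ) s.re
    simp only [sub_re, one_re]
    calc |1 - s.re| ≤ |(1 : ℝ)| + |s.re| := abs_sub _ _
      _ ≤ _ := by rw [abs_one]; linarith
  obtain ⟨_, k2, _⟩ := h (1 - s) (dl c T / 2) T (by linarith) (by rw [him]; linarith)
    (by rw [him]; linarith) (by rw [him]; linarith) (by rw [him]; linarith) hu
  have e : rr (dl c T) s = (Gammaℝ s / Gammaℝ (s + I * ((dl c T / 2 : ℝ) : ℂ))) *
      (Gammaℝ (1 - s) / Gammaℝ (1 - s + I * ((dl c T / 2 : ℝ) : ℂ))) := by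
    unfold rr
    rw [hh_eq, show (1 : ℂ) - (s - I * ((dl c T / 2 : ℝ) : ℂ)) = 1 - s + I * ((dl c T / 2 : ℝ) : ℂ) by ring]
    rw [div_mul_div_comm]
  rw [e, norm_mul]
  have hb : Real.exp (C * |dl c T / 2|) ≤ Real.exp (C / 2) := by
    apply Real.exp_le_exp.mpr
    nlinarith
  calc _ ≤ Real.exp (C / 2) * Real.exp (C / 2) := by
        gcongr
        · exact k1.trans hb
        · exact k2.trans hb
    _ = Real.exp C := by rw [← Real.exp_add]; ring_nf

theorem rr_phase (c : ℝ) (hc : 0 < c) (hc1 : c < 1) : ∃ C T0 : ℝ, 1 ≤ C ∧ 10 ≤ T0 ∧ ∀ T : ℝ, T0 ≤ T →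
    ∀ t : ℝ, T ≤ t → t ≤ 2 * T →
      ‖rr (dl c T) (⟨1 / 2, t⟩ : ℂ) - cexp (-(Real.pi * c : ℝ) * I)‖ ≤ C / Real.log T := by
  obtain ⟨C, hC, h⟩ := shift
  refine ⟨8 * C * Real.exp C, Real.exp 7, ?_, e7, ?_⟩
  · have := Real.one_le_exp (show 0 ≤ C by linarith)
    nlinarith
  intro T hT t h1 h2
  have hT10 : 10 ≤ T := e7.trans hT
  have hd1 := dl_small c hc hc1 T hT
  have hd0 := dl_pos hc hT10
  have hlog : 0 < Real.log T := Real.log_pos (by linarith)
  set s : ℂ := ⟨1 / 2, t⟩ with hs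
  have habs : |s.im| = t := by
    show |t| = t
    exact abs_of_nonneg (by linarith)
  have hsre : |s.re| = 1 / 2 := by
    show |(1 / 2 : ℝ)| = 1 / 2
    exact abs_of_nonneg (by norm_num)
  set u : ℝ := dl c T / 2 with hu'
  have hu0 : 0 ≤ u := by rw [hu']; linarith
  have habsu : |u| = u := abs_of_nonneg hu0
  have hu : |u| ≤ 1 := by
    rw [habsu]; linarith
  obtain ⟨_, k1, k1'⟩ := h s u T (by linarith) (by rw [habs]; linarith)
    (by rw [habs]; linarith) (by rw [habs]; linarith) (by rw [habs, hsre]; linarith) hu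
  have him : |(1 - s).im| = t := by
    rw [sub_im, one_im, zero_sub, abs_neg, habs]
  have hre : |(1 - s).re| = 1 / 2 := by
    rw [sub_re, one_re, hs]
    norm_num
  obtain ⟨_, k2, k2'⟩ := h (1 - s) u T (by linarith) (by rw [him]; linarith)
    (by rw [him]; linarith) (by rw [him]; linarith) (by rw [him, hre]; linarith) hu
  rw [habsu] at k1 k1' k2 k2'
  set a : ℂ := Gammaℝ s / Gammaℝ (s + I * u) * cexp (I * u * (Real.log T / 2 : ℝ)) with ha
  set b : ℂ := Gammaℝ (1 - s) / Gammaℝ (1 - s + I * u) * cexp (I * u * (Real.log T / 2 : ℝ)) with hb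
  have hphase : I * u * (Real.log T / 2 : ℝ) + I * u * (Real.log T / 2 : ℝ) = (Real.pi * c : ℝ) * I := by
    rw [hu', dl]
    push_cast
    have : (Real.log T : ℂ) ≠ 0 := by exact_mod_cast hlog.ne'
    field_simp
    ring
  have e : rr (dl c T) s = a * b * cexp (-(Real.pi * c : ℝ) * I) := by
    rw [ha, hb]
    have e1 : Gammaℝ s / Gammaℝ (s + I * u) * cexp (I * u * (Real.log T / 2 : ℝ)) *
        (Gammaℝ (1 - s) / Gammaℝ (1 - s + I * u) * cexp (I * u * (Real.log T / 2 : ℝ))) *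
        cexp (-(Real.pi * c : ℝ) * I) =
        (Gammaℝ s / Gammaℝ (s + I * u)) * (Gammaℝ (1 - s) / Gammaℝ (1 - s + I * u)) *
        (cexp (I * u * (Real.log T / 2 : ℝ)) * cexp (I * u * (Real.log T / 2 : ℝ)) *
        cexp (-(Real.pi * c : ℝ) * I)) := by ring
    rw [e1, ← Complex.exp_add, ← Complex.exp_add, hphase]
    have e2 : ((Real.pi * c : ℝ) : ℂ) * I + -((Real.pi * c : ℝ) : ℂ) * I = 0 := by ring
    rw [e2, Complex.exp_zero, mul_one]
    unfold rr
    rw [hh_eq, ← hu', show (1 : ℂ) - (s - I * (u : ℂ)) = 1 - s + I * (u : ℂ) by ring]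
    rw [div_mul_div_comm]
  have e2 : rr (dl c T) s - cexp (-(Real.pi * c : ℝ) * I) =
      ((a - 1) * b + (b - 1)) * cexp (-(Real.pi * c : ℝ) * I) := by
    rw [e]; ring
  have hn1 : ‖cexp (-(Real.pi * c : ℝ) * I)‖ = 1 := by
    rw [Complex.norm_exp]
    simp
  have hn2 : ‖cexp (I * u * (Real.log T / 2 : ℝ))‖ = 1 := by
    rw [Complex.norm_exp]
    simp
  have hnb : ‖b‖ ≤ Real.exp (C * u) := by
    rw [hb, norm_mul, hn2, mul_one]
    exact k2
  rw [e2, norm_mul, hn1, mul_one]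
  have hCu : 0 ≤ C * u := by positivity
  have h1e : 1 ≤ Real.exp (C * u) := Real.one_le_exp hCu
  have step : ‖(a - 1) * b + (b - 1)‖ ≤ Real.exp (2 * (C * u)) - 1 := by
    calc _ ≤ ‖(a - 1) * b‖ + ‖b - 1‖ := norm_add_le _ _
      _ = ‖a - 1‖ * ‖b‖ + ‖b - 1‖ := by rw [norm_mul]
      _ ≤ (Real.exp (C * u) - 1) * Real.exp (C * u) + (Real.exp (C * u) - 1) := by
        gcongr
      _ = Real.exp (2 * (C * u)) - 1 := by
        rw [two_mul, Real.exp_add]; ring
  refine step.trans ?_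
  have hu1 : u ≤ 1 / 2 := by rw [hu']; linarith
  -- exp x - 1 ≤ x exp x
  have hx : ∀ x : ℝ, Real.exp x - 1 ≤ x * Real.exp x := by
    intro x
    have := Real.add_one_le_exp (-x)
    have h5 : Real.exp (-x) * Real.exp x = 1 := by rw [← Real.exp_add]; simp
    have h6 := Real.exp_pos x
    nlinarith
  refine (hx _).trans ?_
  have hul : u * Real.log T = Real.pi * c := by
    rw [hu', dl]
    field_simp
  rw [le_div_iff₀ hlog]
  have h7 : Real.exp (2 * (C * u)) ≤ Real.exp C := by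
    apply Real.exp_le_exp.mpr
    nlinarith
  calc 2 * (C * u) * Real.exp (2 * (C * u)) * Real.log T
      = 2 * C * (u * Real.log T) * Real.exp (2 * (C * u)) := by ring
    _ = 2 * C * (Real.pi * c) * Real.exp (2 * (C * u)) := by rw [hul]
    _ ≤ 2 * C * 4 * Real.exp C := by
      have : Real.pi * c ≤ 4 := by
        have := Real.pi_lt_d2
        nlinarith [Real.pi_pos]
      gcongr
    _ = _ := by ring

theorem rr_analytic (δ : ℝ) (hδ : |δ| ≤ 1) (s : ℂ) (hs : 1 ≤ s.im) : AnalyticAt ℂ (rr δ) s := by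
  have hδ' := abs_le.mp hδ
  have i1 : (s + hh δ).im ≠ 0 := by
    have : (s + hh δ).im = s.im + δ / 2 := by simp [hh]
    rw [this]; linarith
  have i2 : (1 - (s - hh δ)).im ≠ 0 := by
    have : (1 - (s - hh δ)).im = -s.im + δ / 2 := by simp [hh]; ring
    rw [this]; linarith
  have i3 : s.im ≠ 0 := by linarith
  have i4 : (1 - s).im ≠ 0 := by simp; linarith
  have a1 : AnalyticAt ℂ (fun s : ℂ => s + hh δ) s := by fun_prop
  have a2 : AnalyticAt ℂ (fun s : ℂ => 1 - (s - hh δ)) s := by fun_prop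
  have a3 : AnalyticAt ℂ (fun s : ℂ => 1 - s) s := by fun_prop
  have b1 : AnalyticAt ℂ (fun s : ℂ => Gammaℝ (s + hh δ)) s :=
    AnalyticAt.fun_comp (GR_analytic i1) a1
  have b2 : AnalyticAt ℂ (fun s : ℂ => Gammaℝ (1 - (s - hh δ))) s :=
    AnalyticAt.fun_comp (GR_analytic i2) a2
  have b3 : AnalyticAt ℂ (fun s : ℂ => Gammaℝ (1 - s)) s :=
    AnalyticAt.fun_comp (GR_analytic i4) a3
  have b4 : AnalyticAt ℂ (fun s : ℂ => Gammaℝ s) s := GR_analytic i3
  exact (b4.mul b3).div (b1.mul b2) (mul_ne_zero (GR_ne i1) (GR_ne i2))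

/-- the Gamma factor of the kernel on the right half -/
theorem gg_bound (c : ℝ) (hc : 0 < c) (hc1 : c < 1) : ∃ C T0 : ℝ, 1 ≤ C ∧ 10 ≤ T0 ∧ ∀ T : ℝ, T0 ≤ T →
    ∀ s : ℂ, T ≤ s.im → s.im ≤ 2 * T → 1 / 2 ≤ s.re → s.re ≤ 5 / 2 →
    ‖Gammaℝ s * Gammaℝ (1 - s) / (Gammaℝ (s + hh (dl c T)) * Gammaℝ (s - hh (dl c T)))‖ ≤ C := by
  obtain ⟨C, hC, h⟩ := shift
  obtain ⟨C2, hC2, h2'⟩ := reflect
  refine ⟨Real.exp C * C2, Real.exp 7, ?_, e7, ?_⟩
  · have := Real.one_le_exp (show 0 ≤ C by linarith)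
    nlinarith
  intro T hT s h1 h2 h3 h4
  have hT10 : 10 ≤ T := e7.trans hT
  have hd1 := dl_small c hc hc1 T hT
  have hd0 := dl_pos hc hT10
  have habs : |s.im| = s.im := abs_of_nonneg (by linarith)
  have habr : |s.re| = s.re := abs_of_nonneg (by linarith)
  set u : ℝ := dl c T / 2 with hu'
  have hu0 : 0 ≤ u := by rw [hu']; linarith
  have habsu : |u| = u := abs_of_nonneg hu0
  have hu : |u| ≤ 1 := by
    rw [habsu]; linarith
  obtain ⟨_, k1, _⟩ := h s u T (by linarith) (by rw [habs]; linarith)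
    (by rw [habs]; linarith) (by rw [habs]; linarith) (by rw [habs, habr]; linarith) hu
  obtain ⟨_, k2, _⟩ := h s (-u) T (by linarith) (by rw [habs]; linarith)
    (by rw [habs]; linarith) (by rw [habs]; linarith) (by rw [habs, habr]; linarith)
    (by rw [abs_neg]; exact hu)
  rw [abs_neg, habsu] at k2
  rw [habsu] at k1
  have k3 := h2' s (by rw [habs]; linarith) h3 h4
  have hne : Gammaℝ s ≠ 0 := GR_ne (by linarith)
  have e : Gammaℝ s * Gammaℝ (1 - s) / (Gammaℝ (s + hh (dl c T)) * Gammaℝ (s - hh (dl c T))) =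
      (Gammaℝ s / Gammaℝ (s + I * u)) * (Gammaℝ s / Gammaℝ (s + I * ((-u : ℝ) : ℂ))) *
      (Gammaℝ (1 - s) / Gammaℝ s) := by
    rw [hh_eq, ← hu', show s - I * (u : ℂ) = s + I * ((-u : ℝ) : ℂ) by push_cast; ring]
    rw [div_mul_div_comm, div_mul_div_comm]
    rw [show Gammaℝ s * Gammaℝ s * Gammaℝ (1 - s) = Gammaℝ s * (Gammaℝ s * Gammaℝ (1 - s)) by ring,
      show Gammaℝ (s + I * ↑u) * Gammaℝ (s + I * ↑(-u)) * Gammaℝ s =
        Gammaℝ s * (Gammaℝ (s + I * ↑u) * Gammaℝ (s + I * ↑(-u))) by ring]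
    rw [mul_div_mul_left _ _ hne]
  rw [e, norm_mul, norm_mul]
  have hb : Real.exp (C * u) ≤ Real.exp (C / 2) := by
    apply Real.exp_le_exp.mpr
    have : u ≤ 1 / 2 := by rw [hu']; linarith
    nlinarith
  calc _ ≤ Real.exp (C / 2) * Real.exp (C / 2) * C2 := by
        gcongr
        · exact k1.trans hb
        · exact k2.trans hb
    _ = Real.exp C * C2 := by rw [← Real.exp_add]; ring_nf

end SG
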