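import Pool.Agent.H382R2.Gam

open Complex Filter Topology Set MeasureTheory

namespace SG

namespace AlgAux

lemma hh_re' (δ : ℝ) : (hh δ).re = 0 := by
  unfold hh
  simp

lemma hh_im' (δ : ℝ) : (hh δ).im = δ / 2 := by
  unfold hh
  simp

lemma half_bound {δ : ℝ} (hδ : |δ| ≤ 1) : -(1 / 2) ≤ δ / 2 ∧ δ / 2 ≤ 1 / 2 := by
  rw [abs_le] at hδ
  constructor <;> linarith [hδ.1, hδ.2]

lemma im_add {δ : ℝ} (hδ : |δ| ≤ 1) {s : ℂ} (hs : 1 ≤ s.im) : (s + hh δ).im ≠ 0 := by
  have := half_bound hδ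
  rw [Complex.add_im, hh_im']
  intro h
  linarith [this.1, this.2]

lemma im_sub {δ : ℝ} (hδ : |δ| ≤ 1) {s : ℂ} (hs : 1 ≤ s.im) : (s - hh δ).im ≠ 0 := by
  have := half_bound hδ
  rw [Complex.sub_im, hh_im']
  intro h
  linarith [this.1, this.2]

lemma im_one_sub {w : ℂ} (hw : w.im ≠ 0) : (1 - w).im ≠ 0 := by
  rw [Complex.sub_im, one_im, zero_sub]
  exact neg_ne_zero.mpr hw

lemma ne_zero_of_im {w : ℂ} (hw : w.im ≠ 0) : w ≠ 0 := by
  intro h
  rw [h] at hw
  simp at hw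

lemma ne_one_of_im {w : ℂ} (hw : w.im ≠ 0) : w ≠ 1 := by
  intro h
  rw [h] at hw
  simp at hw

lemma Lam_eq {w : ℂ} (hw : w.im ≠ 0) :
    completedRiemannZeta w = Gammaℝ w * riemannZeta w := by
  rw [riemannZeta_def_of_ne_zero (ne_zero_of_im hw)]
  have := GamAux.GR_ne hw
  field_simp

lemma zeta_lt_one {w : ℂ} (hz : riemannZeta w = 0) : w.re < 1 := by
  by_contra h
  push Not at h
  exact riemannZeta_ne_zero_of_one_le_re h hz

lemma Lam_zero {w : ℂ} (hw : w.im ≠ 0) :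
    completedRiemannZeta w = 0 ↔ (riemannZeta w = 0 ∧ 0 < w.re ∧ w.re < 1) := by
  constructor
  · intro h
    have h1 : riemannZeta w = 0 := by
      rw [Lam_eq hw] at h
      exact (mul_eq_zero.mp h).resolve_left (GamAux.GR_ne hw)
    have h2 : riemannZeta (1 - w) = 0 := by
      rw [← completedRiemannZeta_one_sub, Lam_eq (im_one_sub hw)] at h
      exact (mul_eq_zero.mp h).resolve_left (GamAux.GR_ne (im_one_sub hw))
    refine ⟨h1, ?_, zeta_lt_one h1⟩
    have := zeta_lt_one h2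
    rw [sub_re, one_re] at this
    linarith
  · rintro ⟨h, -, -⟩
    rw [Lam_eq hw, h, mul_zero]

lemma Lam_analytic {w : ℂ} (hw : w.im ≠ 0) : AnalyticAt ℂ completedRiemannZeta w := by
  have hopen : IsOpen {s : ℂ | s.im ≠ 0} :=
    isOpen_ne.preimage continuous_im
  have h : DifferentiableOn ℂ completedRiemannZeta {s : ℂ | s.im ≠ 0} := fun z hz =>
    (differentiableAt_completedZeta (ne_zero_of_im hz)
      (ne_one_of_im hz)).differentiableWithinAt
  exact h.analyticAt (hopen.mem_nhds hw)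

lemma phi_an (t0 D : ℝ) (s : ℂ) : AnalyticAt ℂ (phi t0 D) s := by
  have : Differentiable ℂ (phi t0 D) := by
    unfold phi
    intro z
    apply DifferentiableAt.cexp
    apply DifferentiableAt.div_const
    apply DifferentiableAt.pow
    exact ((differentiableAt_id.sub_const _).sub_const _)
  exact this.analyticAt s

end AlgAux

open AlgAux

/-- `P(s) G(1-s_-) = Q(s) - P(s)` -/
theorem PQ (t0 D δ : ℝ) (hδ : |δ| ≤ 1) (N : ℕ) (s : ℂ) (hs : 1 ≤ s.im)
    (h1 : riemannZeta (s + hh δ) ≠ 0) (h2 : riemannZeta (s - hh δ) ≠ 0) (h3 : 0 < s.re) :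
    PP t0 D δ s * GG N (1 - (s - hh δ)) = QQ t0 D δ N s - PP t0 D δ s := by
  have i1 := im_add hδ hs
  have i2 := im_sub hδ hs
  have i3 := im_one_sub i2
  have g1 := GamAux.GR_ne i1
  have g2 := GamAux.GR_ne i2
  have g3 := GamAux.GR_ne i3
  have hL : completedRiemannZeta (s - hh δ) =
      Gammaℝ (1 - (s - hh δ)) * riemannZeta (1 - (s - hh δ)) := by
    rw [← completedRiemannZeta_one_sub, Lam_eq i3]
  have hz3 : riemannZeta (1 - (s - hh δ)) ≠ 0 := by
    intro h
    rw [h, mul_zero, Lam_eq i2] at hL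
    rcases mul_eq_zero.mp hL with h' | h'
    · exact g2 h'
    · exact h2 h'
  have key : PP t0 D δ s * riemannZeta (1 - (s - hh δ)) =
      phi t0 D s * rr δ s / riemannZeta (s + hh δ) := by
    unfold PP NU LL rr
    rw [hL, Lam_eq i1]
    field_simp
  unfold GG QQ
  calc PP t0 D δ s * (riemannZeta (1 - (s - hh δ)) * AA N (1 - (s - hh δ)) - 1)
      = (PP t0 D δ s * riemannZeta (1 - (s - hh δ))) * AA N (1 - (s - hh δ)) - PP t0 D δ s := by
        ring
    _ = _ := by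
        rw [key]
        ring

/-- the zeros of `LL δ` in the rectangle -/
theorem LL_zero (δ : ℝ) (hδ : |δ| ≤ 1) (s : ℂ) (hs : 1 ≤ s.im) :
    LL δ s = 0 ↔ (riemannZeta (s + hh δ) = 0 ∧ 0 < s.re ∧ s.re < 1) ∨
      (riemannZeta (s - hh δ) = 0 ∧ 0 < s.re ∧ s.re < 1) := by
  unfold LL
  rw [mul_eq_zero, Lam_zero (im_add hδ hs), Lam_zero (im_sub hδ hs), Complex.add_re,
    Complex.sub_re, hh_re', add_zero, sub_zero]

theorem LL_analytic (δ : ℝ) (hδ : |δ| ≤ 1) (s : ℂ) (hs : 1 ≤ s.im) : AnalyticAt ℂ (LL δ) s := by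
  unfold LL
  apply AnalyticAt.mul
  · apply AnalyticAt.comp' (g := completedRiemannZeta) (f := fun s => s + hh δ)
    · exact Lam_analytic (im_add hδ hs)
    · fun_prop
  · apply AnalyticAt.comp' (g := completedRiemannZeta) (f := fun s => s - hh δ)
    · exact Lam_analytic (im_sub hδ hs)
    · fun_prop

theorem NU_analytic (t0 D : ℝ) (s : ℂ) (hs : 1 ≤ s.im) : AnalyticAt ℂ (NU t0 D) s := by
  unfold NU
  have hs0 : s.im ≠ 0 := by
    intro h
    linarith
  apply (phi_an t0 D s).mul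
  apply (GamAux.GR_analytic hs0).mul
  apply AnalyticAt.comp' (g := Gammaℝ) (f := fun s => 1 - s)
  · exact GamAux.GR_analytic (im_one_sub hs0)
  · fun_prop

end SG
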