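import Pool.Agent.H382R2.Defs

open Complex Filter Topology Set MeasureTheory

namespace SG

theorem phi_norm (t0 D : ℝ) (hD : 0 < D) (s : ℂ) :
    ‖phi t0 D s‖ = Real.exp (((s.re - 1 / 2) ^ 2 - (s.im - t0) ^ 2) / (2 * D ^ 2)) := by
  unfold phi
  rw [Complex.norm_exp]
  congr 1
  have hD' : (D : ℂ) ≠ 0 := by exact_mod_cast hD.ne'
  have e1 : (s - 1 / 2 - I * t0) ^ 2 / (2 * (D : ℂ) ^ 2) =
      ((1 / (2 * D ^ 2) : ℝ) : ℂ) * (s - 1 / 2 - I * t0) ^ 2 := by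
    push_cast
    field_simp
  have e2 : ((s - 1 / 2 - I * t0) ^ 2).re = (s.re - 1 / 2) ^ 2 - (s.im - t0) ^ 2 := by
    rw [sq, mul_re]
    simp only [sub_re, sub_im, mul_re, mul_im, I_re, I_im, ofReal_re, ofReal_im, one_div,
      inv_re, inv_im, re_ofNat, im_ofNat, normSq_ofNat]
    ring
  rw [e1, Complex.re_ofReal_mul, e2]
  ring

namespace Deep

lemma dd_pos (κ T : ℝ) (hT : 0 < T) : 0 < dd κ T := Real.rpow_pos_of_pos hT _

lemma one_le_dd (κ : ℝ) (hκ1 : κ < 1 / 2) (T : ℝ) (hT : 10 ≤ T) : 1 ≤ dd κ T := by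
  unfold dd
  exact Real.one_le_rpow (by linarith) (by linarith)

lemma gauss_integrable (D t0 : ℝ) (hD : 0 < D) :
    Integrable (fun t : ℝ => Real.exp (-(t - t0) ^ 2 / (2 * D ^ 2))) := by
  have h := integrable_exp_neg_mul_sq (b := 1 / (2 * D ^ 2)) (by positivity)
  have h2 := h.comp_sub_right t0
  refine h2.congr (ae_of_all _ fun t => ?_)
  simp only
  congr 1
  ring

lemma gauss_integral (D t0 : ℝ) (hD : 0 < D) :
    ∫ t : ℝ, Real.exp (-(t - t0) ^ 2 / (2 * D ^ 2)) = D * Real.sqrt (2 * Real.pi) := by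
  have h := integral_gaussian (1 / (2 * D ^ 2))
  have h2 : ∫ t : ℝ, Real.exp (-(t - t0) ^ 2 / (2 * D ^ 2)) =
      ∫ t : ℝ, Real.exp (-(1 / (2 * D ^ 2)) * t ^ 2) := by
    rw [← integral_sub_right_eq_self (fun t : ℝ => Real.exp (-(1 / (2 * D ^ 2)) * t ^ 2)) t0]
    congr 1
    ext t
    congr 1
    ring
  rw [h2, h]
  rw [show Real.pi / (1 / (2 * D ^ 2)) = D ^ 2 * (2 * Real.pi) by field_simp]
  rw [Real.sqrt_mul (by positivity), Real.sqrt_sq hD.le]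

end Deep

open Deep

/-- integral of `|φ|` over a vertical line -/
theorem phi_int (κ : ℝ) (hκ : 0 < κ) (hκ1 : κ < 1 / 2) (T : ℝ) (hT : 10 ≤ T) (σ U1 U2 : ℝ)
    (h1 : U1 ≤ U2) (hσ : |σ - 1 / 2| ≤ 2) :
    ∫ t in U1..U2, ‖phi (3 * T / 2) (dd κ T) (⟨σ, t⟩ : ℂ)‖ ≤ 20 * dd κ T := by
  set D := dd κ T with hDdef
  have hD1 : 1 ≤ D := one_le_dd κ hκ1 T hT
  have hD : 0 < D := by linarith
  set t0 := 3 * T / 2 with ht0
  have e1 : ∀ t : ℝ, ‖phi t0 D (⟨σ, t⟩ : ℂ)‖ =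
      Real.exp ((σ - 1 / 2) ^ 2 / (2 * D ^ 2)) * Real.exp (-(t - t0) ^ 2 / (2 * D ^ 2)) := by
    intro t
    rw [phi_norm t0 D hD, ← Real.exp_add]
    congr 1
    simp only
    ring
  have hint := gauss_integrable D t0 hD
  simp_rw [e1]
  rw [intervalIntegral.integral_const_mul]
  have h2 : ∫ t in U1..U2, Real.exp (-(t - t0) ^ 2 / (2 * D ^ 2)) ≤ D * Real.sqrt (2 * Real.pi) := by
    rw [← gauss_integral D t0 hD, intervalIntegral.integral_of_le h1]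
    exact setIntegral_le_integral hint (ae_of_all _ fun t => (Real.exp_pos _).le)
  have h3 : Real.exp ((σ - 1 / 2) ^ 2 / (2 * D ^ 2)) ≤ Real.exp 2 := by
    apply Real.exp_le_exp.mpr
    rw [div_le_iff₀ (by positivity)]
    have : (σ - 1 / 2) ^ 2 ≤ 2 ^ 2 := sq_le_sq' (by linarith [neg_le_of_abs_le hσ]) (le_of_abs_le hσ)
    nlinarith
  have h4 : Real.exp 2 ≤ 7.39 := by
    have := Real.exp_one_lt_d9
    have h5 : Real.exp 2 = Real.exp 1 * Real.exp 1 := by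
      rw [← Real.exp_add]
      norm_num
    rw [h5]
    have h6 := Real.exp_pos 1
    nlinarith
  have h5 : Real.sqrt (2 * Real.pi) ≤ 2.51 := by
    rw [Real.sqrt_le_left (by norm_num)]
    have := Real.pi_lt_d2
    norm_num at this ⊢
    linarith
  have h6 : 0 ≤ Real.sqrt (2 * Real.pi) := Real.sqrt_nonneg _
  have h7 : 0 < Real.exp ((σ - 1 / 2) ^ 2 / (2 * D ^ 2)) := Real.exp_pos _
  calc _ ≤ Real.exp ((σ - 1 / 2) ^ 2 / (2 * D ^ 2)) * (D * Real.sqrt (2 * Real.pi)) :=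
        mul_le_mul_of_nonneg_left h2 h7.le
    _ ≤ 7.39 * (D * 2.51) := by
        apply mul_le_mul (h3.trans h4) _ (by positivity) (by norm_num)
        exact mul_le_mul_of_nonneg_left h5 hD.le
    _ ≤ 20 * D := by nlinarith

/-- on the horizontal sides `φ` is tiny -/
theorem phi_tiny (κ : ℝ) (hκ : 0 < κ) (hκ1 : κ < 1 / 2) : ∃ T0 : ℝ, 10 ≤ T0 ∧ ∀ T : ℝ, T0 ≤ T →
    ∀ s : ℂ, |s.re - 1 / 2| ≤ dd κ T → (s.im ≤ T + 20 ∨ 2 * T - 20 ≤ s.im) →
    ‖phi (3 * T / 2) (dd κ T) s‖ ≤ Real.exp (-T ^ (κ / 2)) := by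
  refine ⟨max 160 ((33 : ℝ) ^ (2 / κ)), le_trans (by norm_num) (le_max_left _ _), ?_⟩
  intro T hT s hs1 hs2
  have hT1 : 160 ≤ T := (le_max_left _ _).trans hT
  have hT2 : (33 : ℝ) ^ (2 / κ) ≤ T := (le_max_right _ _).trans hT
  have hT0 : 0 < T := by linarith
  have hD : 0 < dd κ T := dd_pos κ T hT0
  rw [phi_norm _ _ hD]
  apply Real.exp_le_exp.mpr
  set u := T ^ (κ / 2) with hu
  have hu33 : 33 ≤ u := by
    have : ((33 : ℝ) ^ (2 / κ)) ^ (κ / 2) = 33 := by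
      rw [← Real.rpow_mul (by norm_num)]
      rw [show 2 / κ * (κ / 2) = 1 by field_simp]
      exact Real.rpow_one _
    rw [← this]
    exact Real.rpow_le_rpow (by positivity) hT2 (by positivity)
  have hD2 : dd κ T ^ 2 * u ^ 2 = T ^ 2 := by
    unfold dd
    rw [hu, ← Real.rpow_natCast, ← Real.rpow_natCast, ← Real.rpow_natCast, ← Real.rpow_mul hT0.le,
      ← Real.rpow_mul hT0.le, ← Real.rpow_add hT0]
    congr 1
    push_cast
    ring
  have him : (T / 4) ^ 2 ≤ (s.im - 3 * T / 2) ^ 2 := by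
    rcases hs2 with h | h
    · have : T / 4 ≤ -(s.im - 3 * T / 2) := by linarith
      nlinarith
    · have : T / 4 ≤ (s.im - 3 * T / 2) := by linarith
      nlinarith
  have hre : (s.re - 1 / 2) ^ 2 ≤ dd κ T ^ 2 := by
    rw [← sq_abs]
    exact pow_le_pow_left₀ (abs_nonneg _) hs1 2
  rw [div_le_iff₀ (by positivity)]
  have h3 : (s.re - 1 / 2) ^ 2 - (s.im - 3 * T / 2) ^ 2 ≤ dd κ T ^ 2 - dd κ T ^ 2 * u ^ 2 / 16 := by
    rw [hD2]
    nlinarith
  refine h3.trans ?_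
  have h4 : 0 < dd κ T ^ 2 := by positivity
  have h5 : 1 - u ^ 2 / 16 ≤ -u * 2 := by nlinarith
  calc dd κ T ^ 2 - dd κ T ^ 2 * u ^ 2 / 16 = dd κ T ^ 2 * (1 - u ^ 2 / 16) := by ring
    _ ≤ dd κ T ^ 2 * (-u * 2) := mul_le_mul_of_nonneg_left h5 h4.le
    _ = _ := by ring

namespace Deep

lemma tendsto_pow_exp (A b κ : ℝ) (hb : 0 < b) (hκ : 0 < κ) :
    Tendsto (fun T : ℝ => T ^ A * Real.exp (-b * T ^ (κ / 2))) atTop (𝓝 0) := by
  have h := (tendsto_rpow_mul_exp_neg_mul_atTop_nhds_zero (2 * A / κ) b hb).comp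
    (tendsto_rpow_atTop (show 0 < κ / 2 by positivity))
  refine h.congr' ?_
  filter_upwards [eventually_gt_atTop 0] with T hT
  simp only [Function.comp]
  rw [← Real.rpow_mul hT.le]
  congr 2
  field_simp

lemma phi_analytic (t0 D : ℝ) (s : ℂ) : AnalyticAt ℂ (phi t0 D) s := by
  have : Differentiable ℂ (phi t0 D) := by
    unfold phi
    intro z
    apply DifferentiableAt.cexp
    apply DifferentiableAt.div_const
    apply DifferentiableAt.pow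
    exact ((differentiableAt_id.sub_const _).sub_const _)
  exact this.analyticAt s

lemma pow_decay (N : ℕ) (x : ℝ) (hx : 0 ≤ x) :
    ((N : ℝ) / ((N : ℝ) + 1)) ^ x ≤ Real.exp (-(x / ((N : ℝ) + 1))) := by
  have hN : (0 : ℝ) < (N : ℝ) + 1 := by positivity
  have h1 : (N : ℝ) / ((N : ℝ) + 1) ≤ Real.exp (-(1 / ((N : ℝ) + 1))) := by
    have := Real.add_one_le_exp (-(1 / ((N : ℝ) + 1)))
    refine le_trans (le_of_eq ?_) this
    field_simp
    ring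
  refine (Real.rpow_le_rpow (by positivity) h1 hx).trans (le_of_eq ?_)
  rw [← Real.exp_mul]
  congr 1
  ring

end Deep

end SG
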