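import Pool.Agent.H382R2.Defs

open Complex Filter Topology Set MeasureTheory

namespace SG

theorem AA_bound (N : ℕ) (s : ℂ) : ‖AA N s‖ ≤ (N : ℝ) ^ (1 + max 0 (-s.re)) := by
  rcases Nat.eq_zero_or_pos N with h0 | hN
  · subst h0
    simp only [AA, Nat.cast_zero]
    have : Finset.Icc 1 0 = (∅ : Finset ℕ) := by simp
    rw [this, Finset.sum_empty, norm_zero]
    exact Real.rpow_nonneg le_rfl _
  · have hNr : (1 : ℝ) ≤ N := by exact_mod_cast hN
    have hm : (0 : ℝ) ≤ max 0 (-s.re) := le_max_left _ _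
    have key : ∀ n ∈ Finset.Icc 1 N,
        ‖((ArithmeticFunction.moebius n : ℤ) : ℂ) * (n : ℂ) ^ (-s)‖ ≤ (N : ℝ) ^ (max 0 (-s.re)) := by
      intro n hn
      obtain ⟨h1, h2⟩ := Finset.mem_Icc.mp hn
      have hn1 : (1 : ℝ) ≤ n := by exact_mod_cast h1
      have hnN : (n : ℝ) ≤ N := by exact_mod_cast h2
      rw [norm_mul, Complex.norm_natCast_cpow_of_pos (by omega : 0 < n)]
      have hμ : ‖((ArithmeticFunction.moebius n : ℤ) : ℂ)‖ ≤ 1 := by
        rw [Complex.norm_intCast]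
        exact_mod_cast ArithmeticFunction.abs_moebius_le_one
      have h3 : (n : ℝ) ^ (-s).re ≤ (N : ℝ) ^ (max 0 (-s.re)) := by
        calc (n : ℝ) ^ (-s).re ≤ (n : ℝ) ^ (max 0 (-s.re)) := by
              apply Real.rpow_le_rpow_of_exponent_le hn1
              simp
          _ ≤ _ := Real.rpow_le_rpow (by linarith) hnN hm
      calc _ ≤ 1 * (N : ℝ) ^ (max 0 (-s.re)) :=
            mul_le_mul hμ h3 (Real.rpow_nonneg (by linarith) _) zero_le_one
        _ = _ := one_mul _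
    calc ‖AA N s‖ ≤ ∑ n ∈ Finset.Icc 1 N, (N : ℝ) ^ (max 0 (-s.re)) := norm_sum_le_of_le _ key
      _ = (N : ℝ) * (N : ℝ) ^ (max 0 (-s.re)) := by
          rw [Finset.sum_const, Nat.card_Icc]; simp
      _ = _ := by rw [Real.rpow_add (by linarith), Real.rpow_one]

theorem AA_bound' (N : ℕ) (s : ℂ) (hs : 1 ≤ s.re) : ‖AA N (1 - s)‖ ≤ (N : ℝ) ^ s.re := by
  have h := AA_bound N (1 - s)
  have h2 : max 0 (-(1 - s).re) = s.re - 1 := by
    rw [max_eq_right] <;> simp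
    linarith
  rw [h2] at h
  convert h using 2
  ring

/-- the truncated Möbius function -/
noncomputable def tmu (N : ℕ) : ArithmeticFunction ℂ :=
  ⟨fun n => if n ≤ N then ((ArithmeticFunction.moebius n : ℤ) : ℂ) else 0, by simp⟩

theorem tmu_apply (N n : ℕ) : tmu N n =
    if n ≤ N then ((ArithmeticFunction.moebius n : ℤ) : ℂ) else 0 := rfl

theorem tmu_LSeries (N : ℕ) (s : ℂ) : LSeriesHasSum (fun n => tmu N n) s (AA N s) := by
  rw [LSeriesHasSum]
  have h : ∀ n ∉ Finset.Icc 1 N, LSeries.term (fun n => tmu N n) s n = 0 := by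
    intro n hn
    rcases Nat.eq_zero_or_pos n with h0 | hpos
    · simp [h0]
    · have : ¬ n ≤ N := by
        intro hle; exact hn (Finset.mem_Icc.mpr ⟨hpos, hle⟩)
      rw [LSeries.term_of_ne_zero (by omega), tmu_apply, if_neg this, zero_div]
  have h2 : HasSum (LSeries.term (fun n => tmu N n) s)
      (∑ n ∈ Finset.Icc 1 N, LSeries.term (fun n => tmu N n) s n) := hasSum_sum_of_ne_finset_zero h
  convert h2 using 1
  unfold AA
  apply Finset.sum_congr rfl
  intro n hn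
  obtain ⟨h1, h2⟩ := Finset.mem_Icc.mp hn
  rw [LSeries.term_of_ne_zero (by omega), tmu_apply, if_pos h2, cpow_neg, div_eq_mul_inv]

/-- coefficients of `ζ A` -/
noncomputable def cc (N : ℕ) : ArithmeticFunction ℂ :=
  tmu N * ((ArithmeticFunction.zeta : ArithmeticFunction ℕ) : ArithmeticFunction ℂ)

theorem cc_LSeries (N : ℕ) (s : ℂ) (hs : 1 < s.re) :
    LSeriesHasSum (fun n => cc N n) s (AA N s * riemannZeta s) := by
  unfold cc
  apply ArithmeticFunction.LSeriesHasSum_mul (tmu_LSeries N s)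
  have := ArithmeticFunction.LSeriesHasSum_zeta hs
  simpa using this

theorem cc_apply (N n : ℕ) : cc N n = ∑ d ∈ n.divisors, tmu N d := by
  unfold cc
  rw [ArithmeticFunction.coe_mul_zeta_apply]

theorem cc_one (N : ℕ) (hN : 1 ≤ N) : cc N 1 = 1 := by
  rw [cc_apply]; simp [tmu_apply, hN]

theorem cc_zero' (N n : ℕ) (h1 : 2 ≤ n) (h2 : n ≤ N) : cc N n = 0 := by
  rw [cc_apply]
  have : ∑ d ∈ n.divisors, tmu N d = ∑ d ∈ n.divisors,
      ((ArithmeticFunction.moebius : ArithmeticFunction ℤ) : ArithmeticFunction ℂ) d := by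
    apply Finset.sum_congr rfl
    intro d hd
    have : d ≤ N := (Nat.divisor_le hd).trans h2
    rw [tmu_apply, if_pos this]; rfl
  rw [this, ← ArithmeticFunction.coe_mul_zeta_apply, ArithmeticFunction.coe_moebius_mul_coe_zeta,
    ArithmeticFunction.one_apply, if_neg (by omega)]

theorem cc_bound (N n : ℕ) : ‖cc N n‖ ≤ n := by
  rw [cc_apply]
  calc _ ≤ ∑ d ∈ n.divisors, (1 : ℝ) := by
        apply norm_sum_le_of_le
        intro d _
        rw [tmu_apply]
        split_ifs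
        · rw [Complex.norm_intCast]
          exact_mod_cast ArithmeticFunction.abs_moebius_le_one
        · simp
    _ = (n.divisors.card : ℝ) := by simp
    _ ≤ n := by exact_mod_cast Nat.card_divisors_le_self n

theorem tel (n : ℕ) (hn : 1 ≤ n) :
    ((n : ℝ) + 1) ^ (-(3 / 2) : ℝ) ≤ 2 * (n : ℝ) ^ (-(1 / 2) : ℝ) - 2 * ((n : ℝ) + 1) ^ (-(1 / 2) : ℝ) := by
  have hn' : (1 : ℝ) ≤ n := by exact_mod_cast hn
  set a := Real.sqrt n with ha
  set b := Real.sqrt ((n : ℝ) + 1) with hb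
  have ha0 : 0 < a := Real.sqrt_pos.mpr (by linarith)
  have hb0 : 0 < b := Real.sqrt_pos.mpr (by linarith)
  have ha2 : a ^ 2 = n := Real.sq_sqrt (by linarith)
  have hb2 : b ^ 2 = n + 1 := Real.sq_sqrt (by linarith)
  have hab : a ≤ b := Real.sqrt_le_sqrt (by linarith)
  have e1 : (n : ℝ) ^ (-(1 / 2) : ℝ) = 1 / a := by
    rw [Real.rpow_neg (by linarith), ← Real.sqrt_eq_rpow, one_div]
  have e2 : ((n : ℝ) + 1) ^ (-(1 / 2) : ℝ) = 1 / b := by
    rw [Real.rpow_neg (by linarith), ← Real.sqrt_eq_rpow, one_div]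
  have e3 : ((n : ℝ) + 1) ^ (-(3 / 2) : ℝ) = 1 / b ^ 3 := by
    rw [show (-(3 / 2) : ℝ) = (-(1 / 2)) * (3 : ℕ) by norm_num, Real.rpow_mul (by linarith), e2,
      Real.rpow_natCast, div_pow, one_pow]
  rw [e1, e2, e3]
  have h1 : (b - a) * (b + a) = 1 := by ring_nf; rw [ha2, hb2]; ring
  have h2 : 1 / a - 1 / b = (b - a) / (a * b) := by field_simp
  have h3 : b - a = 1 / (b + a) := by field_simp; linarith
  have h4 : 2 * (1 / a) - 2 * (1 / b) = 2 / ((b + a) * (a * b)) := by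
    have : 2 * (1 / a) - 2 * (1 / b) = 2 * (1 / a - 1 / b) := by ring
    rw [this, h2, h3]; field_simp
  rw [h4, div_le_div_iff₀ (by positivity) (by positivity)]
  have : (b + a) * (a * b) ≤ 2 * b ^ 3 := by
    have h5 : b + a ≤ 2 * b := by linarith
    have h6 : a * b ≤ b * b := by nlinarith
    calc (b + a) * (a * b) ≤ (2 * b) * (b * b) := by
          apply mul_le_mul h5 h6 (by positivity) (by positivity)
      _ = _ := by ring
  linarith

theorem tel_sum (N : ℕ) (hN : 1 ≤ N) (K : ℕ) :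
    ∑ k ∈ Finset.range K, ((k + N : ℕ) + 1 : ℝ) ^ (-(3 / 2) : ℝ) ≤ 2 := by
  have h : ∀ K : ℕ, ∑ k ∈ Finset.range K, ((k + N : ℕ) + 1 : ℝ) ^ (-(3 / 2) : ℝ) ≤
      2 * (N : ℝ) ^ (-(1 / 2) : ℝ) - 2 * ((K + N : ℕ) : ℝ) ^ (-(1 / 2) : ℝ) := by
    intro K
    induction K with
    | zero => simp
    | succ K ih =>
      rw [Finset.sum_range_succ]
      have := tel (K + N) (by omega)
      have e : ((K + 1 + N : ℕ) : ℝ) = ((K + N : ℕ) : ℝ) + 1 := by push_cast; ring
      rw [e]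
      linarith
  have h1 := h K
  have h2 : (0 : ℝ) ≤ ((K + N : ℕ) : ℝ) ^ (-(1 / 2) : ℝ) := by positivity
  have h3 : (N : ℝ) ^ (-(1 / 2) : ℝ) ≤ 1 :=
    Real.rpow_le_one_of_one_le_of_nonpos (by exact_mod_cast hN) (by norm_num)
  linarith

theorem GG_bound (N : ℕ) (hN : 1 ≤ N) (s : ℂ) (hs : 5 / 2 ≤ s.re) :
    ‖GG N s‖ ≤ 4 * ((N : ℝ) + 1) ^ (5 / 2 - s.re) := by
  have h1 := cc_LSeries N s (by linarith)
  rw [LSeriesHasSum] at h1
  have hN1 : (1 : ℝ) ≤ N := by exact_mod_cast hN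
  -- subtract the first N+1 terms
  have h2 := (hasSum_nat_add_iff' (N + 1)).mpr h1
  have h3 : ∑ i ∈ Finset.range (N + 1), LSeries.term (fun n => cc N n) s i = 1 := by
    rw [Finset.sum_eq_single 1]
    · rw [LSeries.term_of_ne_zero one_ne_zero, cc_one N hN]; simp
    · intro n hn hn1
      rcases Nat.eq_zero_or_pos n with h0 | hpos
      · simp [h0]
      · rw [LSeries.term_of_ne_zero (by omega), cc_zero' N n (by omega)
          (by have := Finset.mem_range.mp hn; omega), zero_div]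
    · intro h; exact absurd (Finset.mem_range.mpr (by omega)) h
  rw [h3] at h2
  have h4 : AA N s * riemannZeta s - 1 = GG N s := by unfold GG; ring
  rw [h4] at h2
  -- termwise bound
  have hb : ∀ k : ℕ, ‖LSeries.term (fun n => cc N n) s (k + (N + 1))‖ ≤
      ((k + N : ℕ) + 1 : ℝ) ^ (-(3 / 2) : ℝ) * ((N : ℝ) + 1) ^ (5 / 2 - s.re) := by
    intro k
    rw [LSeries.norm_term_eq, if_neg (by omega)]
    have hpos : (0 : ℝ) < ((k + (N + 1) : ℕ) : ℝ) := by positivity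
    have e : ((k + (N + 1) : ℕ) : ℝ) = ((k + N : ℕ) : ℝ) + 1 := by push_cast; ring
    have hc := cc_bound N (k + (N + 1))
    rw [div_le_iff₀ (Real.rpow_pos_of_pos hpos _)]
    refine hc.trans ?_
    rw [e]
    rw [e] at hpos
    set x : ℝ := ((k + N : ℕ) : ℝ) + 1 with hx
    have hx1 : (N : ℝ) + 1 ≤ x := by rw [hx]; push_cast; linarith [(Nat.cast_nonneg k : (0:ℝ) ≤ k)]
    have h5 : x ^ (5 / 2 - s.re) ≤ ((N : ℝ) + 1) ^ (5 / 2 - s.re) :=
      Real.rpow_le_rpow_of_nonpos (by linarith) hx1 (by linarith)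
    calc x = x ^ (-(3 / 2) : ℝ) * x ^ (5 / 2 - s.re) * x ^ s.re := by
          rw [← Real.rpow_add hpos, ← Real.rpow_add hpos]
          ring_nf; rw [Real.rpow_one]
      _ ≤ x ^ (-(3 / 2) : ℝ) * ((N : ℝ) + 1) ^ (5 / 2 - s.re) * x ^ s.re := by gcongr
  have hpp : (0 : ℝ) ≤ ((N : ℝ) + 1) ^ (5 / 2 - s.re) := by positivity
  -- conclude
  have hfin : ∀ K : ℕ, ‖∑ k ∈ Finset.range K, LSeries.term (fun n => cc N n) s (k + (N + 1))‖ ≤
      2 * ((N : ℝ) + 1) ^ (5 / 2 - s.re) := by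
    intro K
    calc _ ≤ ∑ k ∈ Finset.range K, ((k + N : ℕ) + 1 : ℝ) ^ (-(3 / 2) : ℝ) *
          ((N : ℝ) + 1) ^ (5 / 2 - s.re) := norm_sum_le_of_le _ (fun k _ => hb k)
      _ = (∑ k ∈ Finset.range K, ((k + N : ℕ) + 1 : ℝ) ^ (-(3 / 2) : ℝ)) *
          ((N : ℝ) + 1) ^ (5 / 2 - s.re) := by rw [Finset.sum_mul]
      _ ≤ _ := mul_le_mul_of_nonneg_right (tel_sum N hN K) hpp
  have hlim := h2.tendsto_sum_nat.norm
  have := le_of_tendsto hlim (Eventually.of_forall hfin)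
  linarith

end SG
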