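import Pool.Agent.H382R2.Alg

open Complex Filter Topology Set MeasureTheory

namespace SG

namespace SignAux

open AlgAux

lemma Lam_conj_pos {s : ℂ} (hs : 0 < s.re) :
    completedRiemannZeta ((starRingEnd ℂ) s) = (starRingEnd ℂ) (completedRiemannZeta s) := by
  have h0 : s ≠ 0 := by
    intro h
    rw [h] at hs
    simp at hs
  have h0' : (starRingEnd ℂ) s ≠ 0 := by
    rw [map_ne_zero]
    exact h0
  have g1 : Gammaℝ s ≠ 0 := Gammaℝ_ne_zero_of_re_pos hs
  have g2 : Gammaℝ ((starRingEnd ℂ) s) ≠ 0 := Gammaℝ_ne_zero_of_re_pos (by rwa [conj_re])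
  have e1 : completedRiemannZeta s = Gammaℝ s * riemannZeta s := by
    rw [riemannZeta_def_of_ne_zero h0]
    field_simp
  have e2 : completedRiemannZeta ((starRingEnd ℂ) s) =
      Gammaℝ ((starRingEnd ℂ) s) * riemannZeta ((starRingEnd ℂ) s) := by
    rw [riemannZeta_def_of_ne_zero h0']
    field_simp
  rw [e1, e2, GamAux.GR_conj, riemannZeta_conj, map_mul]

lemma Lam_conj (s : ℂ) :
    completedRiemannZeta ((starRingEnd ℂ) s) = (starRingEnd ℂ) (completedRiemannZeta s) := by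
  rcases lt_or_ge 0 s.re with h | h
  · exact Lam_conj_pos h
  · have h1 : 0 < (1 - s).re := by
      rw [sub_re, one_re]
      linarith
    have h2 := Lam_conj_pos h1
    rw [map_sub, map_one, completedRiemannZeta_one_sub, completedRiemannZeta_one_sub] at h2
    exact h2

lemma AA_conj (N : ℕ) (s : ℂ) : AA N ((starRingEnd ℂ) s) = (starRingEnd ℂ) (AA N s) := by
  unfold AA
  rw [map_sum]
  apply Finset.sum_congr rfl
  intro n _
  rw [map_mul]
  congr 1
  · simp
  · have h : (n : ℂ).arg ≠ Real.pi := by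
      rw [Complex.natCast_arg]
      exact Real.pi_pos.ne
    have h2 := Complex.cpow_conj (n : ℂ) (-s) h
    rw [map_neg] at h2
    rw [h2, Complex.conj_natCast]

end SignAux

open SignAux AlgAux

theorem GG_symm (N : ℕ) (s : ℂ) (hs : s ≠ 1) :
    GG N ((starRingEnd ℂ) s) = (starRingEnd ℂ) (GG N s) := by
  unfold GG
  rw [riemannZeta_conj, AA_conj, map_sub, map_mul, map_one]

/-- real on the critical line -/
theorem Lam_real (t : ℝ) : (completedRiemannZeta (1 / 2 + I * t)).im = 0 := by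
  have h := Lam_conj (1 / 2 + I * t)
  have e : (starRingEnd ℂ) (1 / 2 + I * (t : ℂ)) = 1 - (1 / 2 + I * t) := by
    apply Complex.ext
    · simp
      norm_num
    · simp
  rw [e, completedRiemannZeta_one_sub] at h
  exact (Complex.conj_eq_iff_im.mp h.symm)

namespace SignAux

lemma conj_hh3 (δ : ℝ) : (starRingEnd ℂ) (hh δ) = -hh δ := by
  unfold hh
  rw [map_mul, conj_I, conj_ofReal]
  ring

lemma phi_symm (t0 D : ℝ) (s : ℂ) :
    phi t0 D (1 - (starRingEnd ℂ) s) = (starRingEnd ℂ) (phi t0 D s) := by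
  unfold phi
  rw [← Complex.exp_conj]
  congr 1
  simp only [map_div₀, map_pow, map_sub, map_mul, conj_I, conj_ofReal, map_one,
    Complex.conj_ofNat]
  ring

end SignAux

/-- `P(1 - conj s) = conj (P s)` -/
theorem PP_symm (t0 D δ : ℝ) (s : ℂ) (hs : 1 ≤ |s.im|) :
    PP t0 D δ (1 - (starRingEnd ℂ) s) = (starRingEnd ℂ) (PP t0 D δ s) := by
  unfold PP NU LL
  rw [map_div₀, map_mul, map_mul, map_mul, phi_symm, ← GamAux.GR_conj, ← GamAux.GR_conj,
    ← Lam_conj, ← Lam_conj]
  have e1 : (1 : ℂ) - (1 - (starRingEnd ℂ) s) = (starRingEnd ℂ) s := by ring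
  have e2 : (starRingEnd ℂ) (1 - s) = 1 - (starRingEnd ℂ) s := by rw [map_sub, map_one]
  have e3 : completedRiemannZeta (1 - (starRingEnd ℂ) s + hh δ) =
      completedRiemannZeta ((starRingEnd ℂ) (s + hh δ)) := by
    rw [map_add, conj_hh3, ← completedRiemannZeta_one_sub]
    congr 1
    ring
  have e4 : completedRiemannZeta (1 - (starRingEnd ℂ) s - hh δ) =
      completedRiemannZeta ((starRingEnd ℂ) (s - hh δ)) := by
    rw [map_sub, conj_hh3, ← completedRiemannZeta_one_sub]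
    congr 1
    ring
  rw [e1, e2, e3, e4]
  ring

namespace SignAux

/-- sign to the right of a simple zero -/
lemma sign_right (X : ℝ → ℝ) (hX : Continuous X) (a g δ : ℝ) (hδ : 0 < δ)
    (hd : HasDerivAt X a g) (h0 : X g = 0) (ha : 0 < a)
    (hne : ∀ x, g < x → x ≤ g + δ → X x ≠ 0) : 0 < X (g + δ) := by
  -- positive just to the right
  obtain ⟨y, hy1, hy2, hy3⟩ : ∃ y, g < y ∧ y ≤ g + δ ∧ 0 < X y := by
    have h1 := hd.tendsto_slope
    have h2 : ∀ᶠ x in 𝓝[≠] g, 0 < slope X g x := h1.eventually (lt_mem_nhds ha)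
    have h3 : ∀ᶠ x in 𝓝[>] g, 0 < slope X g x :=
      h2.filter_mono (nhdsWithin_mono g (fun x hx => ne_of_gt hx))
    have h4 : ∀ᶠ x in 𝓝[>] g, x ∈ Ioc g (g + δ) :=
      Ioc_mem_nhdsGT (by linarith)
    obtain ⟨y, hy, hy'⟩ := (h3.and h4).exists
    refine ⟨y, hy'.1, hy'.2, ?_⟩
    rw [slope_def_field, h0, sub_zero] at hy
    have : 0 < y - g := by linarith [hy'.1]
    exact (div_pos_iff_of_pos_right this).mp hy
  by_contra hcon
  push Not at hcon
  have hlt : X (g + δ) < 0 := lt_of_le_of_ne hcon (hne _ (by linarith) le_rfl)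
  -- IVT
  have hivt := intermediate_value_Icc' hy2 (hX.continuousOn (s := Icc y (g + δ)))
  obtain ⟨x, hx, hx0⟩ := hivt ⟨hlt.le, hy3.le⟩
  exact hne x (by linarith [hx.1]) hx.2 hx0

lemma sign_right' (X : ℝ → ℝ) (hX : Continuous X) (a g δ : ℝ) (hδ : 0 < δ)
    (hd : HasDerivAt X a g) (h0 : X g = 0) (ha : a ≠ 0)
    (hne : ∀ x, g < x → x ≤ g + δ → X x ≠ 0) : 0 < X (g + δ) * a := by
  rcases lt_or_gt_of_ne ha with h | h
  · have := sign_right (fun x => -X x) hX.neg (-a) g δ hδ hd.neg (by simp only [h0, neg_zero])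
      (by linarith) (fun x h1 h2 h3 => hne x h1 h2 (neg_eq_zero.mp h3))
    nlinarith
  · have := sign_right X hX a g δ hδ hd h0 h hne
    positivity

lemma sign_left' (X : ℝ → ℝ) (hX : Continuous X) (a g δ : ℝ) (hδ : 0 < δ)
    (hd : HasDerivAt X a g) (h0 : X g = 0) (ha : a ≠ 0)
    (hne : ∀ x, g - δ ≤ x → x < g → X x ≠ 0) : X (g - δ) * a < 0 := by
  have hd2 : HasDerivAt (fun x => X (-x)) (-a) (-g) := by
    have h1 : HasDerivAt X a (-(-g)) := by rwa [neg_neg]
    have := HasDerivAt.comp (-g) h1 (hasDerivAt_neg (-g))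
    simpa [Function.comp_def] using this
  have := sign_right' (fun x => X (-x)) (hX.comp continuous_neg) (-a) (-g) δ hδ hd2
    (by simp only [neg_neg, h0]) (neg_ne_zero.mpr ha)
    (fun x h1 h2 => hne (-x) (by linarith) (by linarith))
  rw [show -(-g + δ) = g - δ by ring] at this
  linarith

end SignAux

/-- residues at the two nodes attached to a separated simple zero `1/2 + iγ` -/
theorem res_sign (t0 D δ g : ℝ) (hδ : 0 < δ) (hδ1 : δ ≤ 1) (hg : 10 ≤ g)
    (hz : riemannZeta (1 / 2 + I * g) = 0) (hs : deriv riemannZeta (1 / 2 + I * g) ≠ 0)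
    (hsep : ∀ g' : ℝ, riemannZeta (1 / 2 + I * g') = 0 → g' ≠ g → δ < |g' - g|) :
    (∃ v : ℝ, 0 < v ∧ deriv (LL δ) (1 / 2 + I * g + hh δ) ≠ 0 ∧
      NU t0 D (1 / 2 + I * g + hh δ) / deriv (LL δ) (1 / 2 + I * g + hh δ) = I * v) ∧
    (∃ v : ℝ, 0 < v ∧ deriv (LL δ) (1 / 2 + I * g - hh δ) ≠ 0 ∧
      NU t0 D (1 / 2 + I * g - hh δ) / deriv (LL δ) (1 / 2 + I * g - hh δ) = -(I * v)) := by
  set Λ := completedRiemannZeta with hΛ
  set X : ℝ → ℝ := fun t => (Λ (1 / 2 + I * t)).re with hX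
  have hXeq : ∀ t : ℝ, Λ (1 / 2 + I * t) = (X t : ℂ) := by
    intro t
    apply Complex.ext
    · simp [hX]
    · rw [ofReal_im]
      exact Lam_real t
  have hre : ∀ t : ℝ, (1 / 2 + I * (t : ℂ)).re = 1 / 2 := by
    intro t
    simp
  have him : ∀ t : ℝ, (1 / 2 + I * (t : ℂ)).im = t := by
    intro t
    simp
  have hne0 : ∀ t : ℝ, (1 / 2 + I * (t : ℂ)) ≠ 0 := by
    intro t h
    have := congrArg re h
    rw [hre] at this
    norm_num at this
  have hne1 : ∀ t : ℝ, (1 / 2 + I * (t : ℂ)) ≠ 1 := by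
    intro t h
    have := congrArg re h
    rw [hre] at this
    norm_num at this
  have hdiff : ∀ t : ℝ, DifferentiableAt ℂ Λ (1 / 2 + I * t) := fun t =>
    differentiableAt_completedZeta (hne0 t) (hne1 t)
  have hGne : ∀ t : ℝ, Gammaℝ (1 / 2 + I * t) ≠ 0 := fun t =>
    Gammaℝ_ne_zero_of_re_pos (by rw [hre]; norm_num)
  have hzX : ∀ t : ℝ, X t = 0 ↔ riemannZeta (1 / 2 + I * t) = 0 := by
    intro t
    rw [riemannZeta_def_of_ne_zero (hne0 t), div_eq_zero_iff]
    constructor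
    · intro h
      left
      have := hXeq t
      rw [h, ofReal_zero] at this
      exact this
    · rintro (h | h)
      · have := hXeq t
        rw [show Λ (1 / 2 + I * t) = 0 from h] at this
        exact_mod_cast this.symm
      · exact absurd h (hGne t)
  have hXc : Continuous X := by
    rw [continuous_iff_continuousAt]
    intro t
    have h1 : ContinuousAt (fun t : ℝ => Λ (1 / 2 + I * t)) t := by
      apply ContinuousAt.comp (g := Λ) (f := fun t : ℝ => (1 / 2 + I * (t : ℂ))) (hdiff t).continuousAt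
      fun_prop
    exact Complex.continuous_re.continuousAt.comp h1
  -- derivative
  set L' := deriv Λ (1 / 2 + I * g) with hL'
  have hder : HasDerivAt (fun t : ℝ => Λ (1 / 2 + I * t)) (L' * I) g := by
    have h1 : HasDerivAt Λ L' (1 / 2 + I * g) := (hdiff g).hasDerivAt
    have h2 : HasDerivAt (fun t : ℝ => (1 / 2 + I * (t : ℂ))) I g := by
      have := ((Complex.ofRealCLM.hasDerivAt (x := g)).const_mul I).const_add (1 / 2 : ℂ)
      simpa using this
    exact HasDerivAt.comp g h1 h2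
  set a : ℝ := (L' * I).re with ha
  have hderX : HasDerivAt X a g := by
    have h3 := (Complex.reCLM.hasFDerivAt (x := Λ (1 / 2 + I * g))).comp_hasDerivAt g hder
    exact h3
  have hLI : L' * I = (a : ℂ) := by
    have h4 : HasDerivAt (fun t : ℝ => (X t : ℂ)) (a : ℂ) g := hderX.ofReal_comp
    have h5 : (fun t : ℝ => Λ (1 / 2 + I * t)) = fun t : ℝ => (X t : ℂ) := by
      funext t
      exact hXeq t
    rw [h5] at hder
    exact hder.unique h4
  have hL'eq : L' = -(I * a) := by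
    rw [← hLI]
    linear_combination L' * I_mul_I
  have hX0 : X g = 0 := (hzX g).mpr hz
  have hL'ne : L' ≠ 0 := by
    intro h
    apply hs
    have e : riemannZeta =ᶠ[𝓝 (1 / 2 + I * (g : ℂ))] fun s => Λ s / Gammaℝ s := by
      filter_upwards [isOpen_ne.mem_nhds (hne0 g)] with s hs'
      exact riemannZeta_def_of_ne_zero hs'
    have hG : DifferentiableAt ℂ (fun s => (Gammaℝ s)⁻¹) (1 / 2 + I * (g : ℂ)) :=
      differentiable_Gammaℝ_inv.differentiableAt
    have h6 : HasDerivAt (fun s => Λ s * (Gammaℝ s)⁻¹)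
        (L' * (Gammaℝ (1 / 2 + I * g))⁻¹ +
          Λ (1 / 2 + I * g) * deriv (fun s => (Gammaℝ s)⁻¹) (1 / 2 + I * g))
        (1 / 2 + I * g) := (hdiff g).hasDerivAt.mul hG.hasDerivAt
    rw [e.deriv_eq]
    have h7 : (fun s => Λ s / Gammaℝ s) = fun s => Λ s * (Gammaℝ s)⁻¹ := by
      funext s
      rw [div_eq_mul_inv]
    rw [h7, h6.deriv, h, hXeq g, hX0]
    simp
  have ha0 : a ≠ 0 := by
    intro h
    apply hL'ne
    rw [hL'eq, h]
    simp
  have hXr : ∀ x, g < x → x ≤ g + δ → X x ≠ 0 := by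
    intro x h1 h2 h3
    have := hsep x ((hzX x).mp h3) (ne_of_gt h1)
    rw [abs_of_pos (by linarith)] at this
    linarith
  have hXl : ∀ x, g - δ ≤ x → x < g → X x ≠ 0 := by
    intro x h1 h2 h3
    have := hsep x ((hzX x).mp h3) (ne_of_lt h2)
    rw [abs_of_neg (by linarith)] at this
    linarith
  have sr := sign_right' X hXc a g δ hδ hderX hX0 ha0 hXr
  have sl := sign_left' X hXc a g δ hδ hderX hX0 ha0 hXl
  -- positivity of NU
  have hNU : ∀ y : ℝ, ∃ p : ℝ, 0 < p ∧ NU t0 D (1 / 2 + I * y) = (p : ℂ) := by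
    intro y
    refine ⟨Real.exp (-(y - t0) ^ 2 / (2 * D ^ 2)) * ‖Gammaℝ (1 / 2 + I * y)‖ ^ 2, ?_, ?_⟩
    · have := norm_pos_iff.mpr (hGne y)
      positivity
    · unfold NU phi
      have e1 : (1 : ℂ) - (1 / 2 + I * y) = (starRingEnd ℂ) (1 / 2 + I * y) := by
        apply Complex.ext
        · simp
          norm_num
        · simp
      rw [e1, GamAux.GR_conj, Complex.mul_conj, Complex.normSq_eq_norm_sq]
      have e2 : (1 / 2 + I * (y : ℂ) - 1 / 2 - I * t0) ^ 2 / (2 * (D : ℂ) ^ 2) =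
          ((-(y - t0) ^ 2 / (2 * D ^ 2) : ℝ) : ℂ) := by
        push_cast
        rw [show (1 / 2 + I * (y : ℂ) - 1 / 2 - I * t0) ^ 2 = (I * I) * ((y : ℂ) - t0) ^ 2 by ring,
          I_mul_I]
        ring
      rw [e2]
      push_cast
      rfl
  -- points
  have p1 : 1 / 2 + I * (g : ℂ) + hh δ = 1 / 2 + I * ((g + δ / 2 : ℝ) : ℂ) := by
    unfold hh
    push_cast
    ring
  have p2 : 1 / 2 + I * (g : ℂ) - hh δ = 1 / 2 + I * ((g - δ / 2 : ℝ) : ℂ) := by
    unfold hh
    push_cast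
    ring
  have p3 : 1 / 2 + I * (g : ℂ) + hh δ + hh δ = 1 / 2 + I * ((g + δ : ℝ) : ℂ) := by
    unfold hh
    push_cast
    ring
  have p4 : 1 / 2 + I * (g : ℂ) - hh δ - hh δ = 1 / 2 + I * ((g - δ : ℝ) : ℂ) := by
    unfold hh
    push_cast
    ring
  -- derivative of LL at the two nodes
  have dshift : ∀ (w s : ℂ), DifferentiableAt ℂ Λ (s + w) →
      HasDerivAt (fun z => Λ (z + w)) (deriv Λ (s + w)) s := by
    intro w s h
    have := HasDerivAt.comp s h.hasDerivAt ((hasDerivAt_id s).add_const w)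
    simpa [Function.comp_def] using this
  have d1 : deriv (LL δ) (1 / 2 + I * g + hh δ) = (X (g + δ) : ℂ) * L' := by
    have k1 : DifferentiableAt ℂ Λ (1 / 2 + I * g + hh δ + hh δ) := by
      rw [p3]
      exact hdiff _
    have k2 : DifferentiableAt ℂ Λ (1 / 2 + I * g + hh δ + -hh δ) := by
      rw [← sub_eq_add_neg, add_sub_cancel_right]
      exact hdiff _
    have := (dshift (hh δ) _ k1).mul (dshift (-hh δ) _ k2)
    have e : LL δ = fun z => Λ (z + hh δ) * Λ (z + -hh δ) := by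
      funext z
      unfold LL
      rw [← sub_eq_add_neg]
    rw [e]
    have h8 := this.deriv
    rw [show ((fun z => Λ (z + hh δ)) * fun z => Λ (z + -hh δ)) =
      fun z => Λ (z + hh δ) * Λ (z + -hh δ) from rfl] at h8
    rw [h8, p3, ← sub_eq_add_neg, add_sub_cancel_right, hXeq g, hX0, hXeq]
    simp [hL']
  have d2 : deriv (LL δ) (1 / 2 + I * g - hh δ) = (X (g - δ) : ℂ) * L' := by
    have k1 : DifferentiableAt ℂ Λ (1 / 2 + I * g - hh δ + hh δ) := by
      rw [sub_add_cancel]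
      exact hdiff _
    have k2 : DifferentiableAt ℂ Λ (1 / 2 + I * g - hh δ + -hh δ) := by
      rw [← sub_eq_add_neg, p4]
      exact hdiff _
    have := (dshift (hh δ) _ k1).mul (dshift (-hh δ) _ k2)
    have e : LL δ = fun z => Λ (z + hh δ) * Λ (z + -hh δ) := by
      funext z
      unfold LL
      rw [← sub_eq_add_neg]
    rw [e]
    have h8 := this.deriv
    rw [show ((fun z => Λ (z + hh δ)) * fun z => Λ (z + -hh δ)) =
      fun z => Λ (z + hh δ) * Λ (z + -hh δ) from rfl] at h8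
    rw [h8, sub_add_cancel, ← sub_eq_add_neg, p4, hXeq g, hX0, hXeq]
    simp [hL', mul_comm]
  have haC : (a : ℂ) ≠ 0 := by exact_mod_cast ha0
  constructor
  · obtain ⟨p, hp, hpe⟩ := hNU (g + δ / 2)
    have hXne : X (g + δ) ≠ 0 := hXr _ (by linarith) le_rfl
    have hXC : (X (g + δ) : ℂ) ≠ 0 := by exact_mod_cast hXne
    refine ⟨p / (X (g + δ) * a), div_pos hp sr, ?_, ?_⟩
    · rw [d1]
      exact mul_ne_zero hXC hL'ne
    · rw [d1, p1, hpe, hL'eq]
      push_cast
      rw [div_eq_iff (by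
        apply mul_ne_zero hXC
        exact neg_ne_zero.mpr (mul_ne_zero I_ne_zero haC))]
      field_simp
      linear_combination (p : ℂ) * I_sq
  · obtain ⟨p, hp, hpe⟩ := hNU (g - δ / 2)
    have hXne : X (g - δ) ≠ 0 := hXl _ le_rfl (by linarith)
    have hXC : (X (g - δ) : ℂ) ≠ 0 := by exact_mod_cast hXne
    refine ⟨-(p / (X (g - δ) * a)), ?_, ?_, ?_⟩
    · have : p / (X (g - δ) * a) < 0 := div_neg_of_pos_of_neg hp sl
      linarith
    · rw [d2]
      exact mul_ne_zero hXC hL'ne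
    · rw [d2, p2, hpe, hL'eq]
      push_cast
      rw [div_eq_iff (by
        apply mul_ne_zero hXC
        exact neg_ne_zero.mpr (mul_ne_zero I_ne_zero haC))]
      field_simp
      linear_combination (p : ℂ) * I_sq

end SG
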