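import Pool.Agent.H437R2.A2

set_option autoImplicit false

open MeasureTheory Filter Topology Set Metric

namespace SG

open Pool.Agent.H437R2

/-- Borel-Carathéodory lower bound for the zero-free part. -/
theorem entire_lower (F : ℂ → ℂ) (hF : Differentiable ℂ F) (c : ℂ) {R1 R2 M : ℝ}
    (hR1 : 0 < R1) (hR : R1 < R2) (hFc : F c ≠ 0) (hM : ∀ z ∈ closedBall c R2, ‖F z‖ ≤ M) :
    ∃ (L : List ℂ) (G : ℂ → ℂ), (∀ ρ ∈ L, F ρ = 0 ∧ ρ ∈ closedBall c R1) ∧
      Differentiable ℂ G ∧ (∀ v, F v = (L.map (fun r => v - r)).prod * G v) ∧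
      ‖F c‖ ≤ R1 ^ L.length * ‖G c‖ ∧
      ∀ r : ℝ, 0 < r → r < R1 → ∀ z ∈ closedBall c r,
        ‖G c‖ * Real.exp (-(2 * (Real.log (M / ‖F c‖) + L.length * |Real.log (R1 / (R2 - R1))| + 1)
          * r / (R1 - r))) ≤ ‖G z‖ := by
  have hR2 : 0 < R2 := hR1.trans hR
  have hR21 : 0 < R2 - R1 := sub_pos.2 hR
  have hFc0 : 0 < ‖F c‖ := norm_pos_iff.2 hFc
  have hMc : ‖F c‖ ≤ M := hM c (mem_closedBall_self hR2.le)
  have hM0 : 0 < M := hFc0.trans_le hMc
  obtain ⟨L, G, hL1, hL2, hG, hGK, hFG⟩ :=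
    entire_factor F hF ⟨c, hFc⟩ (closedBall c R1) (isCompact_closedBall c R1)
  set n := L.length with hn
  have hGc : G c ≠ 0 := hGK c (mem_closedBall_self hR1.le)
  have hGc0 : 0 < ‖G c‖ := norm_pos_iff.2 hGc
  have hprodnorm : ∀ v : ℂ, ‖F v‖ = (L.map (fun ρ => ‖v - ρ‖)).prod * ‖G v‖ := by
    intro v
    rw [hFG v, norm_mul, norm_list_prod, List.map_map]
    rfl
  have hFcle : ‖F c‖ ≤ R1 ^ n * ‖G c‖ := by
    rw [hprodnorm c]
    refine mul_le_mul_of_nonneg_right (list_prod_le_pow L _ R1 (fun _ _ => norm_nonneg _) ?_).1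
      (norm_nonneg _)
    intro ρ hρ
    have := (hL1 ρ hρ).2
    rw [mem_closedBall, dist_eq_norm] at this
    rwa [norm_sub_rev]
  have hGsup : ∀ z ∈ closedBall c R2, ‖G z‖ ≤ M / (R2 - R1) ^ n := by
    intro z hz
    have hs : ∀ z ∈ frontier (ball c R2), ‖G z‖ ≤ M / (R2 - R1) ^ n := by
      intro z hz
      rw [frontier_ball c hR2.ne', mem_sphere, dist_eq_norm] at hz
      rw [le_div_iff₀ (pow_pos hR21 n)]
      have h1 : (R2 - R1) ^ n ≤ (L.map (fun ρ => ‖z - ρ‖)).prod := by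
        refine pow_le_list_prod L _ _ hR21.le ?_
        intro ρ hρ
        have h2 := (hL1 ρ hρ).2
        rw [mem_closedBall, dist_eq_norm] at h2
        have h3 : ‖z - c‖ ≤ ‖z - ρ‖ + ‖ρ - c‖ := by
          have := norm_add_le (z - ρ) (ρ - c)
          rwa [sub_add_sub_cancel] at this
        linarith
      calc ‖G z‖ * (R2 - R1) ^ n ≤ ‖G z‖ * (L.map (fun ρ => ‖z - ρ‖)).prod := by gcongr
        _ = ‖F z‖ := by rw [hprodnorm z, mul_comm]
        _ ≤ M := hM z (by rw [mem_closedBall, dist_eq_norm]; exact hz.le)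
    refine Complex.norm_le_of_forall_mem_frontier_norm_le isBounded_ball
      (hG.diffContOnCl (s := ball c R2)) hs ?_
    rwa [closure_ball c hR2.ne']
  have hqd : DifferentiableOn ℂ (fun z => deriv G z / G z) (ball c R1) := by
    intro z hz
    have hGz := hGK z (ball_subset_closedBall hz)
    have h1 : DifferentiableAt ℂ (deriv G) z := (hG.analyticAt z).deriv.differentiableAt
    exact (h1.div (hG z) hGz).differentiableWithinAt
  obtain ⟨h, hc0, hh⟩ := hqd.isExactOn_ball.with_val_at c 0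
  have hexp : ∀ z ∈ ball c R1, G z = G c * Complex.exp (h z) := by
    have hconst : ∀ z ∈ ball c R1, G z * Complex.exp (-h z) = G c * Complex.exp (-h c) := by
      intro z hz
      have hd : ∀ w ∈ ball c R1, HasDerivAt (fun w => G w * Complex.exp (-h w)) 0 w := by
        intro w hw
        have h1 : HasDerivAt (fun w => G w * Complex.exp (-h w))
            (deriv G w * Complex.exp (-h w) + G w * (Complex.exp (-h w) * -(deriv G w / G w))) w :=
          (hG w).hasDerivAt.mul (hh w hw).neg.cexp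
        have hGw := hGK w (ball_subset_closedBall hw)
        have h2 : deriv G w * Complex.exp (-h w) + G w * (Complex.exp (-h w) * -(deriv G w / G w)) = 0 := by
          field_simp
          ring
        rw [h2] at h1
        exact h1
      exact isOpen_ball.is_const_of_deriv_eq_zero (isConnected_ball hR1).isPreconnected
        (fun w hw => (hd w hw).differentiableAt.differentiableWithinAt)
        (fun w hw => (hd w hw).deriv) hz (mem_ball_self hR1)
    intro z hz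
    have h1 := hconst z hz
    rw [hc0, neg_zero, Complex.exp_zero, mul_one] at h1
    rw [← h1, mul_assoc, ← Complex.exp_add]
    simp
  set Λ : ℝ := Real.log (M / ‖F c‖) + n * |Real.log (R1 / (R2 - R1))| + 1 with hΛ
  have hlog0 : 0 ≤ Real.log (M / ‖F c‖) := Real.log_nonneg ((one_le_div hFc0).2 hMc)
  have hΛ0 : 0 < Λ := by positivity
  have hre : ∀ z ∈ ball c R1, (h z).re ≤ Λ := by
    intro z hz
    have h1 : Real.exp ((h z).re) = ‖G z‖ / ‖G c‖ := by
      rw [hexp z hz, norm_mul, Complex.norm_exp, mul_div_cancel_left₀ _ hGc0.ne']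
    have h2 : ‖G z‖ ≤ M / (R2 - R1) ^ n :=
      hGsup z (closedBall_subset_closedBall hR.le (ball_subset_closedBall hz))
    have h3 : ‖G z‖ / ‖G c‖ ≤ M / ‖F c‖ * (R1 / (R2 - R1)) ^ n := by
      rw [div_le_iff₀ hGc0, div_pow]
      calc ‖G z‖ ≤ M / (R2 - R1) ^ n := h2
        _ = M / ‖F c‖ * (1 / (R2 - R1) ^ n) * ‖F c‖ := by field_simp
        _ ≤ M / ‖F c‖ * (1 / (R2 - R1) ^ n) * (R1 ^ n * ‖G c‖) := by gcongr
        _ = M / ‖F c‖ * (R1 ^ n / (R2 - R1) ^ n) * ‖G c‖ := by ring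
    have h4 : Real.exp ((h z).re) ≤ Real.exp (Real.log (M / ‖F c‖) + n * Real.log (R1 / (R2 - R1))) := by
      rw [h1, Real.exp_add, Real.exp_log (by positivity), Real.exp_nat_mul,
        Real.exp_log (by positivity)]
      exact h3
    have h5 := Real.exp_le_exp.1 h4
    have h6 : (n:ℝ) * Real.log (R1 / (R2 - R1)) ≤ n * |Real.log (R1 / (R2 - R1))| := by
      gcongr
      exact le_abs_self _
    linarith
  refine ⟨L, G, hL1, hG, hFG, hFcle, ?_⟩
  intro r hr hrR z hz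
  rw [mem_closedBall, dist_eq_norm] at hz
  have h1 : DifferentiableOn ℂ (fun w => h (c + w)) (ball 0 R1) := by
    intro w hw
    have hcw : c + w ∈ ball c R1 := by
      rw [mem_ball, dist_eq_norm, add_sub_cancel_left]
      simpa using hw
    have := (hh (c + w) hcw).differentiableAt
    exact (this.comp w (by fun_prop : DifferentiableAt ℂ (fun w => c + w) w)).differentiableWithinAt
  have h2 : MapsTo (fun w => h (c + w)) (ball 0 R1) {z | z.re ≤ Λ} := by
    intro w hw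
    have hcw : c + w ∈ ball c R1 := by
      rw [mem_ball, dist_eq_norm, add_sub_cancel_left]
      simpa using hw
    exact hre _ hcw
  have h3 : z - c ∈ ball (0:ℂ) R1 := by
    rw [mem_ball, dist_zero_right]
    linarith
  have h4 := Complex.borelCaratheodory_zero hΛ0 h1 h2 hR1 h3 (by simp [hc0])
  simp only [add_sub_cancel] at h4
  have h5 : 0 < R1 - ‖z - c‖ := by linarith
  have h6 : 0 < R1 - r := by linarith
  have h7 : ‖h z‖ ≤ 2 * Λ * r / (R1 - r) := by
    refine h4.trans ?_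
    gcongr
  have hzb : z ∈ ball c R1 := by
    rw [mem_ball, dist_eq_norm]; linarith
  rw [hexp z hzb, norm_mul, Complex.norm_exp]
  have h8 : -(2 * Λ * r / (R1 - r)) ≤ (h z).re := by
    have h9 := Complex.abs_re_le_norm (h z)
    have := (abs_le.1 (h9.trans h7)).1
    linarith
  gcongr

lemma z1_growth {z : ℂ} (hz : 1 / 10 ≤ z.re) :
    ‖riemannZeta₁ z‖ ≤ 11 * (‖z‖ + 1) ^ 2 := by
  have h0 : 0 < z.re := by linarith
  rw [z1_eq h0]
  unfold Zt
  have h1 := Hf_norm_le h0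
  have h2 : 1 / z.re ≤ 10 := by
    rw [div_le_iff₀ h0]; linarith
  have h3 : ‖Hf z‖ ≤ 10 := h1.trans h2
  have h4 : ‖z - 1‖ ≤ ‖z‖ + 1 := by
    have := norm_sub_le z 1
    simpa using this
  calc ‖z - z * (z - 1) * Hf z‖ ≤ ‖z‖ + ‖z * (z - 1) * Hf z‖ := norm_sub_le _ _
    _ = ‖z‖ + ‖z‖ * ‖z - 1‖ * ‖Hf z‖ := by rw [norm_mul, norm_mul]
    _ ≤ ‖z‖ + ‖z‖ * (‖z‖ + 1) * 10 := by gcongr
    _ ≤ 11 * (‖z‖ + 1) ^ 2 := by
      have := norm_nonneg z
      nlinarith

/-- counting separated points -/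
lemma count_sep (L : List ℂ) (t k w : ℝ) (hk : 0 < k) (hw : 0 ≤ w) (hnd : L.Nodup)
    (hre : ∀ ρ ∈ L, |ρ.im - t| ≤ w)
    (hsep : ∀ ρ ∈ L, ∀ ρ' ∈ L, ρ ≠ ρ' → k ≤ |ρ.im - ρ'.im|) :
    (L.length : ℝ) ≤ 2 * w / k + 1 := by
  classical
  set S := L.toFinset with hS
  have hcard : S.card = L.length := List.toFinset_card_of_nodup hnd
  have hmap : ∀ ρ ∈ S, ⌊(ρ.im - (t - w)) / k⌋₊ ∈ Finset.range (⌊2 * w / k⌋₊ + 1) := by
    intro ρ hρ
    rw [hS, List.mem_toFinset] at hρ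
    have h1 := abs_le.1 (hre ρ hρ)
    rw [Finset.mem_range]
    have h2 : (ρ.im - (t - w)) / k ≤ 2 * w / k := by
      gcongr
      linarith [h1.2]
    have := Nat.floor_le_floor h2
    omega
  have hinj : ∀ ρ ∈ S, ∀ ρ' ∈ S, ⌊(ρ.im - (t - w)) / k⌋₊ = ⌊(ρ'.im - (t - w)) / k⌋₊ → ρ = ρ' := by
    intro ρ hρ ρ' hρ' he
    rw [hS, List.mem_toFinset] at hρ hρ'
    by_contra hne
    have h0 := hsep ρ hρ ρ' hρ' hne
    have h1 := abs_le.1 (hre ρ hρ)
    have h2 := abs_le.1 (hre ρ' hρ')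
    have p1 : 0 ≤ (ρ.im - (t - w)) / k := by
      apply div_nonneg _ hk.le
      linarith [h1.1]
    have p2 : 0 ≤ (ρ'.im - (t - w)) / k := by
      apply div_nonneg _ hk.le
      linarith [h2.1]
    have a1 := Nat.floor_le p1
    have a2 := Nat.lt_floor_add_one ((ρ.im - (t - w)) / k)
    have b1 := Nat.floor_le p2
    have b2 := Nat.lt_floor_add_one ((ρ'.im - (t - w)) / k)
    rw [he] at a1 a2
    have c1 : |(ρ.im - (t - w)) / k - (ρ'.im - (t - w)) / k| < 1 := by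
      rw [abs_lt]; constructor <;> linarith
    have c2 : (ρ.im - (t - w)) / k - (ρ'.im - (t - w)) / k = (ρ.im - ρ'.im) / k := by ring
    rw [c2, abs_div, abs_of_pos hk, div_lt_one hk] at c1
    linarith
  have hle := Finset.card_le_card_of_injOn _ hmap (fun a ha b hb h => hinj a ha b hb h)
  rw [Finset.card_range, hcard] at hle
  have h3 : (L.length : ℝ) ≤ (⌊2 * w / k⌋₊ : ℝ) + 1 := by exact_mod_cast hle
  have h4 := Nat.floor_le (show 0 ≤ 2 * w / k by positivity)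
  linarith

lemma nodup_of_simple (L : List ℂ) (F G : ℂ → ℂ) (hG : Differentiable ℂ G)
    (hFG : ∀ v, F v = (L.map (fun r => v - r)).prod * G v)
    (hs : ∀ ρ ∈ L, deriv F ρ ≠ 0) : L.Nodup := by
  by_contra hnd
  obtain ⟨x, hx⟩ := List.exists_duplicate_iff_not_nodup.2 hnd
  have hxL : x ∈ L := hx.mem
  obtain ⟨l, hl⟩ := (List.duplicate_iff_sublist.1 hx).exists_perm_append
  apply hs x hxL
  have hF : F = fun v => (v - x) * ((v - x) * ((l.map (fun r => v - r)).prod * G v)) := by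
    funext v
    rw [hFG v, (hl.map (fun r => v - r)).prod_eq]
    simp only [List.cons_append, List.nil_append, List.map_cons, List.prod_cons]
    ring
  have hK : Differentiable ℂ (fun v : ℂ => (l.map (fun r => v - r)).prod * G v) := by
    refine Differentiable.mul ?_ hG
    clear hl hF
    induction l with
    | nil => simp
    | cons a l ih =>
      simp only [List.map_cons, List.prod_cons]
      exact (differentiable_id.sub_const a).mul ih
  rw [hF]
  have h1 : HasDerivAt (fun v : ℂ => v - x) 1 x := (hasDerivAt_id x).sub_const x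
  have h2 := h1.mul (h1.mul (hK x).hasDerivAt)
  refine h2.deriv.trans ?_
  simp

/-- lower bound for zeta away from zeros, when the zeros nearby are separated -/
theorem zeta_lower : ∃ C t1 : ℝ, 1 ≤ C ∧ 10 ≤ t1 ∧ ∀ t k : ℝ, t1 ≤ t → 0 < k → k ≤ 1 / 2 →
    (∀ s : ℂ, 0 < s.re → s.re < 1 → |s.im - t| ≤ 2 → riemannZeta s = 0 →
      s.re = 1 / 2 ∧ deriv riemannZeta s ≠ 0 ∧ k ≤ |s.im - t|) →
    (∀ s s' : ℂ, 0 < s.re → s.re < 1 → |s.im - t| ≤ 2 → riemannZeta s = 0 →
      0 < s'.re → s'.re < 1 → |s'.im - t| ≤ 2 → riemannZeta s' = 0 → s ≠ s' →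
      k ≤ |s.im - s'.im|) →
    ∀ σ : ℝ, 1 / 2 ≤ σ → σ ≤ 5 / 2 →
      Real.exp (-C * (Real.log t + 1 / k * Real.log (1 / k))) ≤ ‖riemannZeta (⟨σ, t⟩ : ℂ)‖ := by
  refine ⟨300, 10, by norm_num, le_refl _, ?_⟩
  intro t k ht hk hk2 hz1 hz2 σ hσ1 hσ2
  have ht0 : 0 < t := by linarith
  set c : ℂ := 2 + t * Complex.I with hc
  have hcre : c.re = 2 := by simp [hc]
  have hcim : c.im = t := by simp [hc]
  have hFlow := z1_lower t
  rw [← hc] at hFlow
  have hFc : riemannZeta₁ c ≠ 0 := by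
    intro h
    rw [h, norm_zero] at hFlow
    norm_num at hFlow
  have hM : ∀ z ∈ closedBall c (19 / 10), ‖riemannZeta₁ z‖ ≤ 25 * t ^ 2 := by
    intro z hz
    rw [mem_closedBall, dist_eq_norm] at hz
    have hre : 1 / 10 ≤ z.re := by
      have h1 := (Complex.abs_re_le_norm (z - c)).trans hz
      rw [Complex.sub_re, hcre] at h1
      have := (abs_le.1 h1).1
      linarith
    refine (z1_growth hre).trans ?_
    have hcn : ‖c‖ ≤ 2 + t := by
      rw [hc]
      refine (norm_add_le _ _).trans ?_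
      rw [norm_mul, Complex.norm_I, mul_one, Complex.norm_real, Real.norm_of_nonneg ht0.le]
      simp
    have h3 : ‖z‖ ≤ 19 / 10 + (2 + t) := by
      have := norm_add_le (z - c) c
      rw [sub_add_cancel] at this
      linarith
    have h4 : ‖z‖ + 1 ≤ 3 / 2 * t := by linarith
    have h5 : (‖z‖ + 1) ^ 2 ≤ (3 / 2 * t) ^ 2 := by
      have := norm_nonneg z
      gcongr
    nlinarith [sq_nonneg t]
  obtain ⟨L, G, hL, hG, hFG, hFcG, hlow⟩ := entire_lower riemannZeta₁ differentiable_riemannZeta₁ c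
    (R1 := 9 / 5) (R2 := 19 / 10) (by norm_num) (by norm_num) hFc hM
  -- facts on the zeros
  have hzero : ∀ ρ ∈ L, riemannZeta ρ = 0 ∧ 0 < ρ.re ∧ ρ.re < 1 ∧ |ρ.im - t| ≤ 9 / 5 := by
    intro ρ hρ
    obtain ⟨h1, h2⟩ := hL ρ hρ
    rw [mem_closedBall, dist_eq_norm] at h2
    have h3 := (Complex.abs_re_le_norm (ρ - c)).trans h2
    have h4 := (Complex.abs_im_le_norm (ρ - c)).trans h2
    rw [Complex.sub_re, hcre] at h3
    rw [Complex.sub_im, hcim] at h4
    have := (abs_le.1 h3).1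
    exact ⟨z1_zero_zeta h1, by linarith, z1_zero_re h1, h4⟩
  have hprop : ∀ ρ ∈ L, ρ.re = 1 / 2 ∧ deriv riemannZeta ρ ≠ 0 ∧ k ≤ |ρ.im - t| := by
    intro ρ hρ
    obtain ⟨h1, h2, h3, h4⟩ := hzero ρ hρ
    exact hz1 ρ h2 h3 (by linarith) h1
  have hne1 : ∀ ρ ∈ L, ρ ≠ 1 := by
    intro ρ hρ h
    have := (hprop ρ hρ).1
    rw [h] at this
    norm_num at this
  have hderiv : ∀ ρ ∈ L, deriv riemannZeta₁ ρ ≠ 0 := by
    intro ρ hρ
    have h1 : riemannZeta₁ =ᶠ[𝓝 ρ] fun s => (s - 1) * riemannZeta s := by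
      filter_upwards [isOpen_ne.mem_nhds (hne1 ρ hρ)] with s hs
      exact z1_of_ne hs
    rw [h1.deriv_eq]
    have h2 : HasDerivAt (fun s : ℂ => s - 1) 1 ρ := (hasDerivAt_id ρ).sub_const 1
    have h3 := h2.mul (differentiableAt_riemannZeta (hne1 ρ hρ)).hasDerivAt
    have h4 : deriv (fun s => (s - 1) * riemannZeta s) ρ =
        1 * riemannZeta ρ + (ρ - 1) * deriv riemannZeta ρ := h3.deriv
    rw [h4, (hzero ρ hρ).1, mul_zero, zero_add]
    exact mul_ne_zero (sub_ne_zero.2 (hne1 ρ hρ)) (hprop ρ hρ).2.1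
  have hnd : L.Nodup := nodup_of_simple L riemannZeta₁ G hG hFG hderiv
  have hcount : (L.length : ℝ) ≤ 2 * (9 / 5) / k + 1 := by
    refine count_sep L t k (9 / 5) hk (by norm_num) hnd (fun ρ hρ => (hzero ρ hρ).2.2.2) ?_
    intro ρ hρ ρ' hρ' hne
    obtain ⟨a1, a2, a3, a4⟩ := hzero ρ hρ
    obtain ⟨b1, b2, b3, b4⟩ := hzero ρ' hρ'
    exact hz2 ρ ρ' a2 a3 (by linarith) a1 b2 b3 (by linarith) b1 hne
  set n := L.length with hn
  set X : ℝ := 1 / k * Real.log (1 / k) with hX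
  have hlog2 : 1 / 2 < Real.log 2 := by
    have := Real.log_two_gt_d9; linarith
  have hlk : Real.log 2 ≤ Real.log (1 / k) := by
    apply Real.log_le_log (by norm_num)
    rw [le_div_iff₀ hk]; linarith
  have hik : 2 ≤ 1 / k := by rw [le_div_iff₀ hk]; linarith
  have hn5 : (n : ℝ) ≤ 5 * (1 / k) := by
    have : 2 * (9 / 5) / k = 18 / 5 * (1 / k) := by ring
    rw [this] at hcount
    linarith
  have hnl : (n : ℝ) * Real.log (1 / k) ≤ 5 * X := by
    rw [hX]
    have h0 : 0 ≤ Real.log (1 / k) := by linarith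
    nlinarith
  have hn8 : (n : ℝ) ≤ 8 * X := by
    have h1 : 1 / k * (69 / 100) ≤ X := by
      rw [hX]
      have h2 : (69 / 100 : ℝ) ≤ Real.log (1 / k) := by
        have := Real.log_two_gt_d9; linarith
      have h3 : 0 ≤ 1 / k := by linarith
      exact mul_le_mul_of_nonneg_left h2 h3
    nlinarith
  have hX0 : 0 ≤ X := by
    have : (0:ℝ) ≤ n := Nat.cast_nonneg n
    linarith
  -- the point
  set s : ℂ := ⟨σ, t⟩ with hs
  have hsc : ‖s - c‖ ≤ 3 / 2 := by
    have : s - c = ((σ - 2 : ℝ) : ℂ) := by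
      apply Complex.ext
      · simp [hs, hc]
      · simp [hs, hc]
    rw [this, Complex.norm_real, Real.norm_eq_abs, abs_le]
    constructor <;> linarith
  have hlow' := hlow (3 / 2) (by norm_num) (by norm_num) s (by
    rw [mem_closedBall, dist_eq_norm]; exact hsc)
  set Λ : ℝ := Real.log (25 * t ^ 2 / ‖riemannZeta₁ c‖) + n * |Real.log ((9 / 5) / (19 / 10 - 9 / 5))| + 1
    with hΛ
  have hlogt : 1 ≤ Real.log t := by
    rw [Real.le_log_iff_exp_le ht0]
    have := Real.exp_one_lt_d9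
    linarith
  have hlog18 : |Real.log ((9 / 5 : ℝ) / (19 / 10 - 9 / 5))| ≤ 3 := by
    have e : (9 / 5 : ℝ) / (19 / 10 - 9 / 5) = 18 := by norm_num
    rw [e, abs_of_nonneg (Real.log_nonneg (by norm_num))]
    rw [Real.log_le_iff_le_exp (by norm_num)]
    have h1 : (18:ℝ) ≤ 2.7 ^ 3 := by norm_num
    have h2 : (2.7:ℝ) ≤ Real.exp 1 := by
      have := Real.exp_one_gt_d9; linarith
    have h3 : (2.7:ℝ) ^ 3 ≤ (Real.exp 1) ^ 3 := by gcongr
    rw [← Real.exp_nat_mul] at h3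
    norm_num at h1 h3 ⊢
    linarith
  have hFc0 : 0 < ‖riemannZeta₁ c‖ := norm_pos_iff.2 hFc
  have hlogM : Real.log (25 * t ^ 2 / ‖riemannZeta₁ c‖) ≤ 4 * Real.log t := by
    have h1 : 25 * t ^ 2 / ‖riemannZeta₁ c‖ ≤ t ^ 4 := by
      rw [div_le_iff₀ hFc0]
      calc 25 * t ^ 2 ≤ t ^ 4 * (1 / 4) := by nlinarith [mul_pos ht0 ht0, sq_nonneg (t - 10)]
        _ ≤ t ^ 4 * ‖riemannZeta₁ c‖ := by gcongr
    have h2 := Real.log_le_log (by positivity) h1
    rw [Real.log_pow] at h2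
    exact_mod_cast h2
  have hΛle : Λ ≤ 5 * Real.log t + 24 * X := by
    have h1 : (n:ℝ) * |Real.log ((9 / 5) / (19 / 10 - 9 / 5))| ≤ 8 * X * 3 := by
      have hn0 : (0:ℝ) ≤ n := Nat.cast_nonneg n
      gcongr
    rw [hΛ]
    linarith
  -- assemble
  have hprod : k ^ n ≤ (L.map (fun ρ => ‖s - ρ‖)).prod := by
    refine pow_le_list_prod L _ _ hk.le ?_
    intro ρ hρ
    have h1 := (hprop ρ hρ).2.2
    have h2 := Complex.abs_im_le_norm (s - ρ)
    have h3 : (s - ρ).im = t - ρ.im := by simp [hs]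
    rw [h3, abs_sub_comm] at h2
    linarith
  have hFs : ‖riemannZeta₁ s‖ = (L.map (fun ρ => ‖s - ρ‖)).prod * ‖G s‖ := by
    rw [hFG s, norm_mul, norm_list_prod, List.map_map]
    rfl
  have hGc : (1 / 4) / (9 / 5) ^ n ≤ ‖G c‖ := by
    rw [div_le_iff₀ (by positivity)]
    calc (1 / 4 : ℝ) ≤ ‖riemannZeta₁ c‖ := hFlow
      _ ≤ (9 / 5) ^ n * ‖G c‖ := hFcG
      _ = ‖G c‖ * (9 / 5) ^ n := mul_comm _ _
  have hbig : k ^ n * ((1 / 4) / (9 / 5) ^ n * Real.exp (-(2 * Λ * (3 / 2) / (9 / 5 - 3 / 2)))) ≤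
      ‖riemannZeta₁ s‖ := by
    rw [hFs]
    have h1 : (1 / 4) / (9 / 5) ^ n * Real.exp (-(2 * Λ * (3 / 2) / (9 / 5 - 3 / 2))) ≤ ‖G s‖ := by
      refine le_trans ?_ hlow'
      gcongr
    have : 0 ≤ (L.map (fun ρ => ‖s - ρ‖)).prod := (pow_nonneg hk.le n).trans hprod
    gcongr
  have hs1 : s ≠ 1 := by
    intro h
    have := congrArg Complex.im h
    simp [hs] at this
    linarith
  have hz1s := z1_of_ne hs1
  have hsn : ‖s - 1‖ ≤ t ^ 2 := by
    have h1 : ‖s - 1‖ ≤ ‖s - c‖ + ‖c - 1‖ := by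
      have := norm_add_le (s - c) (c - 1)
      rwa [sub_add_sub_cancel] at this
    have h2 : ‖c - 1‖ ≤ 1 + t := by
      have : c - 1 = 1 + t * Complex.I := by rw [hc]; ring
      rw [this]
      refine (norm_add_le _ _).trans ?_
      rw [norm_mul, Complex.norm_I, mul_one, Complex.norm_real, Real.norm_of_nonneg ht0.le]
      simp
    nlinarith
  have hsn0 : 0 < ‖s - 1‖ := norm_pos_iff.2 (sub_ne_zero.2 hs1)
  have hzs : ‖riemannZeta₁ s‖ / t ^ 2 ≤ ‖riemannZeta s‖ := by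
    rw [div_le_iff₀ (by positivity), hz1s, norm_mul, mul_comm]
    gcongr
  refine le_trans ?_ hzs
  rw [le_div_iff₀ (by positivity)]
  refine le_trans ?_ hbig
  -- compare exponentials
  have hkn : k ^ n = Real.exp (-(n * Real.log (1 / k))) := by
    rw [one_div, Real.log_inv, mul_neg, neg_neg, ← Real.log_pow, Real.exp_log (pow_pos hk n)]
  have h95 : (1 / 4 : ℝ) / (9 / 5) ^ n = Real.exp (-(Real.log 4 + n * Real.log (9 / 5))) := by
    rw [neg_add, Real.exp_add, Real.exp_neg, Real.exp_neg, Real.exp_log (by norm_num),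
      ← Real.log_pow, Real.exp_log (by positivity)]
    ring
  have ht2 : t ^ 2 = Real.exp (2 * Real.log t) := by
    have : (2:ℝ) * Real.log t = Real.log (t ^ 2) := by
      rw [Real.log_pow]; norm_num
    rw [this, Real.exp_log (by positivity)]
  rw [hkn, h95, ht2, ← Real.exp_add, ← Real.exp_add, ← Real.exp_add]
  apply Real.exp_le_exp.2
  have e1 : 2 * Λ * (3 / 2) / (9 / 5 - 3 / 2) = 10 * Λ := by ring
  rw [e1]
  have hl4 : Real.log 4 ≤ 2 := by
    have : Real.log 4 = 2 * Real.log 2 := by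
      rw [show (4:ℝ) = 2 ^ 2 by norm_num, Real.log_pow]; norm_num
    have h2 := Real.log_two_lt_d9
    linarith
  have hl95 : (n:ℝ) * Real.log (9 / 5) ≤ 8 * X := by
    have h1 : Real.log (9 / 5) ≤ 1 := by
      have := Real.log_le_sub_one_of_pos (show (0:ℝ) < 9 / 5 by norm_num)
      linarith
    have hn0 : (0:ℝ) ≤ n := Nat.cast_nonneg n
    nlinarith
  linarith

end SG
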