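import Pool.Agent.H382R2.Rect
import Pool.Agent.H382R2.Gam
import Pool.Agent.H382R2.Deep0

open Complex Filter Topology Set MeasureTheory

namespace SG

open Deep

/-- deep shift: products that decay like `(N/(N+1))^σ` have negligible integral -/
theorem deep_shift (c κ : ℝ) (hc : 0 < c) (hc1 : c < 1) (hκ : 0 < κ) (hκ1 : κ < 1 / 2) :
    ∃ T0 : ℝ, 10 ≤ T0 ∧ ∀ T : ℝ, T0 ≤ T → ∀ U1 U2 : ℝ, T ≤ U1 → U1 ≤ T + 20 → 2 * T - 20 ≤ U2 →
    U2 ≤ 2 * T → ∀ F : ℂ → ℂ, (∀ s : ℂ, 5 / 2 ≤ s.re → 1 ≤ s.im → AnalyticAt ℂ F s) →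
    (∀ s : ℂ, 5 / 2 ≤ s.re → 1 ≤ s.im →
      ‖F s‖ ≤ T ^ (10 : ℝ) * ((nn κ T : ℝ) / ((nn κ T : ℝ) + 1)) ^ s.re) →
    ‖∫ t in U1..U2, phi (3 * T / 2) (dd κ T) (⟨5 / 2, t⟩ : ℂ) * rr (dl c T) (⟨5 / 2, t⟩ : ℂ) *
      F (⟨5 / 2, t⟩ : ℂ)‖ ≤ 1 := by
  obtain ⟨C, Ta, hC, hTa, hrr⟩ := rr_bound c hc hc1
  obtain ⟨Tb, hTb, hphi⟩ := phi_tiny κ hκ hκ1
  -- asymptotic facts
  have ev1 : ∀ᶠ T : ℝ in atTop, T ^ (11 : ℝ) * Real.exp (-1 * T ^ (κ / 2)) < 1 / (4 * C) :=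
    (tendsto_pow_exp 11 1 κ one_pos hκ).eventually_lt_const (by positivity)
  have ev2 : ∀ᶠ T : ℝ in atTop, T ^ (11 : ℝ) * Real.exp (-(1 / 2) * T ^ (κ / 2)) <
      1 / (4 * C * Real.exp (1 / 2)) :=
    (tendsto_pow_exp 11 (1 / 2) κ (by norm_num) hκ).eventually_lt_const (by positivity)
  have ev3 : ∀ᶠ T : ℝ in atTop, 2 < dd κ T := by
    have : Tendsto (fun T : ℝ => dd κ T) atTop atTop :=
      tendsto_rpow_atTop (show 0 < 1 - κ / 2 by linarith)
    exact this.eventually_gt_atTop 2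
  have ev4 : ∀ᶠ T : ℝ in atTop, 8 ≤ T ^ (κ / 2) :=
    (tendsto_rpow_atTop (show 0 < κ / 2 by positivity)).eventually_ge_atTop 8
  have ev5 : ∀ᶠ T : ℝ in atTop, 2 * Real.pi * c ≤ Real.log T :=
    Real.tendsto_log_atTop.eventually_ge_atTop _
  have ev := (ev1.and (ev2.and (ev3.and (ev4.and (ev5.and
    ((eventually_ge_atTop Ta).and ((eventually_ge_atTop Tb).and (eventually_ge_atTop 100))))))))
  obtain ⟨T0, hT0⟩ := eventually_atTop.mp ev
  refine ⟨max T0 10, le_max_right _ _, ?_⟩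
  intro T hT U1 U2 hU1 hU1' hU2 hU2' F hFa hFb
  obtain ⟨h1, h2, h3, h4, h5, h6, h7, h8⟩ := hT0 T ((le_max_left _ _).trans hT)
  have hTpos : 0 < T := by linarith
  have hlog : 0 < Real.log T := Real.log_pos (by linarith)
  have hdl0 : 0 < dl c T := by
    unfold dl
    positivity
  have hdl : |dl c T| ≤ 1 := by
    rw [abs_of_pos hdl0]
    unfold dl
    rw [div_le_one hlog]
    exact h5
  have hDpos : 0 < dd κ T := dd_pos κ T hTpos
  have hD8 : dd κ T ≤ T / 8 := by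
    have e : dd κ T * T ^ (κ / 2) = T := by
      unfold dd
      rw [← Real.rpow_add hTpos]
      have : 1 - κ / 2 + κ / 2 = 1 := by ring
      rw [this, Real.rpow_one]
    rw [le_div_iff₀ (by norm_num)]
    calc dd κ T * 8 ≤ dd κ T * T ^ (κ / 2) := mul_le_mul_of_nonneg_left h4 hDpos.le
      _ = T := e
  set H : ℂ → ℂ := fun s => phi (3 * T / 2) (dd κ T) s * rr (dl c T) s * F s with hH
  have hrect := rect_zero H (5 / 2) (1 / 2 + dd κ T) U1 U2 (by linarith) (by linarith) (by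
    intro s hs
    rw [mem_reProdIm] at hs
    obtain ⟨⟨hs1, hs2⟩, hs3, hs4⟩ := hs
    exact ((phi_analytic _ _ s).mul (rr_analytic _ hdl s (by linarith))).mul
      (hFa s hs1 (by linarith)))
  have hN0 : (0 : ℝ) ≤ (nn κ T : ℝ) / ((nn κ T : ℝ) + 1) := by positivity
  have hN1 : (nn κ T : ℝ) / ((nn κ T : ℝ) + 1) ≤ 1 := by
    rw [div_le_one (by positivity)]
    linarith
  -- horizontal bound
  have hhor : ∀ U : ℝ, T ≤ U → U ≤ 2 * T → (U ≤ T + 20 ∨ 2 * T - 20 ≤ U) →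
      ‖∫ x in (5 / 2 : ℝ)..(1 / 2 + dd κ T), H (⟨x, U⟩ : ℂ)‖ ≤ 1 / 4 := by
    intro U hUa hUb hUc
    have hb : ∀ x ∈ Set.uIoc (5 / 2 : ℝ) (1 / 2 + dd κ T), ‖H (⟨x, U⟩ : ℂ)‖ ≤
        Real.exp (-T ^ (κ / 2)) * C * T ^ (10 : ℝ) := by
      intro x hx
      rw [uIoc_of_le (by linarith)] at hx
      obtain ⟨hx1, hx2⟩ := hx
      have b1 := hphi T h7 (⟨x, U⟩ : ℂ) (by
        simp only
        rw [abs_of_nonneg (by linarith)]
        linarith) hUc
      have b2 := hrr T h6 (⟨x, U⟩ : ℂ) hUa hUb (by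
        simp only
        rw [abs_of_nonneg (by linarith)]
        linarith)
      have b3 := hFb (⟨x, U⟩ : ℂ) hx1.le (by simp only; linarith)
      have b4 : ‖F (⟨x, U⟩ : ℂ)‖ ≤ T ^ (10 : ℝ) := by
        refine b3.trans ?_
        have : ((nn κ T : ℝ) / ((nn κ T : ℝ) + 1)) ^ (⟨x, U⟩ : ℂ).re ≤ 1 :=
          Real.rpow_le_one hN0 hN1 (by simp only; linarith)
        have hp : (0 : ℝ) < T ^ (10 : ℝ) := Real.rpow_pos_of_pos hTpos _
        nlinarith
      simp only [hH]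
      rw [norm_mul, norm_mul]
      apply mul_le_mul _ b4 (norm_nonneg _) (by positivity)
      exact mul_le_mul b1 b2 (norm_nonneg _) (by positivity)
    refine (intervalIntegral.norm_integral_le_of_norm_le_const hb).trans ?_
    have hlen : |1 / 2 + dd κ T - 5 / 2| ≤ T := by
      rw [abs_of_nonneg (by linarith)]
      linarith
    have hp : (0 : ℝ) < T ^ (10 : ℝ) := Real.rpow_pos_of_pos hTpos _
    calc Real.exp (-T ^ (κ / 2)) * C * T ^ (10 : ℝ) * |1 / 2 + dd κ T - 5 / 2|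
        ≤ Real.exp (-T ^ (κ / 2)) * C * T ^ (10 : ℝ) * T :=
          mul_le_mul_of_nonneg_left hlen (by positivity)
      _ = C * (T ^ (11 : ℝ) * Real.exp (-1 * T ^ (κ / 2))) := by
          rw [show (11 : ℝ) = 10 + 1 by norm_num, Real.rpow_add hTpos, Real.rpow_one, neg_one_mul]
          ring
      _ ≤ C * (1 / (4 * C)) := mul_le_mul_of_nonneg_left h1.le (by linarith)
      _ = 1 / 4 := by field_simp
  -- right side
  have hright : ‖∫ y in U1..U2, H (⟨1 / 2 + dd κ T, y⟩ : ℂ)‖ ≤ 1 / 4 := by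
    have hb : ∀ y ∈ Set.uIoc U1 U2, ‖H (⟨1 / 2 + dd κ T, y⟩ : ℂ)‖ ≤
        Real.exp (1 / 2) * C * (T ^ (10 : ℝ) * Real.exp (-(1 / 2) * T ^ (κ / 2))) := by
      intro y hy
      rw [uIoc_of_le (by linarith)] at hy
      obtain ⟨hy1, hy2⟩ := hy
      have b1 : ‖phi (3 * T / 2) (dd κ T) (⟨1 / 2 + dd κ T, y⟩ : ℂ)‖ ≤ Real.exp (1 / 2) := by
        rw [phi_norm _ _ hDpos]
        apply Real.exp_le_exp.mpr
        simp only
        rw [div_le_iff₀ (by positivity)]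
        nlinarith [sq_nonneg (y - 3 * T / 2)]
      have b2 := hrr T h6 (⟨1 / 2 + dd κ T, y⟩ : ℂ) (by simp only; linarith)
        (by simp only; linarith) (by
        simp only
        rw [abs_of_nonneg (by linarith)]
        linarith)
      have b3 := hFb (⟨1 / 2 + dd κ T, y⟩ : ℂ) (by simp only; linarith) (by simp only; linarith)
      have b4 : ‖F (⟨1 / 2 + dd κ T, y⟩ : ℂ)‖ ≤
          T ^ (10 : ℝ) * Real.exp (-(1 / 2) * T ^ (κ / 2)) := by
        refine b3.trans ?_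
        apply mul_le_mul_of_nonneg_left _ (Real.rpow_pos_of_pos hTpos _).le
        simp only
        refine (pow_decay _ _ (by linarith)).trans ?_
        apply Real.exp_le_exp.mpr
        have hNle : (nn κ T : ℝ) ≤ T ^ (1 - κ) := Nat.floor_le (Real.rpow_nonneg hTpos.le _)
        have hone : 1 ≤ T ^ (1 - κ) := Real.one_le_rpow (by linarith) (by linarith)
        have e : dd κ T = T ^ (κ / 2) * T ^ (1 - κ) := by
          unfold dd
          rw [← Real.rpow_add hTpos]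
          congr 1
          ring
        have hq : 0 < T ^ (κ / 2) := Real.rpow_pos_of_pos hTpos _
        have : 1 / 2 * T ^ (κ / 2) ≤ (1 / 2 + dd κ T) / ((nn κ T : ℝ) + 1) := by
          rw [le_div_iff₀ (by positivity), e]
          nlinarith
        linarith
      simp only [hH]
      rw [norm_mul, norm_mul]
      apply mul_le_mul _ b4 (norm_nonneg _) (by positivity)
      exact mul_le_mul b1 b2 (norm_nonneg _) (by positivity)
    refine (intervalIntegral.norm_integral_le_of_norm_le_const hb).trans ?_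
    have hlen : |U2 - U1| ≤ T := by
      rw [abs_of_nonneg (by linarith)]
      linarith
    calc Real.exp (1 / 2) * C * (T ^ (10 : ℝ) * Real.exp (-(1 / 2) * T ^ (κ / 2))) * |U2 - U1|
        ≤ Real.exp (1 / 2) * C * (T ^ (10 : ℝ) * Real.exp (-(1 / 2) * T ^ (κ / 2))) * T :=
          mul_le_mul_of_nonneg_left hlen (by positivity)
      _ = Real.exp (1 / 2) * C * (T ^ (11 : ℝ) * Real.exp (-(1 / 2) * T ^ (κ / 2))) := by
          rw [show (11 : ℝ) = 10 + 1 by norm_num, Real.rpow_add hTpos, Real.rpow_one]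
          ring
      _ ≤ Real.exp (1 / 2) * C * (1 / (4 * C * Real.exp (1 / 2))) :=
          mul_le_mul_of_nonneg_left h2.le (by positivity)
      _ = 1 / 4 := by field_simp
  have hbot := hhor U1 hU1 (by linarith) (Or.inl hU1')
  have htop := hhor U2 (by linarith) hU2' (Or.inr hU2)
  unfold rectI at hrect
  have hleft : I * (∫ t in U1..U2, H (⟨5 / 2, t⟩ : ℂ)) =
      (∫ x in (5 / 2 : ℝ)..(1 / 2 + dd κ T), H (⟨x, U1⟩ : ℂ)) -
      (∫ x in (5 / 2 : ℝ)..(1 / 2 + dd κ T), H (⟨x, U2⟩ : ℂ)) +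
      I * (∫ y in U1..U2, H (⟨1 / 2 + dd κ T, y⟩ : ℂ)) := by
    linear_combination -hrect
  have hn : ‖I * (∫ t in U1..U2, H (⟨5 / 2, t⟩ : ℂ))‖ = ‖∫ t in U1..U2, H (⟨5 / 2, t⟩ : ℂ)‖ := by
    rw [norm_mul, norm_I, one_mul]
  rw [← hn, hleft]
  refine (norm_add_le _ _).trans ?_
  have hn2 : ‖I * (∫ y in U1..U2, H (⟨1 / 2 + dd κ T, y⟩ : ℂ))‖ =
      ‖∫ y in U1..U2, H (⟨1 / 2 + dd κ T, y⟩ : ℂ)‖ := by
    rw [norm_mul, norm_I, one_mul]
  rw [hn2]
  have := norm_sub_le (∫ x in (5 / 2 : ℝ)..(1 / 2 + dd κ T), H (⟨x, U1⟩ : ℂ))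
    (∫ x in (5 / 2 : ℝ)..(1 / 2 + dd κ T), H (⟨x, U2⟩ : ℂ))
  linarith

end SG
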