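import Pool.Agent.H382R2.Defs
import Pool.Agent.Helper240.ZU.A1

open Complex Filter Topology Set MeasureTheory

namespace SG

theorem zeta_growth : ∃ C A : ℝ, 1 ≤ C ∧ 1 ≤ A ∧ ∀ s : ℂ, 1 / 16 ≤ s.re → s.re ≤ 6 → 1 ≤ |s.im| →
    ‖riemannZeta s‖ ≤ C * |s.im| ^ A := by
  refine ⟨114, 1, by norm_num, le_rfl, fun s h1 h2 h3 => ?_⟩
  have hs0 : 0 < s.re := by linarith
  have hs1 : s ≠ 1 := by
    rintro rfl
    norm_num at h3
  rw [ZU.J_a1.zf_one s hs0 hs1, Real.rpow_one]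
  have hint : ‖∫ u in Ioi (1 : ℝ), ((Int.fract u : ℝ) : ℂ) * (u : ℂ) ^ (-s - 1)‖ ≤ 16 := by
    have hI : IntegrableOn (fun u : ℝ => u ^ (-s.re - 1)) (Ioi (1 : ℝ)) :=
      integrableOn_Ioi_rpow_of_lt (by linarith) one_pos
    have hval : ∫ u in Ioi (1 : ℝ), u ^ (-s.re - 1) = 1 / s.re := by
      rw [integral_Ioi_rpow_of_lt (by linarith) one_pos]
      simp only [Real.one_rpow]
      have e : -s.re - 1 + 1 = -s.re := by ring
      rw [e, neg_div_neg_eq]
    calc ‖∫ u in Ioi (1 : ℝ), ((Int.fract u : ℝ) : ℂ) * (u : ℂ) ^ (-s - 1)‖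
        ≤ ∫ u in Ioi (1 : ℝ), u ^ (-s.re - 1) := by
          refine norm_integral_le_of_norm_le hI ?_
          refine (ae_restrict_iff' measurableSet_Ioi).2 (Filter.Eventually.of_forall ?_)
          intro u hu
          have hu0 : (0 : ℝ) < u := lt_trans one_pos hu
          rw [norm_mul, Complex.norm_cpow_eq_rpow_re_of_pos hu0, Complex.norm_real,
            Real.norm_eq_abs, Int.abs_fract]
          have h4 : Int.fract u ≤ 1 := (Int.fract_lt_one u).le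
          have h5 : (-s - 1).re = -s.re - 1 := by simp
          rw [h5]
          exact mul_le_of_le_one_left (Real.rpow_nonneg hu0.le _) h4
      _ = 1 / s.re := hval
      _ ≤ 16 := by
          rw [div_le_iff₀ hs0]
          linarith
  have hsub : ‖1 / (s - 1)‖ ≤ 1 := by
    rw [norm_div, norm_one]
    have : 1 ≤ ‖s - 1‖ := by
      refine le_trans h3 ?_
      have := Complex.abs_im_le_norm (s - 1)
      simpa using this
    rw [div_le_one (by linarith)]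
    exact this
  have hsn : ‖s‖ ≤ 7 * |s.im| := by
    have h4 := Complex.norm_le_abs_re_add_abs_im s
    have h5 : |s.re| = s.re := abs_of_pos hs0
    rw [h5] at h4
    linarith
  calc ‖1 + 1 / (s - 1) - s * ∫ u in Ioi (1 : ℝ), ((Int.fract u : ℝ) : ℂ) * (u : ℂ) ^ (-s - 1)‖
      ≤ ‖(1 : ℂ)‖ + ‖1 / (s - 1)‖ +
        ‖s * ∫ u in Ioi (1 : ℝ), ((Int.fract u : ℝ) : ℂ) * (u : ℂ) ^ (-s - 1)‖ :=
        (norm_sub_le _ _).trans (by gcongr; exact norm_add_le _ _)
    _ ≤ 1 + 1 + 7 * |s.im| * 16 := by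
        rw [norm_one, norm_mul]
        gcongr
    _ ≤ 114 * |s.im| := by linarith

theorem zeta_inv_bound : ∀ s : ℂ, 2 ≤ s.re → riemannZeta s ≠ 0 ∧ ‖(riemannZeta s)⁻¹‖ ≤ 3 := by
  intro s hs
  have hs1 : 1 < s.re := by linarith
  have hnorm : ‖riemannZeta s - 1‖ ≤ Real.pi ^ 2 / 6 - 1 := by
    have hz : riemannZeta s = ∑' n : ℕ, 1 / (n + 1 : ℂ) ^ s := zeta_eq_tsum_one_div_nat_add_one_cpow hs1
    have hsum : Summable (fun n : ℕ => 1 / (n + 1 : ℂ) ^ s) := by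
      have h := (Complex.summable_one_div_nat_cpow (p := s)).2 hs1
      have h' := (summable_nat_add_iff 1).2 h
      simpa using h'
    have h0 : riemannZeta s - 1 = ∑' n : ℕ, 1 / ((n + 1 : ℕ) + 1 : ℂ) ^ s := by
      rw [hz, hsum.tsum_eq_zero_add]
      simp
    have hR : HasSum (fun n : ℕ => 1 / (n : ℝ) ^ 2) (Real.pi ^ 2 / 6) := hasSum_zeta_two
    have hR2 : HasSum (fun n : ℕ => 1 / ((n + 2 : ℕ) : ℝ) ^ 2) (Real.pi ^ 2 / 6 - 1) := by
      have := (hasSum_nat_add_iff' (f := fun n : ℕ => 1 / (n : ℝ) ^ 2) 2).2 hR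
      simpa [Finset.sum_range_succ] using this
    rw [h0]
    refine tsum_of_norm_bounded hR2 ?_
    intro n
    rw [norm_div, norm_one]
    have e : (((n + 1 : ℕ) : ℂ) + 1) = (((n + 2 : ℕ) : ℝ) : ℂ) := by
      push_cast; ring
    rw [e, Complex.norm_cpow_eq_rpow_re_of_pos (by positivity)]
    have h2 : ((n + 2 : ℕ) : ℝ) ^ 2 ≤ ((n + 2 : ℕ) : ℝ) ^ s.re := by
      rw [← Real.rpow_natCast]
      exact Real.rpow_le_rpow_of_exponent_le (by push_cast; linarith [(Nat.cast_nonneg n : (0:ℝ) ≤ n)])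
        (by exact_mod_cast hs)
    exact one_div_le_one_div_of_le (by positivity) h2
  have hpi : Real.pi ^ 2 / 6 - 1 ≤ 2 / 3 := by
    have : Real.pi < 3.15 := Real.pi_lt_d2
    nlinarith [Real.pi_pos]
  have hlow : 1 / 3 ≤ ‖riemannZeta s‖ := by
    have h1 : ‖(1 : ℂ)‖ ≤ ‖riemannZeta s‖ + ‖riemannZeta s - 1‖ := by
      calc ‖(1 : ℂ)‖ = ‖riemannZeta s - (riemannZeta s - 1)‖ := by congr 1; ring
        _ ≤ _ := norm_sub_le _ _
    rw [norm_one] at h1
    linarith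
  have hne : riemannZeta s ≠ 0 := by
    intro h
    rw [h, norm_zero] at hlow
    norm_num at hlow
  refine ⟨hne, ?_⟩
  rw [norm_inv]
  rw [inv_le_comm₀ (by linarith) (by norm_num)]
  linarith

end SG
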