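import Pool.Agent.H382R2.Defs
import Pool.Agent.H382R2.Dir
import Pool.Agent.H382R2.Zeta1
import Pool.Agent.H382R2.Gam
import Pool.Agent.H382R2.Alg
import Pool.Agent.H382R2.Sign
import Pool.Agent.H382R2.Deep

open Complex Filter Topology Set MeasureTheory

namespace SG

namespace Vert

theorem hh_re (δ : ℝ) : (hh δ).re = 0 := by simp [hh]
theorem hh_im (δ : ℝ) : (hh δ).im = δ / 2 := by simp [hh]

theorem AA_diff (N : ℕ) : Differentiable ℂ (AA N) := by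
  unfold AA
  apply Differentiable.fun_sum
  intro n hn
  have h1 : (n : ℂ) ≠ 0 := by
    have := (Finset.mem_Icc.mp hn).1
    exact_mod_cast (by omega : n ≠ 0)
  apply Differentiable.const_mul
  intro s
  exact (differentiableAt_id.neg).const_cpow (Or.inl h1)

theorem GG_diff (N : ℕ) (s : ℂ) (hs : s ≠ 1) : DifferentiableAt ℂ (GG N) s := by
  unfold GG
  exact ((differentiableAt_riemannZeta hs).mul (AA_diff N s)).sub_const 1

theorem ne_one_of_re {s : ℂ} (h : 2 ≤ s.re) : s ≠ 1 := by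
  intro h1; rw [h1] at h; norm_num at h

/-- the function used in the deep shift -/
noncomputable def FF (δ : ℝ) (N : ℕ) (w s : ℂ) : ℂ :=
  GG N (s + w) * AA N (1 - (s - hh δ)) / riemannZeta (s + hh δ)

theorem FF_diff (δ : ℝ) (N : ℕ) (w s : ℂ) (hw : w.re = 0) (hs : 2 ≤ s.re) :
    DifferentiableAt ℂ (FF δ N w) s := by
  unfold FF
  have h1 : DifferentiableAt ℂ (fun s => GG N (s + w)) s := by
    apply DifferentiableAt.comp s (g := GG N) (f := fun s => s + w)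
    · apply GG_diff; apply ne_one_of_re; simp [hw, hs]
    · fun_prop
  have h2 : DifferentiableAt ℂ (fun s => AA N (1 - (s - hh δ))) s := by
    apply DifferentiableAt.comp s (g := AA N) (f := fun s => 1 - (s - hh δ))
    · exact AA_diff N _
    · fun_prop
  have hre : 2 ≤ (s + hh δ).re := by simp [hh_re, hs]
  have h3 : DifferentiableAt ℂ (fun s => riemannZeta (s + hh δ)) s := by
    apply DifferentiableAt.comp s (g := riemannZeta) (f := fun s => s + hh δ)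
    · exact differentiableAt_riemannZeta (ne_one_of_re hre)
    · fun_prop
  exact (h1.mul h2).div h3 (zeta_inv_bound _ hre).1

theorem FF_an (δ : ℝ) (N : ℕ) (w s : ℂ) (hw : w.re = 0) (hs : 5 / 2 ≤ s.re) :
    AnalyticAt ℂ (FF δ N w) s := by
  have hopen : IsOpen {z : ℂ | 2 < z.re} := isOpen_lt continuous_const Complex.continuous_re
  have hd : DifferentiableOn ℂ (FF δ N w) {z : ℂ | 2 < z.re} := fun z hz =>
    (FF_diff δ N w z hw (le_of_lt hz)).differentiableWithinAt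
  exact hd.analyticAt (hopen.mem_nhds (by show 2 < s.re; linarith))

theorem FF_bound (δ : ℝ) (N : ℕ) (hN : 1 ≤ N) (w s : ℂ) (hw : w.re = 0) (hs : 5 / 2 ≤ s.re) :
    ‖FF δ N w s‖ ≤ 12 * ((N : ℝ) + 1) ^ (5 / 2 : ℝ) * ((N : ℝ) / ((N : ℝ) + 1)) ^ s.re := by
  unfold FF
  have hN1 : (1 : ℝ) ≤ N := by exact_mod_cast hN
  have h1 : ‖GG N (s + w)‖ ≤ 4 * ((N : ℝ) + 1) ^ (5 / 2 - s.re) := by
    have := GG_bound N hN (s + w) (by simp [hw, hs])
    simpa [hw] using this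
  have h2 : ‖AA N (1 - (s - hh δ))‖ ≤ (N : ℝ) ^ s.re := by
    have := AA_bound' N (s - hh δ) (by simp [hh_re]; linarith)
    simpa [hh_re] using this
  have h3 := (zeta_inv_bound (s + hh δ) (by simp [hh_re]; linarith)).2
  rw [div_eq_mul_inv, norm_mul, norm_mul]
  have e : ((N : ℝ) + 1) ^ (5 / 2 - s.re) * (N : ℝ) ^ s.re =
      ((N : ℝ) + 1) ^ (5 / 2 : ℝ) * ((N : ℝ) / ((N : ℝ) + 1)) ^ s.re := by
    rw [Real.rpow_sub (by linarith), Real.div_rpow (by linarith) (by linarith)]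
    field_simp
  calc _ ≤ (4 * ((N : ℝ) + 1) ^ (5 / 2 - s.re)) * (N : ℝ) ^ s.re * 3 := by gcongr
    _ = 12 * (((N : ℝ) + 1) ^ (5 / 2 - s.re) * (N : ℝ) ^ s.re) := by ring
    _ = _ := by rw [e]; ring

theorem PP_eq (t0 D δ : ℝ) (s : ℂ) (hs : 2 ≤ s.re) :
    PP t0 D δ s = phi t0 D s *
      (Gammaℝ s * Gammaℝ (1 - s) / (Gammaℝ (s + hh δ) * Gammaℝ (s - hh δ))) *
      ((riemannZeta (s + hh δ))⁻¹ * (riemannZeta (s - hh δ))⁻¹) := by
  have hre1 : 2 ≤ (s + hh δ).re := by simp [hh_re, hs]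
  have hre2 : 2 ≤ (s - hh δ).re := by simp [hh_re, hs]
  have n1 : s + hh δ ≠ 0 := by intro h; rw [h] at hre1; norm_num at hre1
  have n2 : s - hh δ ≠ 0 := by intro h; rw [h] at hre2; norm_num at hre2
  have g1 : Gammaℝ (s + hh δ) ≠ 0 := Complex.Gammaℝ_ne_zero_of_re_pos (by linarith)
  have g2 : Gammaℝ (s - hh δ) ≠ 0 := Complex.Gammaℝ_ne_zero_of_re_pos (by linarith)
  have z1 := (zeta_inv_bound (s + hh δ) hre1).1
  have z2 := (zeta_inv_bound (s - hh δ) hre2).1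
  have e1 : completedRiemannZeta (s + hh δ) = Gammaℝ (s + hh δ) * riemannZeta (s + hh δ) := by
    rw [riemannZeta_def_of_ne_zero n1]; field_simp
  have e2 : completedRiemannZeta (s - hh δ) = Gammaℝ (s - hh δ) * riemannZeta (s - hh δ) := by
    rw [riemannZeta_def_of_ne_zero n2]; field_simp
  unfold PP NU LL
  rw [e1, e2]
  field_simp

theorem PP_cont (t0 D δ : ℝ) (hδ : |δ| ≤ 1) (t : ℝ) (ht : 1 ≤ t) :
    ContinuousAt (fun t : ℝ => PP t0 D δ (⟨5 / 2, t⟩ : ℂ)) t := by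
  have h1 : AnalyticAt ℂ (PP t0 D δ) (⟨5 / 2, t⟩ : ℂ) := by
    unfold PP
    apply (NU_analytic t0 D _ ht).div (LL_analytic δ hδ _ ht)
    intro h
    rcases (LL_zero δ hδ _ ht).mp h with h | h
    · have := h.2.2; norm_num at this
    · have := h.2.2; norm_num at this
  have h2 : Continuous (fun t : ℝ => (⟨5 / 2, t⟩ : ℂ)) := by
    have : (fun t : ℝ => (⟨5 / 2, t⟩ : ℂ)) = fun t : ℝ => ((5 / 2 : ℝ) : ℂ) + (t : ℂ) * I := by
      funext t
      apply Complex.ext <;> simp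
    rw [this]; fun_prop
  exact h1.continuousAt.comp (f := fun t : ℝ => (⟨5 / 2, t⟩ : ℂ)) h2.continuousAt

theorem line_cont : Continuous (fun t : ℝ => (⟨5 / 2, t⟩ : ℂ)) := by
  have : (fun t : ℝ => (⟨5 / 2, t⟩ : ℂ)) = fun t : ℝ => ((5 / 2 : ℝ) : ℂ) + (t : ℂ) * I := by
    funext t
    apply Complex.ext <;> simp
  rw [this]; fun_prop

theorem line_contAt {f : ℂ → ℂ} {t : ℝ} (h : ContinuousAt f (⟨5 / 2, t⟩ : ℂ)) :
    ContinuousAt (fun t : ℝ => f (⟨5 / 2, t⟩ : ℂ)) t :=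
  h.comp (f := fun t : ℝ => (⟨5 / 2, t⟩ : ℂ)) line_cont.continuousAt

theorem phi_cont (t0 D : ℝ) : Continuous (phi t0 D) := by
  unfold phi
  fun_prop

theorem int_of_contAt {f : ℝ → ℂ} {U1 U2 : ℝ} (h12 : U1 ≤ U2)
    (h : ∀ t, U1 ≤ t → t ≤ U2 → ContinuousAt f t) : IntervalIntegrable f volume U1 U2 := by
  apply ContinuousOn.intervalIntegrable
  rw [Set.uIcc_of_le h12]
  intro t ht
  exact (h t ht.1 ht.2).continuousWithinAt

/-- domination by the Gaussian -/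
theorem dom (κ : ℝ) (hκ : 0 < κ) (hκ1 : κ < 1 / 2) (T : ℝ) (hT : 10 ≤ T) (U1 U2 K : ℝ)
    (hK : 0 ≤ K) (h12 : U1 ≤ U2) (f : ℝ → ℂ)
    (hf : ∀ t, U1 ≤ t → t ≤ U2 → ‖f t‖ ≤ K * ‖phi (3 * T / 2) (dd κ T) (⟨5 / 2, t⟩ : ℂ)‖) :
    ‖∫ t in U1..U2, f t‖ ≤ K * (20 * dd κ T) := by
  have hc : Continuous (fun t : ℝ => K * ‖phi (3 * T / 2) (dd κ T) (⟨5 / 2, t⟩ : ℂ)‖) :=
    continuous_const.mul ((phi_cont _ _).comp line_cont).norm
  have h1 := intervalIntegral.norm_integral_le_of_norm_le h12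
    (f := f) (g := fun t => K * ‖phi (3 * T / 2) (dd κ T) (⟨5 / 2, t⟩ : ℂ)‖) (μ := volume)
    (Eventually.of_forall fun t ht => hf t (le_of_lt ht.1) ht.2) (hc.intervalIntegrable _ _)
  refine h1.trans ?_
  rw [intervalIntegral.integral_const_mul]
  apply mul_le_mul_of_nonneg_left _ hK
  apply phi_int κ hκ hκ1 T hT (5 / 2) U1 U2 h12
  norm_num

end Vert

open Vert in
/-- `P` is `O(D)` on the right line -/
theorem vert_P (c κ : ℝ) (hc : 1 / 2 < c) (hc1 : c < 1) (hκ : 0 < κ) (hκ1 : κ < 1 / 2) :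
    ∃ C T0 : ℝ, 1 ≤ C ∧ 100 ≤ T0 ∧ ∀ T : ℝ, T0 ≤ T → ∀ U1 U2 : ℝ, T ≤ U1 → U1 ≤ T + 20 →
    2 * T - 20 ≤ U2 → U2 ≤ 2 * T →
    ‖∫ t in U1..U2, PP (3 * T / 2) (dd κ T) (dl c T) (⟨5 / 2, t⟩ : ℂ)‖ ≤ C * dd κ T ∧
    ‖∫ t in U1..U2, PP (3 * T / 2) (dd κ T) (dl c T) (⟨5 / 2, t⟩ : ℂ) *
        (GG (nn κ T) ((⟨5 / 2, t⟩ : ℂ) - hh (dl c T)) *
         GG (nn κ T) (1 - ((⟨5 / 2, t⟩ : ℂ) - hh (dl c T))))‖ ≤ C * dd κ T ∧
    ‖∫ t in U1..U2, PP (3 * T / 2) (dd κ T) (dl c T) (⟨-3 / 2, t⟩ : ℂ) *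
         GG (nn κ T) (1 - ((⟨-3 / 2, t⟩ : ℂ) - hh (dl c T)))‖ ≤ C * dd κ T ∧
    ‖(∫ t in U1..U2, PP (3 * T / 2) (dd κ T) (dl c T) (⟨5 / 2, t⟩ : ℂ) *
         GG (nn κ T) (1 - ((⟨5 / 2, t⟩ : ℂ) - hh (dl c T)))) -
      ∫ t in U1..U2, phi (3 * T / 2) (dd κ T) (⟨5 / 2, t⟩ : ℂ) * rr (dl c T) (⟨5 / 2, t⟩ : ℂ) *
        (AA (nn κ T) ((⟨5 / 2, t⟩ : ℂ) + hh (dl c T)) *
          AA (nn κ T) (1 - ((⟨5 / 2, t⟩ : ℂ) - hh (dl c T))))‖ ≤ C * dd κ T := by
  obtain ⟨Cg, Tg, hCg, hTg, hg⟩ := gg_bound c (by linarith) hc1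
  obtain ⟨Td, hTd, hd⟩ := deep_shift c κ (by linarith) hc1 hκ hκ1
  refine ⟨1000 * Cg, max (max Tg Td) 2000, by linarith, le_max_of_le_right (by norm_num), ?_⟩
  intro T hT U1 U2 hU1 hU1' hU2 hU2'
  have hT1 : Tg ≤ T := (le_max_left _ _).trans ((le_max_left _ _).trans hT)
  have hT2 : Td ≤ T := (le_max_right _ _).trans ((le_max_left _ _).trans hT)
  have hT3 : 2000 ≤ T := (le_max_right _ _).trans hT
  set δ := dl c T with hδdef
  set N := nn κ T with hNdef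
  set D := dd κ T with hDdef
  have h12 : U1 ≤ U2 := by linarith
  -- parameters
  have hlog : 2 * Real.pi ≤ Real.log T := by
    have h1 : Real.pi < 3.15 := Real.pi_lt_d2
    have h2 : Real.log 2000 ≤ Real.log T := Real.log_le_log (by norm_num) hT3
    have h3 : (7 : ℝ) ≤ Real.log 2000 := by
      rw [Real.le_log_iff_exp_le (by norm_num)]
      have : Real.exp 7 = Real.exp 1 ^ 7 := by rw [← Real.exp_nat_mul]; norm_num
      rw [this]
      calc Real.exp 1 ^ 7 ≤ 2.7182818286 ^ 7 :=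
            pow_le_pow_left₀ (Real.exp_pos 1).le Real.exp_one_lt_d9.le 7
        _ ≤ 2000 := by norm_num
    linarith
  have hpi := Real.pi_pos
  have hlogpos : 0 < Real.log T := by linarith
  have hδ0 : 0 ≤ δ := by rw [hδdef]; unfold dl; positivity
  have hδ1 : δ ≤ 1 := by
    rw [hδdef]; unfold dl
    rw [div_le_one hlogpos]
    nlinarith
  have hδa : |δ| ≤ 1 := by rw [abs_of_nonneg hδ0]; exact hδ1
  have hD1 : 1 ≤ D := by
    rw [hDdef]; unfold dd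
    exact Real.one_le_rpow (by linarith) (by linarith)
  have hN1 : 1 ≤ N := by
    rw [hNdef]; unfold nn
    apply Nat.le_floor
    rw [Nat.cast_one]
    exact Real.one_le_rpow (by linarith) (by linarith)
  have hN1r : (1 : ℝ) ≤ N := by exact_mod_cast hN1
  have hNT : (N : ℝ) ≤ T := by
    rw [hNdef]; unfold nn
    refine (Nat.floor_le (Real.rpow_nonneg (by linarith) _)).trans ?_
    calc T ^ (1 - κ) ≤ T ^ (1 : ℝ) := Real.rpow_le_rpow_of_exponent_le (by linarith) (by linarith)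
      _ = T := Real.rpow_one T
  have hNpow : 12 * ((N : ℝ) + 1) ^ (5 / 2 : ℝ) ≤ T ^ (10 : ℝ) := by
    have h1 : (N : ℝ) + 1 ≤ T ^ 2 := by nlinarith
    calc 12 * ((N : ℝ) + 1) ^ (5 / 2 : ℝ) ≤ T ^ (5 : ℝ) * (T ^ 2) ^ (5 / 2 : ℝ) := by
          apply mul_le_mul
          · calc (12 : ℝ) ≤ T := by linarith
              _ = T ^ (1 : ℝ) := (Real.rpow_one T).symm
              _ ≤ _ := Real.rpow_le_rpow_of_exponent_le (by linarith) (by norm_num)
          · exact Real.rpow_le_rpow (by positivity) h1 (by norm_num)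
          · positivity
          · positivity
      _ = T ^ (10 : ℝ) := by
          rw [← Real.rpow_natCast, ← Real.rpow_mul (by linarith), ← Real.rpow_add (by linarith)]
          norm_num
  -- the kernel on the right line
  have hP : ∀ t, U1 ≤ t → t ≤ U2 → ‖PP (3 * T / 2) D δ (⟨5 / 2, t⟩ : ℂ)‖ ≤
      9 * Cg * ‖phi (3 * T / 2) D (⟨5 / 2, t⟩ : ℂ)‖ := by
    intro t ht1 ht2
    have h1 := hg T hT1 (⟨5 / 2, t⟩ : ℂ) (by simp; linarith) (by simp; linarith)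
      (by norm_num) (by norm_num)
    have hz1 := (zeta_inv_bound ((⟨5 / 2, t⟩ : ℂ) + hh δ) (by simp [hh_re]; norm_num)).2
    have hz2 := (zeta_inv_bound ((⟨5 / 2, t⟩ : ℂ) - hh δ) (by simp [hh_re]; norm_num)).2
    rw [PP_eq _ _ _ _ (by norm_num), norm_mul, norm_mul, norm_mul]
    calc _ ≤ ‖phi (3 * T / 2) D (⟨5 / 2, t⟩ : ℂ)‖ * Cg * (3 * 3) := by gcongr
      _ = _ := by ring
  have hGm : ∀ (t : ℝ) (w : ℂ), w.re = 0 → ‖GG N ((⟨5 / 2, t⟩ : ℂ) + w)‖ ≤ 4 := by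
    intro t w hw
    have := GG_bound N hN1 ((⟨5 / 2, t⟩ : ℂ) + w) (by simp [hw])
    simpa [hw] using this
  -- deep shifts
  have hdeep : ∀ w : ℂ, w.re = 0 → ‖∫ t in U1..U2, phi (3 * T / 2) D (⟨5 / 2, t⟩ : ℂ) *
      rr δ (⟨5 / 2, t⟩ : ℂ) * FF δ N w (⟨5 / 2, t⟩ : ℂ)‖ ≤ 1 := by
    intro w hw
    apply hd T hT2 U1 U2 hU1 hU1' hU2 hU2' (FF δ N w)
    · intro s hs _; exact FF_an δ N w s hw hs
    · intro s hs _
      refine (FF_bound δ N hN1 w s hw hs).trans ?_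
      apply mul_le_mul_of_nonneg_right hNpow
      positivity
  -- continuity facts
  have cphi : ∀ t : ℝ, ContinuousAt (fun t : ℝ => phi (3 * T / 2) D (⟨5 / 2, t⟩ : ℂ)) t :=
    fun t => ((phi_cont _ _).comp line_cont).continuousAt
  have crr : ∀ t, U1 ≤ t → ContinuousAt (fun t : ℝ => rr δ (⟨5 / 2, t⟩ : ℂ)) t := fun t ht =>
    line_contAt (rr_analytic δ hδa _ (by show 1 ≤ t; linarith)).continuousAt
  have cFF : ∀ (w : ℂ), w.re = 0 → ∀ t : ℝ,
      ContinuousAt (fun t : ℝ => FF δ N w (⟨5 / 2, t⟩ : ℂ)) t := fun w hw t =>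
    line_contAt (FF_diff δ N w _ hw (by norm_num)).continuousAt
  have cP : ∀ t, U1 ≤ t → ContinuousAt (fun t : ℝ => PP (3 * T / 2) D δ (⟨5 / 2, t⟩ : ℂ)) t :=
    fun t ht => PP_cont _ _ _ hδa t (by linarith)
  have cG : ∀ (w : ℂ), w.re = 0 → ∀ t : ℝ,
      ContinuousAt (fun t : ℝ => GG N ((⟨5 / 2, t⟩ : ℂ) + w)) t := by
    intro w hw t
    have h1 : DifferentiableAt ℂ (fun s => GG N (s + w)) (⟨5 / 2, t⟩ : ℂ) := by
      apply DifferentiableAt.comp (⟨5 / 2, t⟩ : ℂ) (g := GG N) (f := fun s => s + w)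
      · apply GG_diff; apply ne_one_of_re; simp [hw]; norm_num
      · fun_prop
    exact line_contAt h1.continuousAt
  have cAA : ∀ t : ℝ, ContinuousAt (fun t : ℝ => AA N ((⟨5 / 2, t⟩ : ℂ) + hh δ) *
      AA N (1 - ((⟨5 / 2, t⟩ : ℂ) - hh δ))) t := by
    intro t
    have h1 : Continuous (fun s : ℂ => AA N (s + hh δ) * AA N (1 - (s - hh δ))) :=
      ((AA_diff N).continuous.comp (by fun_prop : Continuous fun s : ℂ => s + hh δ)).mul
        ((AA_diff N).continuous.comp (by fun_prop : Continuous fun s : ℂ => 1 - (s - hh δ)))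
    exact line_contAt (f := fun s : ℂ => AA N (s + hh δ) * AA N (1 - (s - hh δ))) h1.continuousAt
  -- the algebraic identity on the line
  have hPQ : ∀ t, U1 ≤ t → PP (3 * T / 2) D δ (⟨5 / 2, t⟩ : ℂ) *
      GG N (1 - ((⟨5 / 2, t⟩ : ℂ) - hh δ)) = QQ (3 * T / 2) D δ N (⟨5 / 2, t⟩ : ℂ) -
        PP (3 * T / 2) D δ (⟨5 / 2, t⟩ : ℂ) := by
    intro t ht
    apply PQ (3 * T / 2) D δ hδa N _ (by show 1 ≤ t; linarith)
    · exact (zeta_inv_bound _ (by simp [hh_re]; norm_num)).1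
    · exact (zeta_inv_bound _ (by simp [hh_re]; norm_num)).1
    · norm_num
  have hneg : (-(hh δ)).re = 0 := by simp [hh_re]
  have hpos0 : (hh δ).re = 0 := hh_re δ
  refine ⟨?_, ?_, ?_, ?_⟩
  · -- (A)
    have := dom κ hκ hκ1 T (by linarith) U1 U2 (9 * Cg) (by positivity) h12 _ hP
    refine this.trans ?_
    nlinarith
  · -- (B)
    have e : ∀ t ∈ Set.uIcc U1 U2, PP (3 * T / 2) D δ (⟨5 / 2, t⟩ : ℂ) *
        (GG N ((⟨5 / 2, t⟩ : ℂ) - hh δ) * GG N (1 - ((⟨5 / 2, t⟩ : ℂ) - hh δ))) =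
        phi (3 * T / 2) D (⟨5 / 2, t⟩ : ℂ) * rr δ (⟨5 / 2, t⟩ : ℂ) *
          FF δ N (-(hh δ)) (⟨5 / 2, t⟩ : ℂ) -
        PP (3 * T / 2) D δ (⟨5 / 2, t⟩ : ℂ) * GG N ((⟨5 / 2, t⟩ : ℂ) + -(hh δ)) := by
      intro t ht
      rw [Set.uIcc_of_le h12] at ht
      have h1 := hPQ t ht.1
      have h2 : PP (3 * T / 2) D δ (⟨5 / 2, t⟩ : ℂ) *
        (GG N ((⟨5 / 2, t⟩ : ℂ) - hh δ) * GG N (1 - ((⟨5 / 2, t⟩ : ℂ) - hh δ))) =
        GG N ((⟨5 / 2, t⟩ : ℂ) - hh δ) * (PP (3 * T / 2) D δ (⟨5 / 2, t⟩ : ℂ) *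
          GG N (1 - ((⟨5 / 2, t⟩ : ℂ) - hh δ))) := by ring
      rw [h2, h1]
      unfold QQ FF
      rw [← sub_eq_add_neg]
      ring
    rw [intervalIntegral.integral_congr e, intervalIntegral.integral_sub]
    · have h1 := hdeep (-(hh δ)) hneg
      have h2 := dom κ hκ hκ1 T (by linarith) U1 U2 (36 * Cg) (by positivity) h12
        (fun t => PP (3 * T / 2) D δ (⟨5 / 2, t⟩ : ℂ) * GG N ((⟨5 / 2, t⟩ : ℂ) + -(hh δ))) (by
          intro t ht1 ht2
          rw [norm_mul]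
          calc _ ≤ (9 * Cg * ‖phi (3 * T / 2) D (⟨5 / 2, t⟩ : ℂ)‖) * 4 := by
                apply mul_le_mul (hP t ht1 ht2) (hGm t _ hneg) (norm_nonneg _) (by positivity)
            _ = _ := by ring)
      refine (norm_sub_le _ _).trans ?_
      have h3 : 1 ≤ Cg * D := by nlinarith
      refine (add_le_add h1 h2).trans ?_
      nlinarith
    · apply int_of_contAt h12
      intro t ht1 ht2
      exact ((cphi t).mul (crr t ht1)).mul (cFF _ hneg t)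
    · apply int_of_contAt h12
      intro t ht1 ht2
      exact (cP t ht1).mul (cG _ hneg t)
  · -- (C)
    have h2 := dom κ hκ hκ1 T (by linarith) U1 U2 (36 * Cg) (by positivity) h12
        (fun t => PP (3 * T / 2) D δ (⟨-3 / 2, t⟩ : ℂ) *
          GG N (1 - ((⟨-3 / 2, t⟩ : ℂ) - hh δ))) (by
          intro t ht1 ht2
          have e1 : (⟨-3 / 2, t⟩ : ℂ) = 1 - (starRingEnd ℂ) (⟨5 / 2, t⟩ : ℂ) := by
            apply Complex.ext <;> simp
            norm_num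
          have hsym := PP_symm (3 * T / 2) D δ (⟨5 / 2, t⟩ : ℂ)
            (by show 1 ≤ |t|; rw [abs_of_nonneg (by linarith)]; linarith)
          rw [← e1] at hsym
          have e2 : (1 - ((⟨-3 / 2, t⟩ : ℂ) - hh δ)) = (⟨5 / 2, -t⟩ : ℂ) + hh δ := by
            apply Complex.ext
            · simp only [sub_re, one_re, add_re]; ring
            · simp only [sub_im, one_im, add_im]; ring
          rw [norm_mul, hsym, RCLike.norm_conj, e2]
          calc _ ≤ (9 * Cg * ‖phi (3 * T / 2) D (⟨5 / 2, t⟩ : ℂ)‖) * 4 := by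
                apply mul_le_mul (hP t ht1 ht2) (hGm (-t) _ hpos0) (norm_nonneg _) (by positivity)
            _ = _ := by ring)
    refine h2.trans ?_
    nlinarith
  · -- (D)
    have e : ∀ t ∈ Set.uIcc U1 U2, PP (3 * T / 2) D δ (⟨5 / 2, t⟩ : ℂ) *
        GG N (1 - ((⟨5 / 2, t⟩ : ℂ) - hh δ)) =
        phi (3 * T / 2) D (⟨5 / 2, t⟩ : ℂ) * rr δ (⟨5 / 2, t⟩ : ℂ) *
          (AA N ((⟨5 / 2, t⟩ : ℂ) + hh δ) * AA N (1 - ((⟨5 / 2, t⟩ : ℂ) - hh δ))) -
        (phi (3 * T / 2) D (⟨5 / 2, t⟩ : ℂ) * rr δ (⟨5 / 2, t⟩ : ℂ) *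
          FF δ N (hh δ) (⟨5 / 2, t⟩ : ℂ) + PP (3 * T / 2) D δ (⟨5 / 2, t⟩ : ℂ)) := by
      intro t ht
      rw [Set.uIcc_of_le h12] at ht
      rw [hPQ t ht.1]
      have hz := (zeta_inv_bound ((⟨5 / 2, t⟩ : ℂ) + hh δ)
        (by simp [hh_re]; norm_num)).1
      unfold QQ FF GG
      field_simp
      ring
    rw [intervalIntegral.integral_congr e, intervalIntegral.integral_sub,
      intervalIntegral.integral_add]
    · have h1 := hdeep (hh δ) hpos0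
      have h2 := dom κ hκ hκ1 T (by linarith) U1 U2 (9 * Cg) (by positivity) h12 _ hP
      have h3 : 1 ≤ Cg * D := by nlinarith
      rw [sub_sub_cancel_left, norm_neg]
      refine (norm_add_le _ _).trans ?_
      refine (add_le_add h1 h2).trans ?_
      nlinarith
    · apply int_of_contAt h12
      intro t ht1 ht2
      exact ((cphi t).mul (crr t ht1)).mul (cFF _ hpos0 t)
    · apply int_of_contAt h12
      intro t ht1 ht2
      exact cP t ht1
    · apply int_of_contAt h12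
      intro t ht1 ht2
      exact ((cphi t).mul (crr t ht1)).mul (cAA t)
    · apply IntervalIntegrable.add
      · apply int_of_contAt h12
        intro t ht1 ht2
        exact ((cphi t).mul (crr t ht1)).mul (cFF _ hpos0 t)
      · apply int_of_contAt h12
        intro t ht1 ht2
        exact cP t ht1

end SG
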