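import Pool.Agent.H382R2.Defs
import Pool.Agent.H382R2.Main
import Pool.Agent.H370R2.Count
import Pool.Agent.H370R2.DirGood

open Complex Filter Topology Set

namespace SG

/-! ### The counting function and the ordinates of the nontrivial zeros -/

/-- multiplicity of `s` as a zero of the Riemann zeta function (its order of vanishing at `s`) -/
noncomputable def zmult (s : ℂ) : ℕ := analyticOrderNatAt riemannZeta s

/-- `NZ t` is the number of nontrivial zeros of `ζ` with ordinate in `(0, t]`,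
counted with multiplicity. -/
noncomputable def NZ (t : ℝ) : ℕ :=
  ∑ᶠ s ∈ {s : ℂ | riemannZeta s = 0 ∧ 0 < s.re ∧ s.re < 1 ∧ 0 < s.im ∧ s.im ≤ t}, zmult s

/-- `ord n` (for `n ≥ 1`) is the `n`-th positive ordinate of a nontrivial zero of `ζ`, where the
ordinates are listed in nondecreasing order and repeated according to multiplicity:
the least `t` such that at least `n` zeros have ordinate in `(0, t]`. -/
noncomputable def ord (n : ℕ) : ℝ := sInf {t : ℝ | n ≤ NZ t}

/-! ### Basic facts -/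

/-- the nontrivial zeros with ordinate in `(0,t]` -/
def ZS (t : ℝ) : Set ℂ :=
  {s : ℂ | riemannZeta s = 0 ∧ 0 < s.re ∧ s.re < 1 ∧ 0 < s.im ∧ s.im ≤ t}

theorem zeta_an {s : ℂ} (hs : s ≠ 1) : AnalyticAt ℂ riemannZeta s := by
  have hd : DifferentiableOn ℂ riemannZeta {1}ᶜ := fun z hz =>
    (differentiableAt_riemannZeta hz).differentiableWithinAt
  exact hd.analyticAt (isOpen_compl_singleton.mem_nhds hs)

theorem ZS_finite (t : ℝ) : (ZS t).Finite := by
  have hcomp : IsCompact (Icc (0 : ℝ) 1 ×ℂ Icc 0 t) := isCompact_Icc.reProdIm isCompact_Icc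
  refine hcomp.inter_riemannZetaZeros_finite.subset ?_
  rintro s ⟨h0, h1, h2, h3, h4⟩
  exact ⟨⟨⟨h1.le, h2.le⟩, ⟨h3.le, h4⟩⟩, h0⟩

theorem NZ_eq (t : ℝ) : NZ t = ∑ s ∈ (ZS_finite t).toFinset, zmult s :=
  finsum_mem_eq_finite_toFinset_sum _ (ZS_finite t)

theorem zmult_pos {s : ℂ} (hs : 0 < s.im) (h0 : riemannZeta s = 0) : 1 ≤ zmult s :=
  H370.Loc.mult_pos' H370.good_zeta hs h0

theorem zmult_two {s : ℂ} (hs : 0 < s.im) (h0 : riemannZeta s = 0)
    (h1 : deriv riemannZeta s = 0) : 2 ≤ zmult s := by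
  have hs1 : s ≠ 1 := by intro h; rw [h] at hs; simp at hs
  have ha := zeta_an hs1
  have hp := zmult_pos hs h0
  have htop : analyticOrderAt riemannZeta s ≠ ⊤ := by
    intro h
    unfold zmult analyticOrderNatAt at hp
    rw [h] at hp
    simp at hp
  have h2 := ha.analyticOrderAt_deriv_add_one
  have h3 : (fun z => riemannZeta z - riemannZeta s) = riemannZeta := by
    funext z; rw [h0, sub_zero]
  rw [h3] at h2
  have h4 : analyticOrderAt (deriv riemannZeta) s ≠ 0 :=
    ha.deriv.analyticOrderAt_ne_zero.mpr h1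
  have h5 : (zmult s : ℕ∞) = analyticOrderAt riemannZeta s := Nat.cast_analyticOrderNatAt htop
  have h6 : (1 : ℕ∞) ≤ analyticOrderAt (deriv riemannZeta) s := Order.one_le_iff_ne_zero.mpr h4
  have h7 : (2 : ℕ∞) ≤ (zmult s : ℕ∞) := by
    rw [h5, ← h2, ← one_add_one_eq_two]
    gcongr
  exact_mod_cast h7

theorem NZ_nonpos {t : ℝ} (ht : t ≤ 0) : NZ t = 0 := by
  rw [NZ_eq]
  apply Finset.sum_eq_zero
  intro s hs
  rw [Set.Finite.mem_toFinset] at hs
  have := hs.2.2.2.1.trans_le (hs.2.2.2.2.trans ht)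
  exact absurd this (lt_irrefl 0)

/-- adding zeros -/
theorem NZ_add_le (t' t : ℝ) (h : t' ≤ t) (A : Finset ℂ) (hA : ∀ s ∈ A, s ∈ ZS t ∧ t' < s.im) :
    NZ t' + ∑ s ∈ A, zmult s ≤ NZ t := by
  classical
  rw [NZ_eq, NZ_eq, ← Finset.sum_union]
  · apply Finset.sum_le_sum_of_subset
    intro s hs
    rcases Finset.mem_union.mp hs with hs | hs
    · rw [Set.Finite.mem_toFinset] at hs ⊢
      exact ⟨hs.1, hs.2.1, hs.2.2.1, hs.2.2.2.1, hs.2.2.2.2.trans h⟩
    · rw [Set.Finite.mem_toFinset]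
      exact (hA s hs).1
  · rw [Finset.disjoint_left]
    intro s hs hs'
    rw [Set.Finite.mem_toFinset] at hs
    exact absurd hs.2.2.2.2 (not_le.mpr (hA s hs').2)

theorem NZ_mono : Monotone NZ := by
  intro a b h
  have := NZ_add_le a b h ∅ (by simp)
  simpa using this

/-- right continuity -/
theorem NZ_right (t : ℝ) : ∃ t' : ℝ, t < t' ∧ NZ t' = NZ t := by
  classical
  have hfin := ZS_finite (t + 1)
  set F := hfin.toFinset.filter (fun s => t < s.im) with hF
  by_cases hne : F.Nonempty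
  · obtain ⟨s0, hs0, hmin⟩ := F.exists_min_image (fun s => s.im) hne
    have h1 : t < s0.im := (Finset.mem_filter.mp hs0).2
    refine ⟨min ((t + s0.im) / 2) (t + 1), lt_min (by linarith) (by linarith), ?_⟩
    rw [NZ_eq, NZ_eq]
    congr 1
    ext s
    rw [Set.Finite.mem_toFinset, Set.Finite.mem_toFinset]
    constructor
    · rintro ⟨a1, a2, a3, a4, a5⟩
      refine ⟨a1, a2, a3, a4, ?_⟩
      by_contra hlt
      push Not at hlt
      have hsF : s ∈ F := by
        rw [hF, Finset.mem_filter, Set.Finite.mem_toFinset]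
        exact ⟨⟨a1, a2, a3, a4, a5.trans (min_le_right _ _)⟩, hlt⟩
      have := hmin s hsF
      have h3 := a5.trans (min_le_left _ _)
      linarith
    · rintro ⟨a1, a2, a3, a4, a5⟩
      exact ⟨a1, a2, a3, a4, a5.trans (le_min (by linarith) (by linarith))⟩
  · refine ⟨t + 1, by linarith, ?_⟩
    rw [NZ_eq, NZ_eq]
    congr 1
    ext s
    rw [Set.Finite.mem_toFinset, Set.Finite.mem_toFinset]
    constructor
    · rintro ⟨a1, a2, a3, a4, a5⟩
      refine ⟨a1, a2, a3, a4, ?_⟩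
      by_contra hlt
      push Not at hlt
      apply hne
      exact ⟨s, by
        rw [hF, Finset.mem_filter, Set.Finite.mem_toFinset]
        exact ⟨⟨a1, a2, a3, a4, a5⟩, hlt⟩⟩
    · rintro ⟨a1, a2, a3, a4, a5⟩
      exact ⟨a1, a2, a3, a4, a5.trans (by linarith)⟩

/-- there are zeros of arbitrarily large ordinate -/
theorem exists_zero_above (T : ℝ) :
    ∃ s : ℂ, riemannZeta s = 0 ∧ 0 < s.re ∧ s.re < 1 ∧ T ≤ s.im := by
  obtain ⟨T0, hT0⟩ := no_sep (3 / 4) (by norm_num) (by norm_num)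
  by_contra hcon
  push Not at hcon
  apply hT0 (max T T0) (le_max_right _ _)
  have key : ∀ s : ℂ, 0 < s.re → s.re < 1 → max T T0 ≤ s.im → riemannZeta s = 0 → False := by
    intro s h1 h2 h3 h4
    have := hcon s h4 h1 h2
    have h5 := (le_max_left T T0).trans h3
    linarith
  exact ⟨fun s h1 h2 h3 _ h5 => (key s h1 h2 h3 h5).elim,
    fun s h1 h2 h3 _ h5 => (key s h1 h2 h3 h5).elim,
    fun s _ h1 h2 h3 _ h5 => (key s h1 h2 h3 h5).elim⟩

theorem NZ_unbounded (n : ℕ) : ∃ t : ℝ, n ≤ NZ t := by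
  induction n with
  | zero => exact ⟨0, Nat.zero_le _⟩
  | succ n ih =>
    obtain ⟨t, ht⟩ := ih
    obtain ⟨s, h1, h2, h3, h4⟩ := exists_zero_above (max t 0 + 1)
    have h5 : t < s.im := by linarith [le_max_left t 0]
    have h6 : 0 < s.im := by linarith [le_max_right t 0]
    refine ⟨s.im, ?_⟩
    have := NZ_add_le t s.im h5.le {s} (by
      intro z hz
      rw [Finset.mem_singleton] at hz
      subst hz
      exact ⟨⟨h1, h2, h3, h6, le_rfl⟩, h5⟩)
    rw [Finset.sum_singleton] at this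
    have h7 := zmult_pos h6 h1
    omega

theorem ord_le_iff {n : ℕ} (hn : 1 ≤ n) (t : ℝ) : ord n ≤ t ↔ n ≤ NZ t := by
  have hbdd : BddBelow {t : ℝ | n ≤ NZ t} := by
    refine ⟨0, ?_⟩
    intro u hu
    by_contra hlt
    push Not at hlt
    have h1 : n ≤ NZ u := hu
    rw [NZ_nonpos hlt.le] at h1
    omega
  constructor
  · intro h
    obtain ⟨t', ht', he⟩ := NZ_right t
    have h1 : sInf {t : ℝ | n ≤ NZ t} < t' := lt_of_le_of_lt h ht'
    obtain ⟨u, hu, hut⟩ := exists_lt_of_csInf_lt (NZ_unbounded n) h1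
    have h2 : n ≤ NZ u := hu
    rw [← he]
    exact h2.trans (NZ_mono hut.le)
  · intro h
    exact csInf_le hbdd h

theorem ord_pos {n : ℕ} (hn : 1 ≤ n) : 0 < ord n := by
  by_contra h
  push Not at h
  have := (ord_le_iff hn 0).mp h
  rw [NZ_nonpos le_rfl] at this
  omega

theorem le_NZ_ord {n : ℕ} (hn : 1 ≤ n) : n ≤ NZ (ord n) := (ord_le_iff hn _).mp le_rfl

theorem ord_mono {n m : ℕ} (hn : 1 ≤ n) (h : n ≤ m) : ord n ≤ ord m :=
  (ord_le_iff hn _).mpr (h.trans (le_NZ_ord (hn.trans h)))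

theorem ord_tendsto : Tendsto ord atTop atTop := by
  rw [tendsto_atTop]
  intro b
  filter_upwards [eventually_ge_atTop (NZ b + 1)] with n hn
  by_contra h
  push Not at h
  have := (ord_le_iff (by omega : 1 ≤ n) b).mp h.le
  omega

/-- two (possibly equal) ordinates `t1 ≤ t2`: if `t1 < t2`, or if at least two zeros have the
ordinate `t1 = t2`, then there are two consecutive ordinates between them -/
theorem exists_consecutive {t1 t2 : ℝ}
    (hj : (∃ k : ℕ, 1 ≤ k ∧ (∀ t, t < t1 → NZ t + 1 ≤ k) ∧ k ≤ NZ t1 ∧ k + 1 ≤ NZ t2)) :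
    ∃ n : ℕ, 1 ≤ n ∧ t1 ≤ ord n ∧ ord (n + 1) ≤ t2 := by
  obtain ⟨k, hk1, hk2, hk3, hk4⟩ := hj
  refine ⟨k, hk1, ?_, (ord_le_iff (by omega) t2).mpr hk4⟩
  by_contra h
  push Not at h
  have h1 := hk2 _ h
  have h2 := le_NZ_ord hk1
  omega

theorem jump_one {s : ℂ} (h : riemannZeta s = 0) (h1 : 0 < s.re) (h2 : s.re < 1) (h3 : 0 < s.im)
    (t : ℝ) (ht : t < s.im) : NZ t + zmult s ≤ NZ s.im := by
  have := NZ_add_le t s.im ht.le {s} (by
    intro z hz
    rw [Finset.mem_singleton] at hz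
    subst hz
    exact ⟨⟨h, h1, h2, h3, le_rfl⟩, ht⟩)
  rwa [Finset.sum_singleton] at this

theorem jump_two {s s' : ℂ} (h : riemannZeta s = 0) (h1 : 0 < s.re) (h2 : s.re < 1)
    (h3 : 0 < s.im) (h' : riemannZeta s' = 0) (h1' : 0 < s'.re) (h2' : s'.re < 1)
    (he : s'.im = s.im) (hne : s ≠ s') (t : ℝ) (ht : t < s.im) : NZ t + 2 ≤ NZ s.im := by
  classical
  have := NZ_add_le t s.im ht.le {s, s'} (by
    intro z hz
    rw [Finset.mem_insert, Finset.mem_singleton] at hz
    rcases hz with hz | hz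
    · subst hz
      exact ⟨⟨h, h1, h2, h3, le_rfl⟩, ht⟩
    · subst hz
      exact ⟨⟨h', h1', h2', he ▸ h3, he.le⟩, he ▸ ht⟩)
  rw [Finset.sum_pair hne] at this
  have h4 := zmult_pos h3 h
  have h5 := zmult_pos (he ▸ h3 : 0 < s'.im) h'
  omega

/-- if at least two zeros (with multiplicity) have ordinate `t1` -/
theorem consecutive_of_jump {t1 : ℝ} (h0 : 0 < t1) (hj : ∀ t, t < t1 → NZ t + 2 ≤ NZ t1) :
    ∃ n : ℕ, 1 ≤ n ∧ t1 ≤ ord n ∧ ord (n + 1) ≤ t1 := by
  have h1 := hj 0 h0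
  apply exists_consecutive
  refine ⟨NZ t1 - 1, by omega, ?_, by omega, by omega⟩
  intro t ht
  have := hj t ht
  omega

theorem consecutive_of_lt {s s' : ℂ} (h : riemannZeta s = 0) (h1 : 0 < s.re) (h2 : s.re < 1)
    (h3 : 0 < s.im) (h' : riemannZeta s' = 0) (h1' : 0 < s'.re) (h2' : s'.re < 1)
    (hlt : s.im < s'.im) :
    ∃ n : ℕ, 1 ≤ n ∧ s.im ≤ ord n ∧ ord (n + 1) ≤ s'.im := by
  have hp := zmult_pos h3 h
  have hp' := zmult_pos (h3.trans hlt) h'
  have j1 := jump_one h h1 h2 h3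
  have j2 := jump_one h' h1' h2' (h3.trans hlt) s.im hlt
  apply exists_consecutive
  refine ⟨NZ s.im, ?_, ?_, le_rfl, by omega⟩
  · have := j1 0 h3
    omega
  · intro t ht
    have := j1 t ht
    omega

/-- the reflected zero -/
theorem zero_reflect {s : ℂ} (h : riemannZeta s = 0) (h1 : 0 < s.re) (h2 : s.re < 1)
    (h3 : 1 ≤ s.im) : riemannZeta (1 - (starRingEnd ℂ) s) = 0 := by
  have hs := H370.good_zeta.symm s h1 h2 h3
  have hs1 : s ≠ 1 := by intro h; rw [h] at h3; norm_num at h3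
  have h4 : analyticOrderAt riemannZeta s ≠ 0 := (zeta_an hs1).analyticOrderAt_ne_zero.mpr h
  rw [← hs] at h4
  exact apply_eq_zero_of_analyticOrderAt_ne_zero h4

/-- failure of `Sep` gives a small gap -/
theorem gap_of_not_sep {δ T : ℝ} (hT : 1 ≤ T) (hδ : 0 ≤ δ) (h : ¬ Sep δ T) :
    ∃ n : ℕ, 1 ≤ n ∧ T ≤ ord n ∧ ord (n + 1) ≤ 2 * T ∧ ord (n + 1) - ord n ≤ δ := by
  by_contra hcon
  push Not at hcon
  have key : ∀ t1 t2 : ℝ, T ≤ t1 → t2 ≤ 2 * T → t2 - t1 ≤ δ →
      (∃ n : ℕ, 1 ≤ n ∧ t1 ≤ ord n ∧ ord (n + 1) ≤ t2) → False := by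
    rintro t1 t2 h1 h2 h3 ⟨n, hn, h4, h5⟩
    have := hcon n hn (h1.trans h4) (h5.trans h2)
    linarith
  apply h
  refine ⟨?_, ?_, ?_⟩
  · intro s h1 h2 h3 h4 h5
    by_contra hre
    have hz := zero_reflect h5 h1 h2 (hT.trans h3)
    have him : (1 - (starRingEnd ℂ) s).im = s.im := by simp
    have hre' : (1 - (starRingEnd ℂ) s).re = 1 - s.re := by simp
    have hpos : 0 < s.im := by linarith
    refine key s.im s.im h3 h4 (by linarith) (consecutive_of_jump hpos ?_)
    intro t ht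
    refine jump_two h5 h1 h2 hpos hz (by rw [hre']; linarith) (by rw [hre']; linarith) him ?_ t ht
    intro he
    have := congrArg Complex.re he
    rw [hre'] at this
    apply hre
    linarith
  · intro s h1 h2 h3 h4 h5 h6
    have hpos : 0 < s.im := by linarith
    refine key s.im s.im h3 h4 (by linarith) (consecutive_of_jump hpos ?_)
    intro t ht
    have := jump_one h5 h1 h2 hpos t ht
    have := zmult_two hpos h5 h6
    omega
  · intro s s' h1 h2 h3 h4 h5 h1' h2' h3' h4' h5' hne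
    by_contra hd
    push Not at hd
    have hpos : 0 < s.im := by linarith
    have hpos' : 0 < s'.im := by linarith
    rcases lt_trichotomy s.im s'.im with hlt | heq | hgt
    · refine key s.im s'.im h3 h4' ?_ (consecutive_of_lt h5 h1 h2 hpos h5' h1' h2' hlt)
      have := (abs_le.mp hd).1
      linarith
    · refine key s.im s.im h3 h4 (by linarith) (consecutive_of_jump hpos ?_)
      intro t ht
      exact jump_two h5 h1 h2 hpos h5' h1' h2' heq.symm hne t ht
    · refine key s'.im s.im h3' h4 ?_ (consecutive_of_lt h5' h1' h2' hpos' h5 h1 h2 hgt)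
      have := (abs_le.mp hd).2
      linarith

/-- **small gaps in dyadic ranges** (unconditional) -/
theorem small_gap (c : ℝ) (hc : 1 / 2 < c) : ∃ T0 : ℝ, ∀ T : ℝ, T0 ≤ T →
    ∃ n : ℕ, 1 ≤ n ∧ T ≤ ord n ∧ ord (n + 1) ≤ 2 * T ∧
      ord (n + 1) - ord n < c * (2 * Real.pi / Real.log T) := by
  set c' := (1 / 2 + min c 1) / 2 with hc'
  have h1 : 1 / 2 < min c 1 := lt_min hc (by norm_num)
  have h2 : min c 1 ≤ c := min_le_left _ _
  have h3 : min c 1 ≤ 1 := min_le_right _ _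
  obtain ⟨T0, hT0⟩ := no_sep c' (by linarith) (by linarith)
  refine ⟨max T0 2, fun T hT => ?_⟩
  have hT2 : 2 ≤ T := (le_max_right _ _).trans hT
  have hlog : 0 < Real.log T := Real.log_pos (by linarith)
  have hpi := Real.pi_pos
  have hδ : 0 ≤ dl c' T := by unfold dl; positivity
  obtain ⟨n, hn, h4, h5, h6⟩ := gap_of_not_sep (by linarith) hδ (hT0 T ((le_max_left _ _).trans hT))
  refine ⟨n, hn, h4, h5, h6.trans_lt ?_⟩
  have e : c * (2 * Real.pi / Real.log T) = (c * (2 * Real.pi)) / Real.log T := by ring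
  rw [e]
  unfold dl
  apply div_lt_div_of_pos_right _ hlog
  have : c' < c := by rw [hc']; linarith
  nlinarith

/-! ### Upper bound for the number of zeros -/

theorem NZ_le_add (a b : ℝ) (ha : 1 ≤ a) :
    NZ b ≤ NZ a + H370.NN riemannZeta a b := by
  classical
  have hfin := H370.zset_finite H370.good_zeta a b ha
  have hNN : H370.NN riemannZeta a b = ∑ s ∈ hfin.toFinset, zmult s :=
    finsum_mem_eq_finite_toFinset_sum _ hfin
  rw [NZ_eq, NZ_eq, hNN, ← Finset.sum_filter_add_sum_filter_not _ (fun s : ℂ => s.im ≤ a)]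
  apply add_le_add
  · apply Finset.sum_le_sum_of_subset
    intro s hs
    rw [Finset.mem_filter, Set.Finite.mem_toFinset] at hs
    rw [Set.Finite.mem_toFinset]
    exact ⟨hs.1.1, hs.1.2.1, hs.1.2.2.1, hs.1.2.2.2.1, hs.2⟩
  · apply Finset.sum_le_sum_of_subset
    intro s hs
    rw [Finset.mem_filter, Set.Finite.mem_toFinset] at hs
    rw [Set.Finite.mem_toFinset]
    exact ⟨hs.1.2.1, hs.1.2.2.1, not_le.mp hs.2, hs.1.2.2.2.2, hs.1.1⟩

theorem NZ_nat_bound : ∃ C : ℝ, 0 < C ∧ ∀ m : ℕ, 3 ≤ m →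
    (NZ (m : ℝ) : ℝ) ≤ NZ 3 + C * m * Real.log m := by
  obtain ⟨C, hC, hz⟩ := H370.zcount H370.good_zeta
  refine ⟨C, hC, ?_⟩
  intro m hm
  induction m, hm using Nat.le_induction with
  | base =>
    have : 0 ≤ Real.log ((3 : ℕ) : ℝ) := Real.log_nonneg (by norm_num)
    push_cast at this ⊢
    have : 0 ≤ C * 3 * Real.log 3 := by positivity
    linarith
  | succ m hm ih =>
    have hm' : (3 : ℝ) ≤ m := by exact_mod_cast hm
    have h1 := NZ_le_add (m : ℝ) (m + 1 : ℝ) (by linarith)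
    have h2 : H370.NN riemannZeta (m : ℝ) (m + 1) ≤ H370.NN riemannZeta (m - 1) (m + 1) :=
      H370.NN_mono H370.good_zeta (by linarith) (by linarith) le_rfl
    have h3 := hz (m : ℝ) hm'
    have h4 : (NZ ((m : ℝ) + 1) : ℝ) ≤ NZ (m : ℝ) + H370.NN riemannZeta (m - 1) (m + 1) := by
      exact_mod_cast h1.trans (Nat.add_le_add_left h2 _)
    have h5 : Real.log m ≤ Real.log (m + 1) := Real.log_le_log (by linarith) (by linarith)
    have h6 : 0 ≤ Real.log m := Real.log_nonneg (by linarith)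
    push_cast
    have h7 : C * m * Real.log m + C * Real.log m ≤ C * (m + 1) * Real.log (m + 1) := by
      have : C * (m + 1) * Real.log m ≤ C * (m + 1) * Real.log (m + 1) := by gcongr
      nlinarith
    linarith

theorem NZ_pow_bound (η : ℝ) (hη : 0 < η) : ∃ T1 : ℝ, ∀ T : ℝ, T1 ≤ T →
    (NZ (2 * T) : ℝ) ≤ T ^ (1 + η) := by
  obtain ⟨C, hC, hb⟩ := NZ_nat_bound
  -- NZ (2T) ≤ NZ 3 + C (2T+1) log (2T+1) ≤ NZ 3 + C (3T)^{1+η/2} * (2/η)
  set A : ℝ := NZ 3 + C * 3 ^ (1 + η / 2) * (2 / η) with hA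
  have hA0 : 0 ≤ A := by positivity
  have hlim : Tendsto (fun T : ℝ => T ^ (η / 2)) atTop atTop := tendsto_rpow_atTop (by linarith)
  obtain ⟨T2, hT2⟩ := (tendsto_atTop.mp hlim A).exists_forall_of_atTop
  refine ⟨max T2 3, fun T hT => ?_⟩
  have hT3 : 3 ≤ T := (le_max_right _ _).trans hT
  have h1 := hT2 T ((le_max_left _ _).trans hT)
  set m : ℕ := ⌈2 * T⌉₊ with hm
  have hm1 : 2 * T ≤ m := Nat.le_ceil _
  have hm2 : (m : ℝ) ≤ 3 * T := by
    have := (Nat.ceil_lt_add_one (by linarith : 0 ≤ 2 * T)).le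
    linarith
  have hm3 : 3 ≤ m := by
    have : (3 : ℝ) ≤ m := by linarith
    exact_mod_cast this
  have h2 := hb m hm3
  have h3 : (NZ (2 * T) : ℝ) ≤ NZ (m : ℝ) := by exact_mod_cast NZ_mono hm1
  have hm0 : (0 : ℝ) < m := by linarith
  have h4 : Real.log m ≤ (m : ℝ) ^ (η / 2) / (η / 2) := Real.log_le_rpow_div hm0.le (by linarith)
  have h5 : C * m * Real.log m ≤ C * 3 ^ (1 + η / 2) * (2 / η) * T ^ (1 + η / 2) := by
    calc C * m * Real.log m ≤ C * m * ((m : ℝ) ^ (η / 2) / (η / 2)) := by gcongr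
      _ = C * (2 / η) * (m : ℝ) ^ (1 + η / 2) := by
          rw [Real.rpow_add hm0, Real.rpow_one]; field_simp
      _ ≤ C * (2 / η) * (3 * T) ^ (1 + η / 2) := by gcongr
      _ = _ := by rw [Real.mul_rpow (by norm_num) (by linarith)]; ring
  have hT1 : (1 : ℝ) ≤ T ^ (1 + η / 2) := Real.one_le_rpow (by linarith) (by linarith)
  have h6 : (NZ 3 : ℝ) ≤ NZ 3 * T ^ (1 + η / 2) := le_mul_of_one_le_right (by positivity) hT1
  calc (NZ (2 * T) : ℝ) ≤ NZ 3 + C * m * Real.log m := h3.trans h2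
    _ ≤ NZ 3 * T ^ (1 + η / 2) + C * 3 ^ (1 + η / 2) * (2 / η) * T ^ (1 + η / 2) :=
        add_le_add h6 h5
    _ = A * T ^ (1 + η / 2) := by rw [hA]; ring
    _ ≤ T ^ (η / 2) * T ^ (1 + η / 2) := by gcongr
    _ = T ^ (1 + η) := by
        rw [← Real.rpow_add (by linarith)]; congr 1; ring

/-! ### Final forms -/

/-- small gaps at arbitrarily large indices, with control of the height -/
theorem small_gap_large (c : ℝ) (hc : 1 / 2 < c) (η : ℝ) (hη : 0 < η) (N : ℕ) (T1 : ℝ) :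
    ∃ (n : ℕ) (T : ℝ), N ≤ n ∧ T1 ≤ T ∧ T ≤ ord n ∧ ord (n + 1) ≤ 2 * T ∧
      (n : ℝ) ≤ T ^ (1 + η) ∧ ord (n + 1) - ord n < c * (2 * Real.pi / Real.log T) := by
  obtain ⟨T0, hT0⟩ := small_gap c hc
  obtain ⟨T2, hT2⟩ := NZ_pow_bound η hη
  set T := max (max T0 T2) (max T1 (ord (N + 1) + 1)) with hT
  have e0 : T0 ≤ T := (le_max_left _ _).trans (le_max_left _ _)
  have e2 : T2 ≤ T := (le_max_right _ _).trans (le_max_left _ _)
  have e1 : T1 ≤ T := (le_max_left _ _).trans (le_max_right _ _)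
  have e3 : ord (N + 1) + 1 ≤ T := (le_max_right _ _).trans (le_max_right _ _)
  obtain ⟨n, hn, h1, h2, h3⟩ := hT0 T e0
  refine ⟨n, T, ?_, e1, h1, h2, ?_, h3⟩
  · by_contra hlt
    push Not at hlt
    have := ord_mono hn (by omega : n ≤ N + 1)
    linarith
  · have h4 := (ord_le_iff (by omega : 1 ≤ n + 1) (2 * T)).mp h2
    have h5 : (n : ℝ) ≤ NZ (2 * T) := by exact_mod_cast (by omega : n ≤ NZ (2 * T))
    exact h5.trans (hT2 T e2)

theorem small_gap_freq (c : ℝ) (hc : 1 / 2 < c) :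
    ∃ᶠ n : ℕ in atTop, ord (n + 1) - ord n < c * (2 * Real.pi / Real.log n) := by
  rw [frequently_atTop]
  intro N
  set c1 := (c + 1 / 2) / 2 with hc1
  have h1 : 1 / 2 < c1 := by rw [hc1]; linarith
  have h2 : c1 < c := by rw [hc1]; linarith
  set η := c / c1 - 1 with hη
  have hc10 : 0 < c1 := by linarith
  have hη0 : 0 < η := by
    rw [hη, sub_pos, one_lt_div hc10]; exact h2
  obtain ⟨n, T, hn, hT1, h3, h4, h5, h6⟩ := small_gap_large c1 h1 η hη0 (max N 2) 2
  refine ⟨n, (le_max_left _ _).trans hn, h6.trans_le ?_⟩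
  have hn2 : 2 ≤ n := (le_max_right _ _).trans hn
  have hlogn : 0 < Real.log n := Real.log_pos (by exact_mod_cast hn2)
  have hlogT : 0 < Real.log T := Real.log_pos (by linarith)
  have hpi := Real.pi_pos
  have h7 : Real.log n ≤ (1 + η) * Real.log T := by
    have := Real.log_le_log (by positivity) h5
    rwa [Real.log_rpow (by linarith)] at this
  have h8 : c1 * (1 + η) = c := by rw [hη]; field_simp; ring
  rw [← mul_div_assoc, ← mul_div_assoc, div_le_div_iff₀ hlogT hlogn]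
  calc c1 * (2 * Real.pi) * Real.log n ≤ c1 * (2 * Real.pi) * ((1 + η) * Real.log T) := by gcongr
    _ = c * (2 * Real.pi) * Real.log T := by rw [← h8]; ring

/-- normalisation by the local density at `ord n` -/
theorem small_gap_freq' (c : ℝ) (hc : 1 / 2 < c) :
    ∃ᶠ n : ℕ in atTop,
      (ord (n + 1) - ord n) / (2 * Real.pi) * Real.log (ord n / (2 * Real.pi)) < c := by
  rw [frequently_atTop]
  intro N
  obtain ⟨n, T, hn, hT1, h3, h4, -, h6⟩ := small_gap_large c hc 1 one_pos (max N 1) 10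
  refine ⟨n, (le_max_left _ _).trans hn, ?_⟩
  have hn1 : 1 ≤ n := (le_max_right _ _).trans hn
  have hpi := Real.pi_gt_three
  have hlogT : 0 < Real.log T := Real.log_pos (by linarith)
  have h7 : ord n ≤ ord (n + 1) := ord_mono hn1 (by omega)
  have h8 : Real.log (ord n / (2 * Real.pi)) ≤ Real.log T := by
    apply Real.log_le_log (by have := ord_pos hn1; positivity)
    rw [div_le_iff₀ (by positivity)]
    nlinarith
  have h9 : 0 ≤ (ord (n + 1) - ord n) / (2 * Real.pi) := by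
    apply div_nonneg (by linarith) (by positivity)
  calc _ ≤ (ord (n + 1) - ord n) / (2 * Real.pi) * Real.log T := mul_le_mul_of_nonneg_left h8 h9
    _ < (c * (2 * Real.pi / Real.log T)) / (2 * Real.pi) * Real.log T := by gcongr
    _ = c := by field_simp

/-- normalisation by `γ log γ` -/
theorem small_gap_freq'' (c : ℝ) (hc : 1 / 2 < c) :
    ∃ᶠ n : ℕ in atTop,
      (ord (n + 1) * Real.log (ord (n + 1)) - ord n * Real.log (ord n)) / (2 * Real.pi) < c := by
  rw [frequently_atTop]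
  intro N
  set c1 := (c + 1 / 2) / 2 with hc1
  have h1 : 1 / 2 < c1 := by rw [hc1]; linarith
  have h2 : c1 < c := by rw [hc1]; linarith
  -- choose T1 with c1 (log (2T) + 1) ≤ c log T
  set T1 := Real.exp (2 * c1 / (c - c1)) with hT1
  obtain ⟨n, T, hn, hT, h3, h4, -, h6⟩ := small_gap_large c1 h1 1 one_pos (max N 1) (max T1 10)
  refine ⟨n, (le_max_left _ _).trans hn, ?_⟩
  have hn1 : 1 ≤ n := (le_max_right _ _).trans hn
  have hpi := Real.pi_gt_three
  have hT10 : 10 ≤ T := (le_max_right _ _).trans hT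
  have hlogT : 0 < Real.log T := Real.log_pos (by linarith)
  have h7 : ord n ≤ ord (n + 1) := ord_mono hn1 (by omega)
  have hlog2 : 2 * c1 / (c - c1) ≤ Real.log T := by
    rw [Real.le_log_iff_exp_le (by linarith)]
    exact (le_max_left _ _).trans hT
  have hcc : 0 < c - c1 := by linarith
  rw [div_le_iff₀ hcc] at hlog2
  set a := ord n with ha
  set b := ord (n + 1) with hb
  have ha0 : 0 < a := ord_pos hn1
  have hb0 : 0 < b := by linarith
  -- b log b - a log a ≤ (b-a) (log b + 1)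
  have h8 : b * Real.log b - a * Real.log a ≤ (b - a) * (Real.log b + 1) := by
    have e1 : Real.log (b / a) ≤ b / a - 1 := Real.log_le_sub_one_of_pos (by positivity)
    rw [Real.log_div hb0.ne' ha0.ne'] at e1
    have e2 : a * (Real.log b - Real.log a) ≤ a * (b / a - 1) := mul_le_mul_of_nonneg_left e1 ha0.le
    have e3 : a * (b / a - 1) = b - a := by field_simp
    nlinarith
  have h9 : Real.log b ≤ Real.log T + 1 := by
    have e1 : Real.log b ≤ Real.log (2 * T) := Real.log_le_log hb0 h4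
    rw [Real.log_mul (by norm_num) (by linarith)] at e1
    linarith [Real.log_two_lt_d9]
  have h10 : (b - a) * (Real.log b + 1) ≤ (b - a) * (Real.log T + 2) :=
    mul_le_mul_of_nonneg_left (by linarith) (by linarith)
  have h11 : (b - a) * (Real.log T + 2) < c1 * (2 * Real.pi / Real.log T) * (Real.log T + 2) := by
    apply mul_lt_mul_of_pos_right h6 (by linarith)
  have h12 : c1 * (2 * Real.pi / Real.log T) * (Real.log T + 2) ≤ c * (2 * Real.pi) := by
    rw [← mul_div_assoc, div_mul_eq_mul_div, div_le_iff₀ hlogT]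
    have : c1 * (Real.log T + 2) ≤ c * Real.log T := by nlinarith
    nlinarith
  rw [div_lt_iff₀ (by positivity)]
  linarith

/-! ### Sanity of the enumeration -/

/-- number of zeros with ordinate exactly `t` -/
theorem NZ_left (t : ℝ) : ∃ t' : ℝ, t' < t ∧
    NZ t = NZ t' + ∑ᶠ s ∈ {s : ℂ | riemannZeta s = 0 ∧ 0 < s.re ∧ s.re < 1 ∧ 0 < s.im ∧
      s.im = t}, zmult s := by
  classical
  have hfin := ZS_finite t
  set F := hfin.toFinset.filter (fun s => s.im < t) with hF
  have hfin2 : ({s : ℂ | riemannZeta s = 0 ∧ 0 < s.re ∧ s.re < 1 ∧ 0 < s.im ∧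
      s.im = t}).Finite := hfin.subset (fun s hs => ⟨hs.1, hs.2.1, hs.2.2.1, hs.2.2.2.1,
        hs.2.2.2.2.le⟩)
  have hsplit : ∀ t' : ℝ, t' < t → (∀ s ∈ F, s.im ≤ t') →
      NZ t = NZ t' + ∑ᶠ s ∈ {s : ℂ | riemannZeta s = 0 ∧ 0 < s.re ∧ s.re < 1 ∧ 0 < s.im ∧
        s.im = t}, zmult s := by
    intro t' ht' hF'
    rw [finsum_mem_eq_finite_toFinset_sum _ hfin2, NZ_eq, NZ_eq,
      ← Finset.sum_filter_add_sum_filter_not (ZS_finite t).toFinset (fun s : ℂ => s.im < t)]
    congr 1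
    · apply Finset.sum_congr _ (fun _ _ => rfl)
      ext s
      rw [Finset.mem_filter, Set.Finite.mem_toFinset, Set.Finite.mem_toFinset]
      constructor
      · rintro ⟨⟨a1, a2, a3, a4, a5⟩, a6⟩
        refine ⟨a1, a2, a3, a4, hF' s ?_⟩
        rw [hF, Finset.mem_filter, Set.Finite.mem_toFinset]
        exact ⟨⟨a1, a2, a3, a4, a5⟩, a6⟩
      · rintro ⟨a1, a2, a3, a4, a5⟩
        exact ⟨⟨a1, a2, a3, a4, by linarith⟩, by linarith⟩
    · apply Finset.sum_congr _ (fun _ _ => rfl)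
      ext s
      rw [Finset.mem_filter, Set.Finite.mem_toFinset, Set.Finite.mem_toFinset]
      constructor
      · rintro ⟨⟨a1, a2, a3, a4, a5⟩, a6⟩
        exact ⟨a1, a2, a3, a4, le_antisymm a5 (not_lt.mp a6)⟩
      · rintro ⟨a1, a2, a3, a4, a5⟩
        exact ⟨⟨a1, a2, a3, a4, a5.le⟩, not_lt.mpr a5.ge⟩
  by_cases hne : F.Nonempty
  · obtain ⟨s0, hs0, hmax⟩ := F.exists_max_image (fun s => s.im) hne
    have h1 : s0.im < t := (Finset.mem_filter.mp hs0).2
    exact ⟨s0.im, h1, hsplit s0.im h1 hmax⟩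
  · refine ⟨t - 1, by linarith, hsplit (t - 1) (by linarith) ?_⟩
    intro s hs
    exact absurd ⟨s, hs⟩ hne

/-- **the enumeration counts every ordinate with the right multiplicity**: for `t > 0`, the number
of indices `n ≥ 1` with `ord n = t` is the sum of the multiplicities of the nontrivial zeros with
ordinate `t` -/
theorem ord_count (t : ℝ) (ht : 0 < t) :
    {n : ℕ | 1 ≤ n ∧ ord n = t}.ncard =
      ∑ᶠ s ∈ {s : ℂ | riemannZeta s = 0 ∧ 0 < s.re ∧ s.re < 1 ∧ s.im = t}, zmult s := by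
  obtain ⟨t', ht', he⟩ := NZ_left t
  have e1 : {s : ℂ | riemannZeta s = 0 ∧ 0 < s.re ∧ s.re < 1 ∧ 0 < s.im ∧ s.im = t} =
      {s : ℂ | riemannZeta s = 0 ∧ 0 < s.re ∧ s.re < 1 ∧ s.im = t} := by
    ext s
    constructor
    · rintro ⟨a1, a2, a3, a4, a5⟩; exact ⟨a1, a2, a3, a5⟩
    · rintro ⟨a1, a2, a3, a5⟩; exact ⟨a1, a2, a3, a5 ▸ ht, a5⟩
  rw [e1] at he
  have hmax : ∀ u, u < t → NZ u ≤ NZ t' := by
    intro u hu
    rcases le_or_gt u t' with h | h
    · exact NZ_mono h
    · -- no zeros in (t', u]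
      have h1 : NZ u + ∑ᶠ s ∈ {s : ℂ | riemannZeta s = 0 ∧ 0 < s.re ∧ s.re < 1 ∧ s.im = t},
          zmult s ≤ NZ t := by
        have hfin2 : ({s : ℂ | riemannZeta s = 0 ∧ 0 < s.re ∧ s.re < 1 ∧ s.im = t}).Finite :=
          (ZS_finite t).subset (fun s hs => ⟨hs.1, hs.2.1, hs.2.2.1, hs.2.2.2 ▸ ht,
            hs.2.2.2.le⟩)
        rw [finsum_mem_eq_finite_toFinset_sum _ hfin2]
        apply NZ_add_le u t hu.le
        intro s hs
        rw [Set.Finite.mem_toFinset] at hs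
        exact ⟨⟨hs.1, hs.2.1, hs.2.2.1, hs.2.2.2 ▸ ht, hs.2.2.2.le⟩, hs.2.2.2 ▸ hu⟩
      omega
  have hset : {n : ℕ | 1 ≤ n ∧ ord n = t} = Set.Ioc (NZ t') (NZ t) := by
    ext n
    constructor
    · rintro ⟨h1, h2⟩
      refine ⟨?_, (ord_le_iff h1 t).mp h2.le⟩
      by_contra hle
      push Not at hle
      have := (ord_le_iff h1 t').mpr hle
      linarith
    · rintro ⟨h1, h2⟩
      have hn : 1 ≤ n := by omega
      refine ⟨hn, le_antisymm ((ord_le_iff hn t).mpr h2) ?_⟩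
      by_contra hlt
      push Not at hlt
      have h3 := le_NZ_ord hn
      have h4 := hmax _ hlt
      omega
  have hc : (Set.Ioc (NZ t') (NZ t)).ncard = NZ t - NZ t' := by
    rw [← Finset.coe_Ioc, Set.ncard_coe_finset, Nat.card_Ioc]
  rw [hset, hc]
  omega

/-! ### Distinct ordinates, on the Riemann hypothesis -/

/-- On RH: either there are infinitely many multiple zeros, or in every interval `[T, 2T]` with `T`
large there are two zeros with consecutive distinct ordinates and gap `< c * 2π / log T`. -/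
theorem distinct_alt (c : ℝ) (hc : 1 / 2 < c) (RH : RiemannHypothesis) :
    {s : ℂ | riemannZeta s = 0 ∧ 0 < s.re ∧ s.re < 1 ∧ 0 < s.im ∧ 2 ≤ zmult s}.Infinite ∨
    ∃ T0 : ℝ, ∀ T : ℝ, T0 ≤ T → ∃ g g' : ℝ, T ≤ g ∧ g < g' ∧ g' ≤ 2 * T ∧
      riemannZeta (1 / 2 + I * g) = 0 ∧ riemannZeta (1 / 2 + I * g') = 0 ∧
      (∀ t : ℝ, g < t → t < g' → riemannZeta (1 / 2 + I * t) ≠ 0) ∧
      g' - g < c * (2 * Real.pi / Real.log T) := by
  classical
  by_cases hinf : {s : ℂ | riemannZeta s = 0 ∧ 0 < s.re ∧ s.re < 1 ∧ 0 < s.im ∧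
      2 ≤ zmult s}.Infinite
  · exact Or.inl hinf
  right
  rw [Set.not_infinite] at hinf
  obtain ⟨T1, hT1⟩ : ∃ T1 : ℝ, ∀ s ∈ {s : ℂ | riemannZeta s = 0 ∧ 0 < s.re ∧ s.re < 1 ∧
      0 < s.im ∧ 2 ≤ zmult s}, s.im < T1 := by
    obtain ⟨M, hM⟩ := (hinf.image Complex.im).bddAbove
    refine ⟨M + 1, fun s hs => ?_⟩
    have := hM (Set.mem_image_of_mem _ hs)
    linarith
  set c' := (1 / 2 + min c 1) / 2 with hc'
  have h1 : 1 / 2 < min c 1 := lt_min hc (by norm_num)
  have h2 : min c 1 ≤ c := min_le_left _ _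
  have h3 : min c 1 ≤ 1 := min_le_right _ _
  obtain ⟨T0, hT0⟩ := no_sep c' (by linarith) (by linarith)
  refine ⟨max (max T0 T1) 2, fun T hT => ?_⟩
  have hT2 : 2 ≤ T := (le_max_right _ _).trans hT
  have hTT0 : T0 ≤ T := (le_max_left _ _).trans ((le_max_left _ _).trans hT)
  have hTT1 : T1 ≤ T := (le_max_right _ _).trans ((le_max_left _ _).trans hT)
  have hlog : 0 < Real.log T := Real.log_pos (by linarith)
  have hpi := Real.pi_pos
  have hδlt : dl c' T < c * (2 * Real.pi / Real.log T) := by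
    have e : c * (2 * Real.pi / Real.log T) = (c * (2 * Real.pi)) / Real.log T := by ring
    rw [e]
    unfold dl
    apply div_lt_div_of_pos_right _ hlog
    have : c' < c := by rw [hc']; linarith
    nlinarith
  -- zeros are on the line
  have hline : ∀ s : ℂ, 0 < s.im → riemannZeta s = 0 → s.re = 1 / 2 := by
    intro s hs h0
    apply RH s h0
    · rintro ⟨n, hn⟩
      rw [hn] at hs
      simp at hs
    · intro h; rw [h] at hs; simp at hs
  have hform : ∀ s : ℂ, 0 < s.im → riemannZeta s = 0 → riemannZeta (1 / 2 + I * s.im) = 0 := by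
    intro s hs h0
    have : (1 / 2 + I * s.im : ℂ) = s := by
      apply Complex.ext
      · simp [hline s hs h0]
      · simp
    rw [this]; exact h0
  by_contra hcon
  push Not at hcon
  -- a general consequence of two zeros with close ordinates
  have key : ∀ s s' : ℂ, riemannZeta s = 0 → T ≤ s.im → s.im < s'.im → s'.im ≤ 2 * T →
      riemannZeta s' = 0 → s'.im - s.im ≤ dl c' T → False := by
    intro s s' a1 a2 a3 a4 a5 a6
    have hs : 0 < s.im := by linarith
    have hs' : 0 < s'.im := by linarith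
    set F := (ZS_finite s'.im).toFinset.filter (fun z => s.im < z.im) with hF
    have hs'F : s' ∈ F := by
      rw [hF, Finset.mem_filter, Set.Finite.mem_toFinset]
      have := hline s' hs' a5
      exact ⟨⟨a5, by rw [this]; norm_num, by rw [this]; norm_num, hs', le_rfl⟩, a3⟩
    obtain ⟨z, hz, hmin⟩ := F.exists_min_image (fun z => z.im) ⟨s', hs'F⟩
    rw [hF, Finset.mem_filter, Set.Finite.mem_toFinset] at hz
    have hz1 : z.im ≤ s'.im := hz.1.2.2.2.2
    have h4 := hcon s.im z.im a2 hz.2 (hz1.trans a4) (hform s hs a1)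
      (hform z hz.1.2.2.2.1 hz.1.1) ?_
    · linarith
    · intro t ht1 ht2 h0
      have htF : (1 / 2 + I * t : ℂ) ∈ F := by
        rw [hF, Finset.mem_filter, Set.Finite.mem_toFinset]
        have e1 : (1 / 2 + I * t : ℂ).re = 1 / 2 := by simp
        have e2 : (1 / 2 + I * t : ℂ).im = t := by simp
        refine ⟨⟨h0, by rw [e1]; norm_num, by rw [e1]; norm_num, by rw [e2]; linarith, ?_⟩, ?_⟩
        · rw [e2]; linarith
        · rw [e2]; exact ht1
      have := hmin _ htF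
      have e2 : (1 / 2 + I * t : ℂ).im = t := by simp
      simp only [e2] at this
      linarith
  apply hT0 T hTT0
  refine ⟨fun s _ _ h3 _ h5 => hline s (by linarith) h5, ?_, ?_⟩
  · intro s h1 h2 h3 h4 h5 h6
    have hpos : 0 < s.im := by linarith
    have := hT1 s ⟨h5, h1, h2, hpos, zmult_two hpos h5 h6⟩
    linarith
  · intro s s' h1 h2 h3 h4 h5 h1' h2' h3' h4' h5' hne
    by_contra hd
    push Not at hd
    rcases lt_trichotomy s.im s'.im with hlt | heq | hgt
    · refine key s s' h5 h3 hlt h4' h5' ?_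
      have := (abs_le.mp hd).1
      linarith
    · apply hne
      apply Complex.ext
      · rw [hline s (by linarith) h5, hline s' (by linarith) h5']
      · exact heq
    · refine key s' s h5' h3' hgt h4 h5 ?_
      have := (abs_le.mp hd).2
      linarith

end SG
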