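import Pool.Agent.H382R2.Defs
import Pool.Agent.H382R2.Deep0
import Pool.Agent.H382R2.SqFree

open Complex Filter Topology Set MeasureTheory

namespace SG

namespace MVaux

theorem ek_norm (D t0 w t : ℝ) :
    ‖(Real.exp (-(t - t0) ^ 2 / (2 * D ^ 2)) : ℂ) * cexp (I * w * t)‖ =
      Real.exp (-(t - t0) ^ 2 / (2 * D ^ 2)) := by
  rw [norm_mul, Complex.norm_real, Real.norm_of_nonneg (Real.exp_pos _).le, Complex.norm_exp]
  have : (I * w * t : ℂ).re = 0 := by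
    simp [Complex.mul_re]
  rw [this, Real.exp_zero, mul_one]

theorem ek_int (D t0 w : ℝ) (hD : 0 < D) :
    Integrable (fun t : ℝ => (Real.exp (-(t - t0) ^ 2 / (2 * D ^ 2)) : ℂ) * cexp (I * w * t)) := by
  refine (Deep.gauss_integrable D t0 hD).mono' ?_ (Eventually.of_forall fun t => ?_)
  · apply Continuous.aestronglyMeasurable
    have : Continuous fun t : ℝ => Real.exp (-(t - t0) ^ 2 / (2 * D ^ 2)) := by fun_prop
    fun_prop
  · rw [ek_norm]

theorem ek_val (D t0 w : ℝ) (hD : 0 < D) :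
    ∫ t : ℝ, (Real.exp (-(t - t0) ^ 2 / (2 * D ^ 2)) : ℂ) * cexp (I * w * t) =
      ((D * Real.sqrt (2 * Real.pi) : ℝ) : ℂ) *
        (cexp (I * w * t0) * ((Real.exp (-(D ^ 2 * w ^ 2 / 2)) : ℝ) : ℂ)) := by
  have hD' : (D : ℂ) ≠ 0 := by exact_mod_cast hD.ne'
  have h1 : ∀ t : ℝ, (Real.exp (-(t - t0) ^ 2 / (2 * D ^ 2)) : ℂ) * cexp (I * w * t) =
      cexp (((-(1 / (2 * D ^ 2)) : ℝ) : ℂ) * (t : ℂ) ^ 2 +
        ((t0 / D ^ 2 : ℝ) + I * w : ℂ) * t + ((-(t0 ^ 2 / (2 * D ^ 2)) : ℝ) : ℂ)) := by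
    intro t
    rw [Complex.ofReal_exp, ← Complex.exp_add]
    congr 1
    push_cast
    field_simp
    ring
  simp_rw [h1]
  rw [integral_cexp_quadratic (by
    rw [Complex.ofReal_re]
    have : 0 < 1 / (2 * D ^ 2) := by positivity
    linarith)]
  have e1 : ((Real.pi : ℂ) / -((-(1 / (2 * D ^ 2)) : ℝ) : ℂ)) ^ (1 / 2 : ℂ) =
      ((D * Real.sqrt (2 * Real.pi) : ℝ) : ℂ) := by
    have e2 : ((Real.pi : ℂ) / -((-(1 / (2 * D ^ 2)) : ℝ) : ℂ)) =
        ((D ^ 2 * (2 * Real.pi) : ℝ) : ℂ) := by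
      push_cast
      field_simp
    have e3 : (1 / 2 : ℂ) = ((1 / 2 : ℝ) : ℂ) := by push_cast; ring
    rw [e2, e3, ← Complex.ofReal_cpow (by positivity), ← Real.sqrt_eq_rpow,
      Real.sqrt_mul (by positivity), Real.sqrt_sq hD.le]
  have e4 : (((-(t0 ^ 2 / (2 * D ^ 2)) : ℝ) : ℂ) - ((t0 / D ^ 2 : ℝ) + I * w : ℂ) ^ 2 /
      (4 * ((-(1 / (2 * D ^ 2)) : ℝ) : ℂ))) =
      I * w * t0 + ((-(D ^ 2 * w ^ 2 / 2) : ℝ) : ℂ) := by
    push_cast
    field_simp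
    ring_nf
    rw [Complex.I_sq]
    ring
  rw [e1, e4, Complex.exp_add, ← Complex.ofReal_exp]

/-- coefficient -/
noncomputable def KK (a b : ℝ) (m n : ℕ) : ℂ :=
  ((ArithmeticFunction.moebius m : ℤ) : ℂ) * ((ArithmeticFunction.moebius n : ℤ) : ℂ) *
    cexp (-((Real.log m + Real.log n : ℝ) : ℂ) / 2 + I * ((b * Real.log n - a * Real.log m : ℝ) : ℂ))

theorem KK_norm (a b : ℝ) (m n : ℕ) (hm : 1 ≤ m) (hn : 1 ≤ n) : ‖KK a b m n‖ ≤ 1 := by
  have h1 : ∀ k : ℕ, ‖((ArithmeticFunction.moebius k : ℤ) : ℂ)‖ ≤ 1 := by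
    intro k
    rw [Complex.norm_intCast]
    exact_mod_cast ArithmeticFunction.abs_moebius_le_one
  have h2 : ‖cexp (-((Real.log m + Real.log n : ℝ) : ℂ) / 2 +
      I * ((b * Real.log n - a * Real.log m : ℝ) : ℂ))‖ ≤ 1 := by
    rw [Complex.norm_exp, Real.exp_le_one_iff]
    have hm1 : 0 ≤ Real.log m := Real.log_nonneg (by exact_mod_cast hm)
    have hn1 : 0 ≤ Real.log n := Real.log_nonneg (by exact_mod_cast hn)
    have e : (-((Real.log m + Real.log n : ℝ) : ℂ) / 2 +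
      I * ((b * Real.log n - a * Real.log m : ℝ) : ℂ)).re = -(Real.log m + Real.log n) / 2 := by
      rw [Complex.add_re, Complex.I_mul_re, Complex.ofReal_im, neg_zero, add_zero,
        show (-((Real.log m + Real.log n : ℝ) : ℂ) / 2) =
          ((-(Real.log m + Real.log n) / 2 : ℝ) : ℂ) by push_cast; ring, Complex.ofReal_re]
    rw [e]
    linarith
  unfold KK
  rw [norm_mul, norm_mul]
  calc _ ≤ 1 * 1 * 1 := mul_le_mul (mul_le_mul (h1 m) (h1 n) (norm_nonneg _) zero_le_one) h2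
        (norm_nonneg _) (by norm_num)
    _ = 1 := by norm_num

theorem cpow_nat (n : ℕ) (hn : 1 ≤ n) (z : ℂ) : (n : ℂ) ^ z = cexp ((Real.log n : ℝ) * z) := by
  have hn0 : (n : ℂ) ≠ 0 := by exact_mod_cast (by omega : n ≠ 0)
  rw [Complex.cpow_def_of_ne_zero hn0, ← Complex.natCast_log]

theorem KK_diag (a b : ℝ) (n : ℕ) (hn : 1 ≤ n) :
    KK a b n n = ((ArithmeticFunction.moebius n : ℤ) : ℂ) ^ 2 * (n : ℂ) ^ (-(1 : ℂ) - I * (a - b)) := by
  rw [cpow_nat n hn, KK, sq]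
  congr 2
  push_cast
  ring

theorem expand (N : ℕ) (a b t : ℝ) :
    AA N (1 / 2 + I * (t + a)) * AA N (1 / 2 - I * (t + b)) =
      ∑ m ∈ Finset.Icc 1 N, ∑ n ∈ Finset.Icc 1 N,
        KK a b m n * cexp (I * ((Real.log n - Real.log m : ℝ) : ℂ) * t) := by
  unfold AA
  rw [Finset.sum_mul_sum]
  refine Finset.sum_congr rfl fun m hm => Finset.sum_congr rfl fun n hn => ?_
  have hm1 := (Finset.mem_Icc.mp hm).1
  have hn1 := (Finset.mem_Icc.mp hn).1
  rw [cpow_nat m hm1, cpow_nat n hn1, KK, mul_assoc (_ * _ : ℂ) (cexp _) (cexp _), ← Complex.exp_add,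
    mul_mul_mul_comm, ← Complex.exp_add]
  congr 2
  push_cast
  ring

theorem expand' (N : ℕ) (D t0 a b t : ℝ) :
    (Real.exp (-(t - t0) ^ 2 / (2 * D ^ 2)) : ℂ) * AA N (1 / 2 + I * (t + a)) *
      AA N (1 / 2 - I * (t + b)) =
      ∑ m ∈ Finset.Icc 1 N, ∑ n ∈ Finset.Icc 1 N,
        KK a b m n * ((Real.exp (-(t - t0) ^ 2 / (2 * D ^ 2)) : ℂ) *
          cexp (I * ((Real.log n - Real.log m : ℝ) : ℂ) * t)) := by
  rw [mul_assoc, expand, Finset.mul_sum]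
  refine Finset.sum_congr rfl fun m hm => ?_
  rw [Finset.mul_sum]
  refine Finset.sum_congr rfl fun n hn => ?_
  ring

theorem main_int (N : ℕ) (D t0 a b : ℝ) (hD : 0 < D) :
    Integrable (fun t : ℝ => (Real.exp (-(t - t0) ^ 2 / (2 * D ^ 2)) : ℂ) *
      AA N (1 / 2 + I * (t + a)) * AA N (1 / 2 - I * (t + b))) := by
  simp_rw [expand']
  exact integrable_finsetSum _ fun m _ => integrable_finsetSum _ fun n _ =>
    (ek_int D t0 _ hD).const_mul _

theorem log_gap {N m n : ℕ} (hm : 1 ≤ m) (hn : 1 ≤ n) (hnN : n ≤ N) (h : m < n) :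
    1 / (N : ℝ) ≤ Real.log n - Real.log m := by
  have hm0 : (0 : ℝ) < m := by exact_mod_cast hm
  have hn0 : (0 : ℝ) < n := by exact_mod_cast hn
  have hL0 : (0 : ℝ) < N := by exact_mod_cast (by omega : 0 < N)
  have h1 := Real.one_sub_inv_le_log_of_pos (div_pos hn0 hm0)
  rw [Real.log_div hn0.ne' hm0.ne'] at h1
  have h2 : (m : ℝ) + 1 ≤ n := by exact_mod_cast h
  have hnL' : (n : ℝ) ≤ N := by exact_mod_cast hnN
  have h3 : 1 / (N : ℝ) ≤ 1 - ((n : ℝ) / m)⁻¹ := by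
    rw [inv_div]
    have e : 1 - (m : ℝ) / n = ((n : ℝ) - m) / n := by field_simp
    rw [e, div_le_div_iff₀ hL0 hn0]
    nlinarith
  linarith

theorem log_gap_sq {N m n : ℕ} (hm : 1 ≤ m) (hmN : m ≤ N) (hn : 1 ≤ n) (hnN : n ≤ N) (h : m ≠ n) :
    1 / (N : ℝ) ^ 2 ≤ (Real.log n - Real.log m) ^ 2 := by
  have hL0 : (0 : ℝ) < N := by exact_mod_cast (by omega : 0 < N)
  have h0 : 0 < 1 / (N : ℝ) := by positivity
  rw [show 1 / (N : ℝ) ^ 2 = (1 / (N : ℝ)) ^ 2 by ring]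
  rcases lt_or_gt_of_ne h with h | h
  · have := log_gap hm hn hnN h
    exact pow_le_pow_left₀ h0.le this 2
  · have := log_gap hn hm hmN h
    rw [show (Real.log n - Real.log m) ^ 2 = (Real.log m - Real.log n) ^ 2 by ring]
    exact pow_le_pow_left₀ h0.le this 2

theorem general (N : ℕ) (D t0 a b : ℝ) (hD : 0 < D) :
    ‖(∫ t : ℝ, (Real.exp (-(t - t0) ^ 2 / (2 * D ^ 2)) : ℂ) *
        AA N (1 / 2 + I * (t + a)) * AA N (1 / 2 - I * (t + b)))
      - (D * Real.sqrt (2 * Real.pi) : ℝ) *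
        ∑ n ∈ Finset.Icc 1 N, (((ArithmeticFunction.moebius n : ℤ) : ℂ)) ^ 2 *
          (n : ℂ) ^ (-(1 : ℂ) - I * (a - b))‖ ≤
      D * Real.sqrt (2 * Real.pi) * ((N : ℝ) ^ 2 * Real.exp (-(D ^ 2 / (2 * (N : ℝ) ^ 2)))) := by
  simp_rw [expand']
  rw [integral_finsetSum _ fun m _ => integrable_finsetSum _ fun n _ =>
    (ek_int D t0 _ hD).const_mul _]
  have h1 : ∀ m ∈ Finset.Icc 1 N, ∫ t : ℝ, ∑ n ∈ Finset.Icc 1 N,
        KK a b m n * ((Real.exp (-(t - t0) ^ 2 / (2 * D ^ 2)) : ℂ) *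
          cexp (I * ((Real.log n - Real.log m : ℝ) : ℂ) * t)) =
      ∑ n ∈ Finset.Icc 1 N, KK a b m n * (((D * Real.sqrt (2 * Real.pi) : ℝ) : ℂ) *
        (cexp (I * ((Real.log n - Real.log m : ℝ) : ℂ) * t0) *
          ((Real.exp (-(D ^ 2 * (Real.log n - Real.log m) ^ 2 / 2)) : ℝ) : ℂ))) := by
    intro m _
    rw [integral_finsetSum _ fun n _ => (ek_int D t0 _ hD).const_mul _]
    refine Finset.sum_congr rfl fun n _ => ?_
    rw [integral_const_mul, ek_val D t0 _ hD]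
  rw [Finset.sum_congr rfl h1]
  have h2 : ((D * Real.sqrt (2 * Real.pi) : ℝ) : ℂ) *
        ∑ n ∈ Finset.Icc 1 N, (((ArithmeticFunction.moebius n : ℤ) : ℂ)) ^ 2 *
          (n : ℂ) ^ (-(1 : ℂ) - I * (a - b)) =
      ∑ m ∈ Finset.Icc 1 N, ∑ n ∈ Finset.Icc 1 N,
        if m = n then KK a b m n * ((D * Real.sqrt (2 * Real.pi) : ℝ) : ℂ) else 0 := by
    rw [Finset.mul_sum]
    refine Finset.sum_congr rfl fun m hm => ?_
    rw [Finset.sum_ite_eq, if_pos hm, KK_diag a b m (Finset.mem_Icc.mp hm).1]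
    ring
  rw [h2, ← Finset.sum_sub_distrib]
  have hDs : 0 ≤ D * Real.sqrt (2 * Real.pi) := by positivity
  have h3 : ∀ m ∈ Finset.Icc 1 N, ∀ n ∈ Finset.Icc 1 N,
      ‖KK a b m n * (((D * Real.sqrt (2 * Real.pi) : ℝ) : ℂ) *
        (cexp (I * ((Real.log n - Real.log m : ℝ) : ℂ) * t0) *
          ((Real.exp (-(D ^ 2 * (Real.log n - Real.log m) ^ 2 / 2)) : ℝ) : ℂ))) -
        (if m = n then KK a b m n * ((D * Real.sqrt (2 * Real.pi) : ℝ) : ℂ) else 0)‖ ≤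
      D * Real.sqrt (2 * Real.pi) * Real.exp (-(D ^ 2 / (2 * (N : ℝ) ^ 2))) := by
    intro m hm n hn
    obtain ⟨hm1, hmN⟩ := Finset.mem_Icc.mp hm
    obtain ⟨hn1, hnN⟩ := Finset.mem_Icc.mp hn
    have hN0 : (0 : ℝ) < N := by exact_mod_cast (by omega : 0 < N)
    by_cases hmn : m = n
    · subst hmn
      rw [if_pos rfl]
      have : KK a b m m * (((D * Real.sqrt (2 * Real.pi) : ℝ) : ℂ) *
        (cexp (I * ((Real.log m - Real.log m : ℝ) : ℂ) * t0) *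
          ((Real.exp (-(D ^ 2 * (Real.log m - Real.log m) ^ 2 / 2)) : ℝ) : ℂ))) -
        KK a b m m * ((D * Real.sqrt (2 * Real.pi) : ℝ) : ℂ) = 0 := by
        simp
      rw [this, norm_zero]
      positivity
    · rw [if_neg hmn, sub_zero, norm_mul, norm_mul, norm_mul, Complex.norm_real, Complex.norm_real,
        Real.norm_of_nonneg hDs, Real.norm_of_nonneg (Real.exp_pos _).le]
      have e1 : ‖cexp (I * ((Real.log n - Real.log m : ℝ) : ℂ) * t0)‖ = 1 := by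
        rw [Complex.norm_exp]
        have : (I * ((Real.log n - Real.log m : ℝ) : ℂ) * t0).re = 0 := by
          rw [mul_assoc, ← Complex.ofReal_mul, Complex.I_mul_re, Complex.ofReal_im, neg_zero]
        rw [this, Real.exp_zero]
      rw [e1, one_mul]
      have e2 : Real.exp (-(D ^ 2 * (Real.log n - Real.log m) ^ 2 / 2)) ≤
          Real.exp (-(D ^ 2 / (2 * (N : ℝ) ^ 2))) := by
        apply Real.exp_le_exp.mpr
        have h := log_gap_sq hm1 hmN hn1 hnN hmn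
        have h' : D ^ 2 * (1 / (N : ℝ) ^ 2) ≤ D ^ 2 * (Real.log n - Real.log m) ^ 2 :=
          mul_le_mul_of_nonneg_left h (by positivity)
        have e3 : D ^ 2 / (2 * (N : ℝ) ^ 2) = D ^ 2 * (1 / (N : ℝ) ^ 2) / 2 := by
          field_simp
        rw [e3]
        linarith
      calc ‖KK a b m n‖ * (D * Real.sqrt (2 * Real.pi) *
            Real.exp (-(D ^ 2 * (Real.log n - Real.log m) ^ 2 / 2)))
          ≤ 1 * (D * Real.sqrt (2 * Real.pi) * Real.exp (-(D ^ 2 / (2 * (N : ℝ) ^ 2)))) := by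
            apply mul_le_mul (KK_norm a b m n hm1 hn1) _ (by positivity) zero_le_one
            exact mul_le_mul_of_nonneg_left e2 hDs
        _ = _ := one_mul _
  calc _ ≤ ∑ m ∈ Finset.Icc 1 N, ‖∑ n ∈ Finset.Icc 1 N, KK a b m n *
            (((D * Real.sqrt (2 * Real.pi) : ℝ) : ℂ) *
        (cexp (I * ((Real.log n - Real.log m : ℝ) : ℂ) * t0) *
          ((Real.exp (-(D ^ 2 * (Real.log n - Real.log m) ^ 2 / 2)) : ℝ) : ℂ))) -
        ∑ n ∈ Finset.Icc 1 N,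
          (if m = n then KK a b m n * ((D * Real.sqrt (2 * Real.pi) : ℝ) : ℂ) else 0)‖ :=
        norm_sum_le _ _
    _ ≤ ∑ m ∈ Finset.Icc 1 N, ∑ n ∈ Finset.Icc 1 N,
          D * Real.sqrt (2 * Real.pi) * Real.exp (-(D ^ 2 / (2 * (N : ℝ) ^ 2))) := by
        refine Finset.sum_le_sum fun m hm => ?_
        rw [← Finset.sum_sub_distrib]
        exact norm_sum_le_of_le _ fun n hn => h3 m hm n hn
    _ = _ := by
        rw [Finset.sum_const, Finset.sum_const, Nat.card_Icc]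
        simp only [Nat.add_sub_cancel, nsmul_eq_mul]
        ring

/-- polynomial times `exp (-b T^κ)` is eventually at most `1` -/
theorem ev_small (κ b K : ℝ) (hκ : 0 < κ) (hb : 0 < b) : ∃ T0 : ℝ, 10 ≤ T0 ∧ ∀ T : ℝ, T0 ≤ T →
    K * T ^ 4 * Real.exp (-b * T ^ κ) ≤ 1 := by
  have h1 := tendsto_rpow_mul_exp_neg_mul_atTop_nhds_zero (4 / κ) b hb
  have h2 : Tendsto (fun T : ℝ => T ^ κ) atTop atTop := tendsto_rpow_atTop hκ
  have h3 := (h1.comp h2).const_mul (|K| + 1)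
  rw [mul_zero] at h3
  have h4 := h3.eventually (gt_mem_nhds (show (0 : ℝ) < 1 by norm_num))
  rw [eventually_atTop] at h4
  obtain ⟨T0, hT0⟩ := h4
  refine ⟨max 10 T0, le_max_left _ _, fun T hT => ?_⟩
  have hT10 : 10 ≤ T := (le_max_left _ _).trans hT
  have h5 := (hT0 T ((le_max_right _ _).trans hT)).le
  simp only [Function.comp] at h5
  have e : (T ^ κ) ^ (4 / κ) = T ^ 4 := by
    rw [← Real.rpow_mul (by linarith), show κ * (4 / κ) = (4 : ℕ) by field_simp; norm_num,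
      Real.rpow_natCast]
  rw [e] at h5
  refine le_trans ?_ h5
  rw [mul_assoc]
  apply mul_le_mul_of_nonneg_right _ (by positivity)
  linarith [le_abs_self K]

end MVaux

open MVaux

/-- ratio `D / N` -/
theorem dd_nn (κ T : ℝ) (hκ1 : κ < 1) (hT : 1 ≤ T) :
    T ^ κ ≤ dd κ T ^ 2 / (nn κ T : ℝ) ^ 2 := by
  obtain ⟨h1, h2, h3⟩ := nn_bounds κ T hκ1 hT
  have hN : (0 : ℝ) < nn κ T := by exact_mod_cast h1
  have hT0 : 0 < T := by linarith
  rw [le_div_iff₀ (by positivity)]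
  calc T ^ κ * (nn κ T : ℝ) ^ 2 ≤ T ^ κ * (T ^ (1 - κ)) ^ 2 := by
        apply mul_le_mul_of_nonneg_left _ (Real.rpow_nonneg hT0.le _)
        exact pow_le_pow_left₀ hN.le h3 2
    _ = dd κ T ^ 2 := by
        rw [dd, ← Real.rpow_natCast, ← Real.rpow_natCast, ← Real.rpow_mul hT0.le,
          ← Real.rpow_mul hT0.le, ← Real.rpow_add hT0]
        congr 1
        push_cast
        ring

/-- Gaussian mean value with shifts -/
theorem gauss_mv (κ : ℝ) (hκ : 0 < κ) (hκ1 : κ < 1 / 2) : ∃ T0 : ℝ, 10 ≤ T0 ∧ ∀ T : ℝ, T0 ≤ T →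
    ∀ a b t0 : ℝ,
    ‖(∫ t : ℝ, (Real.exp (-(t - t0) ^ 2 / (2 * dd κ T ^ 2)) : ℂ) *
        AA (nn κ T) (1 / 2 + I * (t + a)) * AA (nn κ T) (1 / 2 - I * (t + b)))
      - (dd κ T * Real.sqrt (2 * Real.pi) : ℝ) *
        ∑ n ∈ Finset.Icc 1 (nn κ T), (((ArithmeticFunction.moebius n : ℤ) : ℂ)) ^ 2 *
          (n : ℂ) ^ (-(1 : ℂ) - I * (a - b))‖ ≤ 1 := by
  obtain ⟨T0, h10, hT0⟩ := ev_small κ (1 / 2) 3 hκ (by norm_num)
  refine ⟨T0, h10, fun T hT a b t0 => ?_⟩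
  have hT10 : 10 ≤ T := h10.trans hT
  have hTpos : 0 < T := by linarith
  have hD : 0 < dd κ T := Deep.dd_pos κ T hTpos
  refine (general (nn κ T) (dd κ T) t0 a b hD).trans ?_
  refine le_trans ?_ (hT0 T hT)
  obtain ⟨h1, h2, h3⟩ := nn_bounds κ T (by linarith) (by linarith)
  have hN : (0 : ℝ) < nn κ T := by exact_mod_cast h1
  have hDT : dd κ T ≤ T := by
    calc dd κ T ≤ T ^ (1 : ℝ) := Real.rpow_le_rpow_of_exponent_le (by linarith) (by linarith)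
      _ = T := Real.rpow_one T
  have hNT : (nn κ T : ℝ) ≤ T := by
    calc (nn κ T : ℝ) ≤ T ^ (1 - κ) := h3
      _ ≤ T ^ (1 : ℝ) := Real.rpow_le_rpow_of_exponent_le (by linarith) (by linarith)
      _ = T := Real.rpow_one T
  have hs : Real.sqrt (2 * Real.pi) ≤ 3 := by
    rw [Real.sqrt_le_left (by norm_num)]
    have := Real.pi_lt_d2
    norm_num at this ⊢
    linarith
  have hexp : Real.exp (-(dd κ T ^ 2 / (2 * (nn κ T : ℝ) ^ 2))) ≤ Real.exp (-(1 / 2) * T ^ κ) := by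
    apply Real.exp_le_exp.mpr
    have h := dd_nn κ T (by linarith) (by linarith)
    have e : dd κ T ^ 2 / (2 * (nn κ T : ℝ) ^ 2) = (1 / 2) * (dd κ T ^ 2 / (nn κ T : ℝ) ^ 2) := by
      field_simp
    rw [e]
    linarith
  have hE : 0 ≤ Real.exp (-(1 / 2) * T ^ κ) := (Real.exp_pos _).le
  calc dd κ T * Real.sqrt (2 * Real.pi) * ((nn κ T : ℝ) ^ 2 *
        Real.exp (-(dd κ T ^ 2 / (2 * (nn κ T : ℝ) ^ 2))))
      ≤ T * 3 * (T ^ 2 * Real.exp (-(1 / 2) * T ^ κ)) := by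
        apply mul_le_mul
        · exact mul_le_mul hDT hs (Real.sqrt_nonneg _) hTpos.le
        · apply mul_le_mul _ hexp (Real.exp_pos _).le (by positivity)
          exact pow_le_pow_left₀ hN.le hNT 2
        · positivity
        · positivity
    _ ≤ 3 * T ^ 4 * Real.exp (-(1 / 2) * T ^ κ) := by
        have : T ^ 3 ≤ T ^ 4 := pow_le_pow_right₀ (by linarith) (by norm_num)
        nlinarith [mul_le_mul_of_nonneg_right this hE]

end SG
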