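import Mathlib

open Complex Filter Topology Set MeasureTheory

namespace SG

/-- Gaussian weight centred at `1/2 + i t0`, of width `D`. -/
noncomputable def phi (t0 D : ℝ) (s : ℂ) : ℂ :=
  cexp ((s - 1 / 2 - I * t0) ^ 2 / (2 * (D : ℂ) ^ 2))

/-- half of the imaginary shift -/
noncomputable def hh (δ : ℝ) : ℂ := I * ((δ / 2 : ℝ) : ℂ)

/-- `A(s) = ∑_{n ≤ N} μ(n) n^{-s}` -/
noncomputable def AA (N : ℕ) (s : ℂ) : ℂ :=
  ∑ n ∈ Finset.Icc 1 N, ((ArithmeticFunction.moebius n : ℤ) : ℂ) * (n : ℂ) ^ (-s)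

/-- `G = ζ A - 1` -/
noncomputable def GG (N : ℕ) (s : ℂ) : ℂ := riemannZeta s * AA N s - 1

/-- `Λ(s + iδ/2) Λ(s - iδ/2)` -/
noncomputable def LL (δ : ℝ) (s : ℂ) : ℂ :=
  completedRiemannZeta (s + hh δ) * completedRiemannZeta (s - hh δ)

/-- the numerator `φ(s) Γ_ℝ(s) Γ_ℝ(1-s)` -/
noncomputable def NU (t0 D : ℝ) (s : ℂ) : ℂ := phi t0 D s * (Gammaℝ s * Gammaℝ (1 - s))

/-- the kernel -/
noncomputable def PP (t0 D δ : ℝ) (s : ℂ) : ℂ := NU t0 D s / LL δ s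

/-- the Gamma ratio -/
noncomputable def rr (δ : ℝ) (s : ℂ) : ℂ :=
  Gammaℝ s * Gammaℝ (1 - s) / (Gammaℝ (s + hh δ) * Gammaℝ (1 - (s - hh δ)))

/-- the main function on the right -/
noncomputable def QQ (t0 D δ : ℝ) (N : ℕ) (s : ℂ) : ℂ :=
  phi t0 D s * rr δ s * AA N (1 - (s - hh δ)) / riemannZeta (s + hh δ)

/-- parameters -/
noncomputable def dl (c T : ℝ) : ℝ := 2 * Real.pi * c / Real.log T
noncomputable def nn (κ T : ℝ) : ℕ := ⌊T ^ (1 - κ)⌋₊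
noncomputable def dd (κ T : ℝ) : ℝ := T ^ (1 - κ / 2)

/-- the (negated) separation hypothesis at height `T`: every zero of `ζ` with ordinate in
`[T, 2T]` is simple, lies on the critical line, and distinct zeros have ordinates more than
`δ` apart. -/
structure Sep (δ T : ℝ) : Prop where
  line : ∀ s : ℂ, 0 < s.re → s.re < 1 → T ≤ s.im → s.im ≤ 2 * T → riemannZeta s = 0 → s.re = 1 / 2
  simple : ∀ s : ℂ, 0 < s.re → s.re < 1 → T ≤ s.im → s.im ≤ 2 * T → riemannZeta s = 0 →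
    deriv riemannZeta s ≠ 0
  sep : ∀ s s' : ℂ, 0 < s.re → s.re < 1 → T ≤ s.im → s.im ≤ 2 * T → riemannZeta s = 0 →
    0 < s'.re → s'.re < 1 → T ≤ s'.im → s'.im ≤ 2 * T → riemannZeta s' = 0 → s ≠ s' →
    δ < |s.im - s'.im|

/-- integral over the boundary of the rectangle `[a,b] × [c,d]`, counterclockwise -/
noncomputable def rectI (F : ℂ → ℂ) (a b c d : ℝ) : ℂ :=
  (∫ x in a..b, F (⟨x, c⟩ : ℂ)) - (∫ x in a..b, F (⟨x, d⟩ : ℂ))
    + I * (∫ y in c..d, F (⟨b, y⟩ : ℂ)) - I * (∫ y in c..d, F (⟨a, y⟩ : ℂ))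

end SG
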