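import Pool.Agent.H382R2.Defs
import Pool.Agent.H382R2.Deep0
import Pool.Agent.H382R2.Dir
import Pool.Agent.H382R2.SqFree
import Pool.Agent.H382R2.Gam
import Pool.Agent.H382R2.GaussMV

open Complex Filter Topology Set MeasureTheory

namespace SG

namespace MNaux

open MVaux

/-- the Gaussian on the critical line -/
theorem phi_line (t0 D t : ℝ) :
    phi t0 D (⟨1 / 2, t⟩ : ℂ) = (Real.exp (-(t - t0) ^ 2 / (2 * D ^ 2)) : ℂ) := by
  rw [phi, Complex.ofReal_exp]
  congr 1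
  have e : (⟨1 / 2, t⟩ : ℂ) = 1 / 2 + I * t := by
    apply Complex.ext <;> simp
  rw [e]
  push_cast
  have : (1 / 2 + I * (t : ℂ) - 1 / 2 - I * t0) ^ 2 = -((t : ℂ) - t0) ^ 2 := by
    have : (1 / 2 + I * (t : ℂ) - 1 / 2 - I * t0) = I * ((t : ℂ) - t0) := by ring
    rw [this, mul_pow, Complex.I_sq]
    ring
  rw [this]

theorem AAp (N : ℕ) (δ t : ℝ) : AA N ((⟨1 / 2, t⟩ : ℂ) + hh δ) = AA N (1 / 2 + I * (t + (δ / 2 : ℝ))) := by
  congr 1
  rw [hh]
  have e : (⟨1 / 2, t⟩ : ℂ) = 1 / 2 + I * t := by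
    apply Complex.ext <;> simp
  rw [e]
  ring

theorem AAm (N : ℕ) (δ t : ℝ) :
    AA N (1 - ((⟨1 / 2, t⟩ : ℂ) - hh δ)) = AA N (1 / 2 - I * (t + (-(δ / 2) : ℝ))) := by
  congr 1
  rw [hh]
  have e : (⟨1 / 2, t⟩ : ℂ) = 1 / 2 + I * t := by
    apply Complex.ext <;> simp
  rw [e]
  push_cast
  ring

theorem AA_half (N : ℕ) (x : ℝ) : ‖AA N (1 / 2 + I * x)‖ ≤ N := by
  have h := AA_bound N (1 / 2 + I * x)
  have e : (1 / 2 + I * (x : ℂ)).re = 1 / 2 := by simp
  rw [e] at h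
  rw [max_eq_left (by norm_num), add_zero, Real.rpow_one] at h
  exact h

theorem AA_half' (N : ℕ) (x : ℝ) : ‖AA N (1 / 2 - I * x)‖ ≤ N := by
  have h := AA_half N (-x)
  rwa [Complex.ofReal_neg, mul_neg, ← sub_eq_add_neg] at h

theorem AA_conj (N : ℕ) (x : ℝ) : AA N (1 / 2 - I * x) = (starRingEnd ℂ) (AA N (1 / 2 + I * x)) := by
  unfold AA
  rw [map_sum]
  refine Finset.sum_congr rfl fun n hn => ?_
  have hn1 := (Finset.mem_Icc.mp hn).1
  rw [map_mul, cpow_nat n hn1, cpow_nat n hn1, ← Complex.exp_conj]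
  congr 1
  · simp
  · congr 1
    simp only [map_mul, map_neg, map_add, Complex.conj_ofReal, Complex.conj_I, map_div₀, map_one,
      map_ofNat]
    ring

/-- the tail of the main integral is small -/
theorem tail_small (κ : ℝ) (hκ : 0 < κ) (hκ1 : κ < 1 / 2) : ∃ T0 : ℝ, 10 ≤ T0 ∧ ∀ T : ℝ, T0 ≤ T →
    ∀ U1 U2 : ℝ, T ≤ U1 → U1 ≤ T + 20 → 2 * T - 20 ≤ U2 → U2 ≤ 2 * T → ∀ a b : ℝ,
    ‖(∫ t : ℝ, (Real.exp (-(t - 3 * T / 2) ^ 2 / (2 * dd κ T ^ 2)) : ℂ) *
        AA (nn κ T) (1 / 2 + I * (t + a)) * AA (nn κ T) (1 / 2 - I * (t + b))) -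
      ∫ t in U1..U2, (Real.exp (-(t - 3 * T / 2) ^ 2 / (2 * dd κ T ^ 2)) : ℂ) *
        AA (nn κ T) (1 / 2 + I * (t + a)) * AA (nn κ T) (1 / 2 - I * (t + b))‖ ≤ 1 := by
  obtain ⟨T0, h10, hT0⟩ := ev_small κ (1 / 64) 6 hκ (by norm_num)
  refine ⟨max T0 100, h10.trans (le_max_left _ _), fun T hT U1 U2 hU1 hU1' hU2 hU2' a b => ?_⟩
  have hT1 : T0 ≤ T := (le_max_left _ _).trans hT
  have hT100 : 100 ≤ T := (le_max_right _ _).trans hT
  have hTpos : 0 < T := by linarith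
  set D := dd κ T with hDdef
  set N := nn κ T with hNdef
  set t0 := 3 * T / 2 with ht0
  have hD : 0 < D := Deep.dd_pos κ T hTpos
  set F : ℝ → ℂ := fun t => (Real.exp (-(t - t0) ^ 2 / (2 * D ^ 2)) : ℂ) *
        AA N (1 / 2 + I * (t + a)) * AA N (1 / 2 - I * (t + b)) with hF
  have hFi : Integrable F := main_int N D t0 a b hD
  have h12 : U1 ≤ U2 := by linarith
  rw [intervalIntegral.integral_of_le h12]
  have hsplit := integral_add_compl (μ := volume) (measurableSet_Ioc (a := U1) (b := U2)) hFi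
  rw [← hsplit, add_sub_cancel_left]
  obtain ⟨h1, h2, h3⟩ := nn_bounds κ T (by linarith) (by linarith)
  have hN : (0 : ℝ) < N := by exact_mod_cast h1
  have hDT : D ≤ T := by
    calc dd κ T ≤ T ^ (1 : ℝ) := Real.rpow_le_rpow_of_exponent_le (by linarith) (by linarith)
      _ = T := Real.rpow_one T
  have hNT : (N : ℝ) ≤ T := by
    calc (nn κ T : ℝ) ≤ T ^ (1 - κ) := h3
      _ ≤ T ^ (1 : ℝ) := Real.rpow_le_rpow_of_exponent_le (by linarith) (by linarith)
      _ = T := Real.rpow_one T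
  -- pointwise bound on the complement
  have hD2 : D ^ 2 * T ^ κ = T ^ 2 := by
    rw [hDdef, dd, ← Real.rpow_natCast, ← Real.rpow_mul hTpos.le, ← Real.rpow_add hTpos,
      ← Real.rpow_natCast]
    congr 1
    push_cast
    ring
  have hpt : ∀ t ∈ (Ioc U1 U2)ᶜ, ‖F t‖ ≤
      T ^ 2 * Real.exp (-(1 / 64) * T ^ κ) * Real.exp (-(t - t0) ^ 2 / (2 * (√2 * D) ^ 2)) := by
    intro t ht
    have hs2 : (√2 * D) ^ 2 = 2 * D ^ 2 := by
      rw [mul_pow, Real.sq_sqrt (by norm_num)]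
    have htt : (T / 4) ^ 2 ≤ (t - t0) ^ 2 := by
      rw [mem_compl_iff, mem_Ioc, not_and_or, not_lt, not_le] at ht
      rcases ht with ht | ht
      · have : T / 4 ≤ t0 - t := by rw [ht0]; linarith
        nlinarith
      · have : T / 4 ≤ t - t0 := by rw [ht0]; linarith
        nlinarith
    have hA : ‖AA N (1 / 2 + I * (t + a))‖ ≤ T := by
      have := AA_half N (t + a)
      push_cast at this
      linarith
    have hB : ‖AA N (1 / 2 - I * (t + b))‖ ≤ T := by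
      have := AA_half' N (t + b)
      push_cast at this
      linarith
    have hE : Real.exp (-(t - t0) ^ 2 / (2 * D ^ 2)) ≤
        Real.exp (-(1 / 64) * T ^ κ) * Real.exp (-(t - t0) ^ 2 / (2 * (√2 * D) ^ 2)) := by
      rw [← Real.exp_add, hs2]
      apply Real.exp_le_exp.mpr
      have e1 : -(t - t0) ^ 2 / (2 * D ^ 2) = -(t - t0) ^ 2 / (2 * (2 * D ^ 2)) -
          (t - t0) ^ 2 / (4 * D ^ 2) := by
        field_simp
        ring
      rw [e1]
      have e2 : T ^ κ / 64 ≤ (t - t0) ^ 2 / (4 * D ^ 2) := by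
        rw [div_le_div_iff₀ (by norm_num) (by positivity)]
        nlinarith
      linarith
    rw [hF]
    simp only
    rw [norm_mul, norm_mul, Complex.norm_real, Real.norm_of_nonneg (Real.exp_pos _).le]
    calc Real.exp (-(t - t0) ^ 2 / (2 * D ^ 2)) * ‖AA N (1 / 2 + I * (t + a))‖ *
          ‖AA N (1 / 2 - I * (t + b))‖
        ≤ (Real.exp (-(1 / 64) * T ^ κ) * Real.exp (-(t - t0) ^ 2 / (2 * (√2 * D) ^ 2))) * T * T := by
          apply mul_le_mul _ hB (norm_nonneg _) (by positivity)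
          exact mul_le_mul hE hA (norm_nonneg _) (by positivity)
      _ = _ := by ring
  have hs2D : 0 < √2 * D := by positivity
  have hgi := Deep.gauss_integrable (√2 * D) t0 hs2D
  have hgI := Deep.gauss_integral (√2 * D) t0 hs2D
  have hs : Real.sqrt (2 * Real.pi) ≤ 3 := by
    rw [Real.sqrt_le_left (by norm_num)]
    have := Real.pi_lt_d2
    norm_num at this ⊢
    linarith
  have hsq2 : √2 ≤ 2 := by
    rw [Real.sqrt_le_left (by norm_num)]; norm_num
  calc ‖∫ t in (Ioc U1 U2)ᶜ, F t‖ ≤ ∫ t in (Ioc U1 U2)ᶜ,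
        T ^ 2 * Real.exp (-(1 / 64) * T ^ κ) * Real.exp (-(t - t0) ^ 2 / (2 * (√2 * D) ^ 2)) := by
        apply norm_integral_le_of_norm_le
        · exact (hgi.const_mul _).integrableOn
        · rw [ae_restrict_iff' measurableSet_Ioc.compl]
          exact Eventually.of_forall hpt
    _ ≤ ∫ t, T ^ 2 * Real.exp (-(1 / 64) * T ^ κ) * Real.exp (-(t - t0) ^ 2 / (2 * (√2 * D) ^ 2)) :=
        setIntegral_le_integral (hgi.const_mul _) (ae_of_all _ fun t => by positivity)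
    _ = T ^ 2 * Real.exp (-(1 / 64) * T ^ κ) * (√2 * D * Real.sqrt (2 * Real.pi)) := by
        rw [integral_const_mul, hgI]
    _ ≤ T ^ 2 * Real.exp (-(1 / 64) * T ^ κ) * (2 * T * 3) := by
        apply mul_le_mul_of_nonneg_left _ (by positivity)
        apply mul_le_mul _ hs (Real.sqrt_nonneg _) (by positivity)
        exact mul_le_mul hsq2 hDT hD.le (by norm_num)
    _ ≤ 6 * T ^ 4 * Real.exp (-(1 / 64) * T ^ κ) := by
        have hE : 0 ≤ Real.exp (-(1 / 64) * T ^ κ) := (Real.exp_pos _).le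
        have : T ^ 3 ≤ T ^ 4 := pow_le_pow_right₀ (by linarith) (by norm_num)
        nlinarith [mul_le_mul_of_nonneg_right this hE]
    _ ≤ 1 := hT0 T hT1

theorem sq_sum_le (N : ℕ) (hN : 1 ≤ N) :
    ∑ n ∈ Finset.Icc 1 N, ((ArithmeticFunction.moebius n : ℤ) : ℝ) ^ 2 / n ≤ 1 + Real.log N := by
  have hN1 : (1 : ℝ) ≤ N := by exact_mod_cast hN
  have h := harmonic_le_one_add_log N
  refine le_trans ?_ h
  rw [harmonic_eq_sum_Icc]
  push_cast
  refine Finset.sum_le_sum fun n hn => ?_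
  have hn1 : (0 : ℝ) < n := by exact_mod_cast (Finset.mem_Icc.mp hn).1
  rw [← one_div]
  apply div_le_div_of_nonneg_right _ hn1.le
  have h1 : |((ArithmeticFunction.moebius n : ℤ) : ℝ)| ≤ 1 := abs_moebius_real_le n
  rw [← sq_abs]
  exact pow_le_one₀ (abs_nonneg _) h1

/-- mean square of one factor -/
theorem mean_sq (κ : ℝ) (hκ : 0 < κ) (hκ1 : κ < 1 / 2) : ∃ T0 : ℝ, 10 ≤ T0 ∧ ∀ T : ℝ, T0 ≤ T →
    ∀ a : ℝ, Integrable (fun t : ℝ => Real.exp (-(t - 3 * T / 2) ^ 2 / (2 * dd κ T ^ 2)) *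
        ‖AA (nn κ T) (1 / 2 + I * (t + a))‖ ^ 2) ∧
    ∫ t : ℝ, Real.exp (-(t - 3 * T / 2) ^ 2 / (2 * dd κ T ^ 2)) *
        ‖AA (nn κ T) (1 / 2 + I * (t + a))‖ ^ 2 ≤ 7 * dd κ T * Real.log T := by
  obtain ⟨T0, h10, hT0⟩ := gauss_mv κ hκ hκ1
  refine ⟨T0, h10, fun T hT a => ?_⟩
  have hT10 : 10 ≤ T := h10.trans hT
  have hTpos : 0 < T := by linarith
  have hD : 0 < dd κ T := Deep.dd_pos κ T hTpos
  have hD1 : 1 ≤ dd κ T := Deep.one_le_dd κ hκ1 T hT10
  have hlog : 1 ≤ Real.log T := by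
    rw [Real.le_log_iff_exp_le hTpos]
    have := Real.exp_one_lt_d9
    linarith
  have hkey : ∀ t : ℝ, ((Real.exp (-(t - 3 * T / 2) ^ 2 / (2 * dd κ T ^ 2)) *
        ‖AA (nn κ T) (1 / 2 + I * (t + a))‖ ^ 2 : ℝ) : ℂ) =
      (Real.exp (-(t - 3 * T / 2) ^ 2 / (2 * dd κ T ^ 2)) : ℂ) *
        AA (nn κ T) (1 / 2 + I * (t + a)) * AA (nn κ T) (1 / 2 - I * (t + a)) := by
    intro t
    have h1 := AA_conj (nn κ T) (t + a)
    push_cast at h1
    rw [h1, mul_assoc, Complex.mul_conj']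
    push_cast
    ring
  have hint := main_int (nn κ T) (dd κ T) (3 * T / 2) a a hD
  have hint2 : Integrable (fun t : ℝ => Real.exp (-(t - 3 * T / 2) ^ 2 / (2 * dd κ T ^ 2)) *
        ‖AA (nn κ T) (1 / 2 + I * (t + a))‖ ^ 2) := by
    have := hint.re
    refine this.congr (ae_of_all _ fun t => ?_)
    have h1 := congrArg Complex.re (hkey t)
    rw [Complex.ofReal_re] at h1
    exact h1.symm
  refine ⟨hint2, ?_⟩
  have h := hT0 T hT a a (3 * T / 2)
  have e1 : (∫ t : ℝ, (Real.exp (-(t - 3 * T / 2) ^ 2 / (2 * dd κ T ^ 2)) : ℂ) *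
        AA (nn κ T) (1 / 2 + I * (t + a)) * AA (nn κ T) (1 / 2 - I * (t + a))) =
      ((∫ t : ℝ, Real.exp (-(t - 3 * T / 2) ^ 2 / (2 * dd κ T ^ 2)) *
        ‖AA (nn κ T) (1 / 2 + I * (t + a))‖ ^ 2 : ℝ) : ℂ) := by
    rw [← integral_complex_ofReal]
    congr 1
    funext t
    exact (hkey t).symm
  have e2 : ∑ n ∈ Finset.Icc 1 (nn κ T), (((ArithmeticFunction.moebius n : ℤ) : ℂ)) ^ 2 *
          (n : ℂ) ^ (-(1 : ℂ) - I * (a - a)) =
      ((∑ n ∈ Finset.Icc 1 (nn κ T), ((ArithmeticFunction.moebius n : ℤ) : ℝ) ^ 2 / n : ℝ) : ℂ) := by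
    push_cast
    refine Finset.sum_congr rfl fun n hn => ?_
    rw [sub_self, mul_zero, sub_zero, Complex.cpow_neg_one, div_eq_mul_inv]
  rw [e1, e2, ← Complex.ofReal_mul, ← Complex.ofReal_sub, Complex.norm_real, Real.norm_eq_abs] at h
  have h2 := (abs_le.mp h).2
  obtain ⟨hn1, hn2, hn3⟩ := nn_bounds κ T (by linarith) (by linarith)
  have h3 := sq_sum_le (nn κ T) hn1
  have hlogN : Real.log (nn κ T) ≤ Real.log T := by
    apply Real.log_le_log (by exact_mod_cast hn1)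
    calc (nn κ T : ℝ) ≤ T ^ (1 - κ) := hn3
      _ ≤ T ^ (1 : ℝ) := Real.rpow_le_rpow_of_exponent_le (by linarith) (by linarith)
      _ = T := Real.rpow_one T
  have hs : Real.sqrt (2 * Real.pi) ≤ 3 := by
    rw [Real.sqrt_le_left (by norm_num)]
    have := Real.pi_lt_d2
    norm_num at this ⊢
    linarith
  have hs0 : 0 ≤ Real.sqrt (2 * Real.pi) := Real.sqrt_nonneg _
  have h4 : dd κ T * Real.sqrt (2 * Real.pi) *
      ∑ n ∈ Finset.Icc 1 (nn κ T), ((ArithmeticFunction.moebius n : ℤ) : ℝ) ^ 2 / n ≤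
      dd κ T * 3 * (2 * Real.log T) := by
    apply mul_le_mul
    · exact mul_le_mul_of_nonneg_left hs hD.le
    · linarith
    · exact Finset.sum_nonneg fun n _ => by positivity
    · positivity
  have h5 : 1 ≤ dd κ T * Real.log T := by nlinarith
  linarith

theorem rr_cont (δ : ℝ) (hδ : |δ| ≤ 1) (U1 U2 : ℝ) (h1 : 1 ≤ U1) :
    ContinuousOn (fun t : ℝ => rr δ (⟨1 / 2, t⟩ : ℂ)) (Icc U1 U2) := by
  intro t ht
  have hc : Continuous fun t : ℝ => (⟨1 / 2, t⟩ : ℂ) := by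
    have : (fun t : ℝ => (⟨1 / 2, t⟩ : ℂ)) = fun t : ℝ => (1 / 2 + I * t : ℂ) := by
      funext t
      apply Complex.ext <;> simp
    rw [this]
    fun_prop
  have h := (rr_analytic δ hδ (⟨1 / 2, t⟩ : ℂ) (by simpa using h1.trans ht.1)).continuousAt
  exact (ContinuousAt.comp (f := fun t : ℝ => (⟨1 / 2, t⟩ : ℂ)) h hc.continuousAt).continuousWithinAt

end MNaux

open MVaux MNaux

/-- final output of M5 -/
theorem main_neg (c : ℝ) (hc : 1 / 2 < c) (hc1 : c < 1) : ∃ κ c1 T0 : ℝ, 0 < κ ∧ κ < 1 / 2 ∧ 0 < c1 ∧ 10 ≤ T0 ∧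
    ∀ T : ℝ, T0 ≤ T → ∀ U1 U2 : ℝ, T ≤ U1 → U1 ≤ T + 20 → 2 * T - 20 ≤ U2 → U2 ≤ 2 * T →
    ((I / (2 * Real.pi)) * ∫ t in U1..U2, phi (3 * T / 2) (dd κ T) (⟨1 / 2, t⟩ : ℂ) *
      rr (dl c T) (⟨1 / 2, t⟩ : ℂ) * AA (nn κ T) ((⟨1 / 2, t⟩ : ℂ) + hh (dl c T)) *
      AA (nn κ T) (1 - ((⟨1 / 2, t⟩ : ℂ) - hh (dl c T)))).re ≤ -c1 * dd κ T * Real.log T := by
  obtain ⟨κ, c1, T1, hκ, hκ1, hc10, hT110, hosc⟩ := osc_sum c hc hc1
  obtain ⟨T2, hT210, hmv⟩ := gauss_mv κ hκ hκ1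
  obtain ⟨T3, hT310, htail⟩ := tail_small κ hκ hκ1
  obtain ⟨T4, hT410, hms⟩ := mean_sq κ hκ hκ1
  obtain ⟨C, T5, hC1, hT510, hph⟩ := rr_phase c (by linarith) hc1
  -- large T
  set B : ℝ := (7 * C + 2) * 100 / c1 with hB
  set T0 : ℝ := max (max (max T1 T2) (max T3 T4)) (max T5 (Real.exp (max B 100))) with hT0def
  refine ⟨κ, c1 / 10, T0, hκ, hκ1, by positivity, ?_, fun T hT U1 U2 hU1 hU1' hU2 hU2' => ?_⟩
  · exact hT110.trans ((le_max_left _ _).trans ((le_max_left _ _).trans (le_max_left _ _)))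
  have hT1 : T1 ≤ T := ((le_max_left _ _).trans ((le_max_left _ _).trans (le_max_left _ _))).trans hT
  have hT2 : T2 ≤ T := ((le_max_right _ _).trans ((le_max_left _ _).trans (le_max_left _ _))).trans hT
  have hT3 : T3 ≤ T := ((le_max_left _ _).trans ((le_max_right _ _).trans (le_max_left _ _))).trans hT
  have hT4 : T4 ≤ T := ((le_max_right _ _).trans ((le_max_right _ _).trans (le_max_left _ _))).trans hT
  have hT5 : T5 ≤ T := ((le_max_left _ _).trans (le_max_right _ _)).trans hT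
  have hT6 : Real.exp (max B 100) ≤ T := ((le_max_right _ _).trans (le_max_right _ _)).trans hT
  have hT10 : 10 ≤ T := hT110.trans hT1
  have hTpos : 0 < T := by linarith
  have hlogB : max B 100 ≤ Real.log T := by
    rwa [Real.le_log_iff_exp_le hTpos]
  have hlog100 : 100 ≤ Real.log T := (le_max_right _ _).trans hlogB
  have hlogB' : B ≤ Real.log T := (le_max_left _ _).trans hlogB
  set L := Real.log T with hL
  set D := dd κ T with hDdef
  set N := nn κ T with hNdef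
  set δ := dl c T with hδdef
  set t0 := 3 * T / 2 with ht0
  have hD : 0 < D := Deep.dd_pos κ T hTpos
  have hD1 : 1 ≤ D := Deep.one_le_dd κ hκ1 T hT10
  have hpi := Real.pi_gt_three
  have hpi4 := Real.pi_lt_four
  have hL0 : 0 < L := by linarith
  have hδ0 : 0 < δ := by rw [hδdef, dl]; positivity
  have hδ1 : |δ| ≤ 1 := by
    rw [abs_of_pos hδ0, hδdef, dl, div_le_one (by linarith)]
    nlinarith
  have h12 : U1 ≤ U2 := by
    have : Real.exp 100 ≤ T := le_trans (Real.exp_le_exp.mpr (le_max_right _ _)) hT6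
    have h2 : (100 : ℝ) + 1 ≤ Real.exp 100 := Real.add_one_le_exp 100
    linarith
  -- the functions
  set G : ℝ → ℂ := fun t => (Real.exp (-(t - t0) ^ 2 / (2 * D ^ 2)) : ℂ) *
        AA N (1 / 2 + I * (t + (δ / 2 : ℝ))) * AA N (1 / 2 - I * (t + (-(δ / 2) : ℝ))) with hG
  set e : ℂ := cexp (-(Real.pi * c : ℝ) * I) with he
  have henorm : ‖e‖ = 1 := by
    rw [he, Complex.norm_exp]
    have : (-(Real.pi * c : ℝ) * I : ℂ).re = 0 := by simp
    rw [this, Real.exp_zero]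
  have hGi : Integrable G := main_int N D t0 _ _ hD
  have hcongr : (∫ t in U1..U2, phi t0 D (⟨1 / 2, t⟩ : ℂ) * rr δ (⟨1 / 2, t⟩ : ℂ) *
      AA N ((⟨1 / 2, t⟩ : ℂ) + hh δ) * AA N (1 - ((⟨1 / 2, t⟩ : ℂ) - hh δ))) =
      ∫ t in U1..U2, (e * G t + (rr δ (⟨1 / 2, t⟩ : ℂ) - e) * G t) := by
    apply intervalIntegral.integral_congr
    intro t _
    simp only
    rw [phi_line, AAp, AAm, hG]
    ring
  have hcont : IntervalIntegrable (fun t => (rr δ (⟨1 / 2, t⟩ : ℂ) - e) * G t) volume U1 U2 := by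
    apply IntervalIntegrable.continuousOn_mul (f := G) hGi.intervalIntegrable
    rw [uIcc_of_le h12]
    exact (rr_cont δ hδ1 U1 U2 (by linarith)).sub continuousOn_const
  rw [hcongr, intervalIntegral.integral_add (hGi.intervalIntegrable.const_mul e) hcont,
    intervalIntegral.integral_const_mul]
  -- error term
  set G1 : ℝ → ℝ := fun t => Real.exp (-(t - t0) ^ 2 / (2 * D ^ 2)) *
        ‖AA N (1 / 2 + I * (t + (δ / 2 : ℝ)))‖ ^ 2 with hG1
  set G2 : ℝ → ℝ := fun t => Real.exp (-(t - t0) ^ 2 / (2 * D ^ 2)) *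
        ‖AA N (1 / 2 + I * (t + (-(δ / 2) : ℝ)))‖ ^ 2 with hG2
  obtain ⟨hG1i, hG1b⟩ := hms T hT4 (δ / 2)
  obtain ⟨hG2i, hG2b⟩ := hms T hT4 (-(δ / 2))
  have hGle : ∀ t, ‖G t‖ ≤ (G1 t + G2 t) / 2 := by
    intro t
    rw [hG, hG1, hG2]
    simp only
    rw [norm_mul, norm_mul, Complex.norm_real, Real.norm_of_nonneg (Real.exp_pos _).le]
    have h1 := AA_conj N (t + (-(δ / 2)))
    push_cast at h1
    push_cast
    rw [h1, Complex.norm_conj]
    have h2 := two_mul_le_add_sq ‖AA N (1 / 2 + I * (t + δ / 2))‖ ‖AA N (1 / 2 + I * (t + -(δ / 2)))‖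
    have h3 := Real.exp_pos (-(t - t0) ^ 2 / (2 * D ^ 2))
    nlinarith
  have herr : ‖∫ t in U1..U2, (rr δ (⟨1 / 2, t⟩ : ℂ) - e) * G t‖ ≤ 7 * C * D := by
    have hCL : 0 ≤ C / L := by positivity
    calc ‖∫ t in U1..U2, (rr δ (⟨1 / 2, t⟩ : ℂ) - e) * G t‖
        ≤ ∫ t in U1..U2, (C / L) * ((G1 t + G2 t) / 2) := by
          apply intervalIntegral.norm_integral_le_of_norm_le h12
          · refine ae_of_all _ fun t ht => ?_
            rw [norm_mul]
            apply mul_le_mul _ (hGle t) (norm_nonneg _) hCL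
            exact hph T hT5 t (by linarith [ht.1]) (by linarith [ht.2])
          · exact (((hG1i.add hG2i).div_const 2).const_mul (C / L)).intervalIntegrable
      _ ≤ ∫ t, (C / L) * ((G1 t + G2 t) / 2) := by
          rw [intervalIntegral.integral_of_le h12]
          apply setIntegral_le_integral (((hG1i.add hG2i).div_const 2).const_mul (C / L))
          refine ae_of_all _ fun t => ?_
          have hg1 : 0 ≤ G1 t := mul_nonneg (Real.exp_pos _).le (by positivity)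
          have hg2 : 0 ≤ G2 t := mul_nonneg (Real.exp_pos _).le (by positivity)
          exact mul_nonneg hCL (div_nonneg (add_nonneg hg1 hg2) (by norm_num))
      _ = (C / L) * (((∫ t, G1 t) + ∫ t, G2 t) / 2) := by
          rw [integral_const_mul, integral_div, integral_add hG1i hG2i]
      _ ≤ (C / L) * ((7 * D * L + 7 * D * L) / 2) := by
          apply mul_le_mul_of_nonneg_left _ hCL
          linarith
      _ = 7 * C * D := by
          field_simp
          ring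
  -- main term
  set S : ℂ := ∑ n ∈ Finset.Icc 1 N, (((ArithmeticFunction.moebius n : ℤ) : ℂ)) ^ 2 *
          (n : ℂ) ^ (-(1 : ℂ) - I * ((δ / 2 : ℝ) - (-(δ / 2) : ℝ))) with hS
  have hm1 := hmv T hT2 (δ / 2) (-(δ / 2)) t0
  have hm2 := htail T hT3 U1 U2 hU1 hU1' hU2 hU2' (δ / 2) (-(δ / 2))
  have hdiff : ‖(∫ t in U1..U2, G t) - ((D * Real.sqrt (2 * Real.pi) : ℝ) : ℂ) * S‖ ≤ 2 := by
    have e1 : (∫ t in U1..U2, G t) - ((D * Real.sqrt (2 * Real.pi) : ℝ) : ℂ) * S =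
        ((∫ t, G t) - ((D * Real.sqrt (2 * Real.pi) : ℝ) : ℂ) * S) -
          ((∫ t, G t) - ∫ t in U1..U2, G t) := by ring
    rw [e1]
    calc _ ≤ ‖(∫ t, G t) - ((D * Real.sqrt (2 * Real.pi) : ℝ) : ℂ) * S‖ +
          ‖(∫ t, G t) - ∫ t in U1..U2, G t‖ := norm_sub_le _ _
      _ ≤ 1 + 1 := add_le_add hm1 hm2
      _ = 2 := by norm_num
  have hosc' := hosc T hT1
  have hre : (I * (e * S)).re = ∑ n ∈ Finset.Icc 1 N, ((ArithmeticFunction.moebius n : ℤ) : ℝ) ^ 2 / n *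
      Real.sin (Real.pi * c + δ * Real.log n) := by
    rw [hS, Finset.mul_sum, Finset.mul_sum, Complex.re_sum]
    refine Finset.sum_congr rfl fun n hn => ?_
    have hn1 := (Finset.mem_Icc.mp hn).1
    have hn0 : (0 : ℝ) < n := by exact_mod_cast hn1
    rw [cpow_nat n hn1]
    have e1 : I * (e * ((((ArithmeticFunction.moebius n : ℤ) : ℂ)) ^ 2 *
        cexp ((Real.log n : ℝ) * (-(1 : ℂ) - I * ((δ / 2 : ℝ) - (-(δ / 2) : ℝ)))))) =
        ((((ArithmeticFunction.moebius n : ℤ) : ℝ) ^ 2 / n : ℝ) : ℂ) *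
          (I * cexp (-((Real.pi * c + δ * Real.log n : ℝ) : ℂ) * I)) := by
      have e2 : cexp ((Real.log n : ℝ) * (-(1 : ℂ) - I * ((δ / 2 : ℝ) - (-(δ / 2) : ℝ)))) =
          ((1 / n : ℝ) : ℂ) * cexp (-((δ * Real.log n : ℝ) : ℂ) * I) := by
        have e3 : ((1 / n : ℝ) : ℂ) = cexp ((-Real.log n : ℝ)) := by
          rw [← Complex.ofReal_exp, Real.exp_neg, Real.exp_log hn0, one_div]
        rw [e3, ← Complex.exp_add]
        congr 1
        push_cast
        ring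
      have e4 : cexp (-((Real.pi * c + δ * Real.log n : ℝ) : ℂ) * I) =
          e * cexp (-((δ * Real.log n : ℝ) : ℂ) * I) := by
        rw [he, ← Complex.exp_add]
        congr 1
        push_cast
        ring
      rw [e2, e4]
      push_cast
      ring
    rw [e1, Complex.re_ofReal_mul]
    congr 1
    rw [Complex.I_mul_re, ← Complex.ofReal_neg, Complex.exp_ofReal_mul_I_im, Real.sin_neg, neg_neg]
  have hcomb : ((I / (2 * Real.pi)) * (e * (∫ t in U1..U2, G t) +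
      ∫ t in U1..U2, (rr δ (⟨1 / 2, t⟩ : ℂ) - e) * G t)).re =
      (D * Real.sqrt (2 * Real.pi) / (2 * Real.pi)) * (I * (e * S)).re +
      ((I / (2 * Real.pi)) * (e * ((∫ t in U1..U2, G t) -
        ((D * Real.sqrt (2 * Real.pi) : ℝ) : ℂ) * S) +
        ∫ t in U1..U2, (rr δ (⟨1 / 2, t⟩ : ℂ) - e) * G t)).re := by
    rw [← Complex.re_ofReal_mul, ← Complex.add_re]
    congr 1
    push_cast
    ring
  rw [hcomb, hre]
  have hsmall : ((I / (2 * Real.pi)) * (e * ((∫ t in U1..U2, G t) -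
        ((D * Real.sqrt (2 * Real.pi) : ℝ) : ℂ) * S) +
        ∫ t in U1..U2, (rr δ (⟨1 / 2, t⟩ : ℂ) - e) * G t)).re ≤ 2 + 7 * C * D := by
    refine (Complex.re_le_norm _).trans ?_
    rw [norm_mul]
    have h1 : ‖(I / (2 * Real.pi) : ℂ)‖ ≤ 1 := by
      rw [norm_div, Complex.norm_I, norm_mul, Complex.norm_real, Real.norm_of_nonneg Real.pi_pos.le,
        Complex.norm_ofNat, div_le_one (by positivity)]
      linarith
    calc _ ≤ 1 * (2 + 7 * C * D) := by
          apply mul_le_mul h1 _ (norm_nonneg _) zero_le_one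
          refine (norm_add_le _ _).trans (add_le_add ?_ herr)
          rw [norm_mul, henorm, one_mul]
          exact hdiff
      _ = _ := one_mul _
  -- sqrt(2π)/(2π) ≥ 1/4
  have hs2 : 2 ≤ Real.sqrt (2 * Real.pi) := by
    apply Real.le_sqrt_of_sq_le
    linarith
  have hsq : 1 / 4 ≤ Real.sqrt (2 * Real.pi) / (2 * Real.pi) := by
    rw [div_le_div_iff₀ (by norm_num) (by positivity)]
    linarith
  have hmain : (D * Real.sqrt (2 * Real.pi) / (2 * Real.pi)) *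
      (∑ n ∈ Finset.Icc 1 N, ((ArithmeticFunction.moebius n : ℤ) : ℝ) ^ 2 / n *
      Real.sin (Real.pi * c + δ * Real.log n)) ≤ -(c1 / 4) * D * L := by
    have h1 : D * (1 / 4) ≤ D * Real.sqrt (2 * Real.pi) / (2 * Real.pi) := by
      rw [mul_div_assoc]
      exact mul_le_mul_of_nonneg_left hsq hD.le
    have h2 : 0 < c1 * L := by positivity
    calc _ ≤ (D * Real.sqrt (2 * Real.pi) / (2 * Real.pi)) * (-c1 * L) :=
          mul_le_mul_of_nonneg_left hosc' (by positivity)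
      _ ≤ (D * (1 / 4)) * (-c1 * L) := mul_le_mul_of_nonpos_right h1 (by linarith)
      _ = _ := by ring
  have hfin : 2 + 7 * C * D ≤ c1 / 100 * D * L := by
    have h1 : (7 * C + 2) ≤ c1 / 100 * L := by
      rw [hB, div_le_iff₀ hc10] at hlogB'
      linarith
    have h2 : (7 * C + 2) * D ≤ c1 / 100 * L * D := mul_le_mul_of_nonneg_right h1 hD.le
    have h3 : c1 / 100 * L * D = c1 / 100 * D * L := by ring
    have h4 : (7 * C + 2) * D = 7 * C * D + 2 * D := by ring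
    rw [h3, h4] at h2
    linarith
  have hpos : 0 < c1 * D * L := by positivity
  have e1 : -(c1 / 4) * D * L = -(1 / 4) * (c1 * D * L) := by ring
  have e2 : c1 / 100 * D * L = (1 / 100) * (c1 * D * L) := by ring
  have e3 : -(c1 / 10) * D * L = -(1 / 10) * (c1 * D * L) := by ring
  rw [e1] at hmain
  rw [e2] at hfin
  rw [e3]
  linarith

end SG
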